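import Pool.Agent.Work.MP_dcf6a6_gq.Interface

/-!
# Block BEZ (helper87)
-/

open CategoryTheory AlgebraicGeometry Pool.TVar

namespace Pool.GQ

noncomputable section

theorem BEZ_eval {V : Type} (x y c : V → ℂ) (e : V → ℕ) (u : ℂ) (P : SS V) :
    Polynomial.eval₂ (MvPolynomial.eval c) u (sub x y e P) =
      MvPolynomial.eval (fun v => x v + c v * u + y v * u ^ e v) P := by
  have h : ((Polynomial.eval₂RingHom (MvPolynomial.eval c) u).comp (sub x y e).toRingHom) =
      MvPolynomial.eval (fun v => x v + c v * u + y v * u ^ e v) := by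
    apply MvPolynomial.ringHom_ext
    · intro a
      have h1 : sub x y e (MvPolynomial.C a) = Polynomial.C (MvPolynomial.C a) := by
        have h2 : (MvPolynomial.C a : SS V) = algebraMap ℂ (SS V) a := rfl
        rw [h2, AlgHom.commutes]
        rfl
      change Polynomial.eval₂ (MvPolynomial.eval c) u (sub x y e (MvPolynomial.C a)) = _
      rw [h1]
      simp
    · intro v
      change Polynomial.eval₂ (MvPolynomial.eval c) u (sub x y e (MvPolynomial.X v)) = _
      rw [sub, MvPolynomial.aeval_X]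
      simp [Polynomial.eval₂_add, Polynomial.eval₂_mul, Polynomial.eval₂_pow]
  exact congrArg (fun φ => φ P) h

theorem p_BEZ (hBZ1 : Stmt_BZ1) : Stmt_BEZ := by
  intro V f g x y e hf hfg
  obtain ⟨d, k, a, b, hd, hab⟩ := hBZ1 V f g x y e hf hfg
  obtain ⟨c, hc⟩ : ∃ c : V → ℂ, MvPolynomial.eval c d ≠ 0 := by
    by_contra hno
    push Not at hno
    apply hd
    apply MvPolynomial.funext
    intro c
    rw [hno c, map_zero]
  refine ⟨c, ?_⟩
  rintro u hu ⟨h1, h2⟩
  have h3 := congrArg (Polynomial.eval₂ (MvPolynomial.eval c) u) hab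
  rw [Polynomial.eval₂_add, Polynomial.eval₂_mul, Polynomial.eval₂_mul, BEZ_eval, BEZ_eval, h1, h2,
    Polynomial.eval₂_mul, Polynomial.eval₂_C, Polynomial.eval₂_pow, Polynomial.eval₂_X] at h3
  apply mul_ne_zero hc (pow_ne_zero k hu)
  rw [← h3]
  ring

end

end Pool.GQ
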