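import Pool.Agent.Work.MP_dcf6a6_gq.Interface

set_option autoImplicit false

open CategoryTheory AlgebraicGeometry Pool.TVar

namespace Pool.GQ

open scoped nonZeroDivisors

/-- an irreducible polynomial over the fraction field of a UFD comes from a prime element -/
theorem BZ1_desc {D K : Type} [CommRing D] [IsDomain D] [UniqueFactorizationMonoid D] [Field K]
    [Algebra D K] [IsFractionRing D K] (P : Polynomial K) (hP : Irreducible P) :
    ∃ P₀ : Polynomial D, Prime P₀ ∧ Associated (P₀.map (algebraMap D K)) P ∧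
      ∀ q : Polynomial D, P ∣ q.map (algebraMap D K) → P₀ ∣ q := by
  classical
  let _ : NormalizedGCDMonoid D := Classical.arbitrary _
  obtain ⟨b, hb, hb'⟩ := IsLocalization.integerNormalization_spec D⁰ P
  set P₁ := IsLocalization.integerNormalization D⁰ P with hP₁
  have hb0 : algebraMap D K b ≠ 0 :=
    IsFractionRing.to_map_ne_zero_of_mem_nonZeroDivisors hb
  have hinj : Function.Injective (algebraMap D K) := IsFractionRing.injective D K
  have h1 : Associated (P₁.map (algebraMap D K)) P := by
    rw [hb', Algebra.smul_def]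
    have hu : IsUnit (algebraMap D (Polynomial K) b) := by
      rw [IsScalarTower.algebraMap_apply D K (Polynomial K), Polynomial.algebraMap_eq]
      exact Polynomial.isUnit_C.2 (isUnit_iff_ne_zero.2 hb0)
    exact (associated_unit_mul_left _ _ hu)
  have hP₁0 : P₁ ≠ 0 := by
    intro h
    rw [h, Polynomial.map_zero] at h1
    exact hP.ne_zero (h1.symm.eq_zero_iff.2 rfl)
  have hc0 : algebraMap D K P₁.content ≠ 0 := by
    intro h
    have h2 : P₁.content = 0 := hinj (by rw [h, map_zero])
    exact hP₁0 (Polynomial.content_eq_zero_iff.1 h2)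
  have h2 : Associated (P₁.primPart.map (algebraMap D K)) (P₁.map (algebraMap D K)) := by
    have h3 : P₁.map (algebraMap D K) =
        Polynomial.C (algebraMap D K P₁.content) * P₁.primPart.map (algebraMap D K) := by
      conv_lhs => rw [P₁.eq_C_content_mul_primPart]
      rw [Polynomial.map_mul, Polynomial.map_C]
    rw [h3]
    exact (associated_unit_mul_left _ _
      (Polynomial.isUnit_C.2 (isUnit_iff_ne_zero.2 hc0))).symm
  have h3 : Associated (P₁.primPart.map (algebraMap D K)) P := h2.trans h1
  have hprim : P₁.primPart.IsPrimitive := P₁.isPrimitive_primPart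
  have hirr : Irreducible P₁.primPart :=
    hprim.irreducible_iff_irreducible_map_fraction_map (K := K) |>.2 (h3.symm.irreducible hP)
  refine ⟨P₁.primPart, UniqueFactorizationMonoid.irreducible_iff_prime.1 hirr, h3, ?_⟩
  intro q hq
  exact hprim.dvd_of_fraction_map_dvd_fraction_map (K := K) ((h3.dvd).trans hq)

/-- an element of a UFD all of whose prime factors divide `x` divides a power of `x` -/
theorem BZ1_pow {E : Type} [CommRing E] [IsDomain E] [UniqueFactorizationMonoid E] (h x : E)
    (h0 : h ≠ 0) (H : ∀ p : E, Prime p → p ∣ h → p ∣ x) : ∃ n : ℕ, h ∣ x ^ n := by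
  classical
  obtain ⟨f, hf, hfh⟩ := UniqueFactorizationMonoid.exists_prime_factors h h0
  refine ⟨Multiset.card f, ?_⟩
  have key : ∀ s : Multiset E, (∀ b ∈ s, b ∣ x) → s.prod ∣ x ^ Multiset.card s := by
    intro s
    induction s using Multiset.induction_on with
    | empty => intro _; simp
    | cons a s ih =>
      intro hs
      rw [Multiset.prod_cons, Multiset.card_cons, pow_succ, mul_comm (x ^ _)]
      exact mul_dvd_mul (hs a (Multiset.mem_cons_self a s))
        (ih fun b hb => hs b (Multiset.mem_cons_of_mem hb))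
  exact hfh.symm.dvd.trans (key f fun b hb => H b (hf b hb) ((Multiset.dvd_prod hb).trans hfh.dvd))

theorem BZ1_C {V : Type} (x y : V → ℂ) (e : V → ℕ) (r : ℂ) :
    sub x y e (MvPolynomial.C r) = Polynomial.C (MvPolynomial.C r) := by
  unfold sub
  rw [MvPolynomial.aeval_C, Polynomial.algebraMap_apply, MvPolynomial.algebraMap_eq]

theorem BZ1_X {V : Type} (x y : V → ℂ) (e : V → ℕ) (v : V) :
    sub x y e (MvPolynomial.X v) =
      Polynomial.C (MvPolynomial.C (x v)) + Polynomial.C (MvPolynomial.X v) * Polynomial.X +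
        Polynomial.C (MvPolynomial.C (y v)) * Polynomial.X ^ e v := by
  unfold sub
  rw [MvPolynomial.aeval_X]

theorem BZ1_left {V : Type} (x y : V → ℂ) (e : V → ℕ) (f : SS V) :
    MvPolynomial.aeval (fun v => (MvPolynomial.X v - MvPolynomial.C (x v + y v) : SS V))
      (Polynomial.eval 1 (sub x y e f)) = f := by
  induction f using MvPolynomial.induction_on with
  | C a => rw [BZ1_C, Polynomial.eval_C, MvPolynomial.aeval_C, MvPolynomial.algebraMap_eq]
  | add p q hp hq => rw [map_add, Polynomial.eval_add, map_add, hp, hq]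
  | mul_X p v hp =>
    have h1 : Polynomial.eval 1 (sub x y e (MvPolynomial.X v)) =
        MvPolynomial.C (x v) + MvPolynomial.X v + MvPolynomial.C (y v) := by
      rw [BZ1_X, Polynomial.eval_add, Polynomial.eval_add, Polynomial.eval_mul,
        Polynomial.eval_mul, Polynomial.eval_C, Polynomial.eval_C, Polynomial.eval_C,
        Polynomial.eval_pow, Polynomial.eval_X, one_pow, mul_one, mul_one]
    have h2 : MvPolynomial.aeval
        (fun v => (MvPolynomial.X v - MvPolynomial.C (x v + y v) : SS V))
        (MvPolynomial.C (x v) + MvPolynomial.X v + MvPolynomial.C (y v) : SS V) =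
        MvPolynomial.X v := by
      rw [map_add, map_add, MvPolynomial.aeval_C, MvPolynomial.aeval_C, MvPolynomial.aeval_X,
        MvPolynomial.algebraMap_eq, MvPolynomial.C_add]
      ring
    rw [map_mul, Polynomial.eval_mul, map_mul, hp, h1, h2]

/-- the substitution is injective -/
theorem BZ1_inj {V : Type} (x y : V → ℂ) (e : V → ℕ) (f : SS V) (h : sub x y e f = 0) : f = 0 := by
  have h2 := BZ1_left x y e f
  rw [h, Polynomial.eval_zero, map_zero] at h2
  exact h2.symm

theorem p_BZ1 (hCOP : Stmt_COP) : Stmt_BZ1 := by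
  classical
  intro V f g x y e hf hfg
  let K := FractionRing (SS V)
  let φ : Polynomial (SS V) →+* Polynomial K := Polynomial.mapRingHom (algebraMap (SS V) K)
  have hφ : ∀ p, φ p = p.map (algebraMap (SS V) K) := fun p => rfl
  have hKinj : Function.Injective (algebraMap (SS V) K) := IsFractionRing.injective (SS V) K
  have hφinj : Function.Injective φ := Polynomial.map_injective _ hKinj
  have hs0 : sub x y e f ≠ 0 := fun h => hf (BZ1_inj x y e f h)
  have hF0 : φ (sub x y e f) ≠ 0 := fun h => hs0 (hφinj (by rw [h, map_zero]))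
  set h := EuclideanDomain.gcd (φ (sub x y e f)) (φ (sub x y e g)) with hh
  have hd1 : h ∣ φ (sub x y e f) := EuclideanDomain.gcd_dvd_left _ _
  have hd2 : h ∣ φ (sub x y e g) := EuclideanDomain.gcd_dvd_right _ _
  have h0 : h ≠ 0 := by
    rintro h1
    rw [h1] at hd1
    exact hF0 (zero_dvd_iff.1 hd1)
  obtain ⟨n, s, hs⟩ := BZ1_pow h (Polynomial.X : Polynomial K) h0 (by
    intro P hP hPh
    obtain ⟨P₀, hP₀, hass, hdv⟩ := BZ1_desc (D := SS V) (K := K) P hP.irreducible
    have h1 := hdv _ (hPh.trans hd1)
    have h2 := hdv _ (hPh.trans hd2)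
    have h3 := hCOP V f g x y e hf hfg P₀ hP₀ h1 h2
    have h4 : P₀.map (algebraMap (SS V) K) ∣ (Polynomial.X : Polynomial (SS V)).map
        (algebraMap (SS V) K) := Polynomial.map_dvd _ h3
    rw [Polynomial.map_X] at h4
    exact hass.symm.dvd.trans h4)
  have hbez := EuclideanDomain.gcd_eq_gcd_ab (φ (sub x y e f)) (φ (sub x y e g))
  rw [← hh] at hbez
  set A := EuclideanDomain.gcdA (φ (sub x y e f)) (φ (sub x y e g)) * s with hA
  set B := EuclideanDomain.gcdB (φ (sub x y e f)) (φ (sub x y e g)) * s with hB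
  have hX : (Polynomial.X : Polynomial K) ^ n =
      φ (sub x y e f) * A + φ (sub x y e g) * B := by
    rw [hs, hA, hB, hbez]; ring
  obtain ⟨b1, hb1, hb1'⟩ := IsLocalization.integerNormalization_spec (SS V)⁰ A
  obtain ⟨b2, hb2, hb2'⟩ := IsLocalization.integerNormalization_spec (SS V)⁰ B
  refine ⟨b1 * b2, n, Polynomial.C b2 * IsLocalization.integerNormalization (SS V)⁰ A,
    Polynomial.C b1 * IsLocalization.integerNormalization (SS V)⁰ B,
    mul_ne_zero (nonZeroDivisors.ne_zero hb1) (nonZeroDivisors.ne_zero hb2), ?_⟩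
  apply hφinj
  have hC : ∀ (b : SS V) (Q : Polynomial K), b • Q = φ (Polynomial.C b) * Q := by
    intro b Q
    rw [hφ, Polynomial.map_C, Algebra.smul_def,
      IsScalarTower.algebraMap_apply (SS V) K (Polynomial K), Polynomial.algebraMap_eq]
  rw [hC] at hb1' hb2'
  rw [map_add, map_mul, map_mul, map_mul, map_mul, map_mul φ (Polynomial.C (b1 * b2)), hφ
    (IsLocalization.integerNormalization (SS V)⁰ A), hb1', hφ
    (IsLocalization.integerNormalization (SS V)⁰ B), hb2', map_pow, hφ Polynomial.X,
    Polynomial.map_X, hX, map_mul Polynomial.C, map_mul φ (Polynomial.C b1)]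
  ring

end Pool.GQ
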