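import Pool.Agent.Work.MP_dcf6a6_gq.Interface

/-!
# CNJ: the product of the conjugates of a prime
-/

open MvPolynomial

namespace Pool.GQ

noncomputable section

attribute [local instance] MvPolynomial.weightedGradedAlgebra

/-- components of a multiple of a homogeneous polynomial -/
theorem CNJ_comp {V : Type} (w : V → ℕ) (q M : SS V) (m n : ℕ)
    (hq : q.IsWeightedHomogeneous w m) (h : q ∣ M) :
    q ∣ weightedHomogeneousComponent w n M := by
  classical
  have hI : (Ideal.span {q} : Ideal (SS V)).IsHomogeneous (weightedHomogeneousSubmodule ℂ w) := by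
    apply Ideal.homogeneous_span
    intro x hx
    rw [Set.mem_singleton_iff] at hx
    subst hx
    exact ⟨m, (mem_weightedHomogeneousSubmodule ℂ w m x).2 hq⟩
  have h1 := weightedHomogeneousComponent_mem_of_mem ℂ w hI (Ideal.mem_span_singleton.2 h) n
  exact Ideal.mem_span_singleton.1 h1

/-- some component of a nonzero polynomial is nonzero -/
theorem CNJ_ne {V : Type} (w : V → ℕ) (M : SS V) (hM : M ≠ 0) :
    ∃ n, weightedHomogeneousComponent w n M ≠ 0 := by
  classical
  by_contra hcon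
  push Not at hcon
  apply hM
  ext d
  have h1 := congrArg (coeff d) (hcon (Finsupp.weight w d))
  rw [coeff_weightedHomogeneousComponent, if_pos rfl] at h1
  exact h1

/-- a nonzero polynomial of degree 0 is a nonzero constant -/
theorem CNJ_const {V : Type} (p : SS V) (hp : p ≠ 0) (h : p.totalDegree = 0) :
    ∃ c : ℂ, c ≠ 0 ∧ p = C c := by
  have h1 := totalDegree_eq_zero_iff_eq_C.1 h
  refine ⟨coeff 0 p, ?_, h1⟩
  intro h2
  rw [h2, C_0] at h1
  exact hp h1

theorem p_CNJ (hHOF : Stmt_HOF) : Stmt_CNJ := by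
  classical
  intro V w G _ ρ hact q a hq hqh ha hinv hqa
  obtain ⟨k, hk⟩ := hqh
  -- the composition of the action
  have hmul : ∀ (g h : G) (P : SS V), ρ (g * h) P = ρ g (ρ h P) := by
    intro g h P
    rw [map_mul]
    rfl
  have hinvl : ∀ (g : G) (P : SS V), ρ g⁻¹ (ρ g P) = P := by
    intro g P
    rw [← hmul, inv_mul_cancel, map_one]
    rfl
  have hinvr : ∀ (g : G) (P : SS V), ρ g (ρ g⁻¹ P) = P := by
    intro g P
    rw [← hmul, mul_inv_cancel, map_one]
    rfl
  have hdvd : ∀ (g : G) (P Q : SS V), P ∣ Q → ρ g P ∣ ρ g Q := by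
    intro g P Q h
    exact map_dvd (ρ g) h
  have hne : ∀ (g : G) (P : SS V), P ≠ 0 → ρ g P ≠ 0 := by
    intro g P h h0
    apply h
    have := hinvl g P
    rw [h0, map_zero] at this
    exact this.symm
  -- an element of least total degree
  have hex : ∃ n : ℕ, ∃ s : SS V, s ≠ 0 ∧ (∀ g, ρ g q ∣ s) ∧ s.totalDegree = n := by
    refine ⟨a.totalDegree, a, ha, ?_, rfl⟩
    intro g
    rw [← hinv g]
    exact hdvd g _ _ hqa
  obtain ⟨M, hM0, hMI, hMd⟩ := Nat.find_spec hex
  have hmin : ∀ s : SS V, s ≠ 0 → (∀ g, ρ g q ∣ s) → M.totalDegree ≤ s.totalDegree := by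
    intro s hs0 hs
    rw [hMd]
    exact Nat.find_min' hex ⟨s, hs0, hs, rfl⟩
  -- (1)
  have h1 : ∀ s : SS V, (∀ g, ρ g q ∣ s) → M ∣ s := by
    intro s hs
    let _ : GCDMonoid (SS V) := UniqueFactorizationMonoid.toGCDMonoid (SS V)
    obtain ⟨d', hd'⟩ : gcd M s ∣ M := gcd_dvd_left M s
    have hd0 : gcd M s ≠ 0 := by
      intro h0
      rw [h0, zero_mul] at hd'
      exact hM0 hd'
    have hd'0 : d' ≠ 0 := by
      intro h0
      rw [h0, mul_zero] at hd'
      exact hM0 hd'
    have h2 := hmin (gcd M s) hd0 (fun g => dvd_gcd (hMI g) (hs g))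
    have h3 : M.totalDegree = (gcd M s).totalDegree + d'.totalDegree := by
      conv_lhs => rw [hd']
      exact totalDegree_mul_of_isDomain hd0 hd'0
    obtain ⟨c, hc, hcd⟩ := CNJ_const d' hd'0 (by omega)
    have hu : IsUnit d' := by
      rw [hcd]
      exact (IsUnit.mk0 c hc).map C
    have h4 : M ∣ gcd M s := by
      conv_lhs => rw [hd']
      exact hu.mul_right_dvd.2 dvd_rfl
    exact h4.trans (gcd_dvd_right M s)
  -- (2)
  have hMg : ∀ g h, ρ h q ∣ ρ g M := by
    intro g h
    have h2 := hdvd g _ _ (hMI (g⁻¹ * h))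
    rw [← hmul, mul_inv_cancel_left] at h2
    exact h2
  have h2 : ∀ g, ∃ z : ℂ, z ≠ 0 ∧ ρ g M = z • M := by
    intro g
    obtain ⟨u, hu⟩ := h1 (ρ g M) (hMg g)
    have h3 : ρ g M ∣ M := by
      have h4 := hdvd g _ _ (h1 (ρ g⁻¹ M) (hMg g⁻¹))
      rw [hinvr] at h4
      exact h4
    have hgM0 := hne g M hM0
    have hu0 : u ≠ 0 := by
      intro h0
      rw [h0, mul_zero] at hu
      exact hgM0 hu
    have h5 := totalDegree_le_of_dvd_of_isDomain h3 hM0
    have h6 : (ρ g M).totalDegree = M.totalDegree + u.totalDegree := by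
      rw [hu]
      exact totalDegree_mul_of_isDomain hM0 hu0
    obtain ⟨c, hc, hcd⟩ := CNJ_const u hu0 (by omega)
    refine ⟨c, hc, ?_⟩
    rw [hu, hcd, mul_comm, ← MvPolynomial.smul_eq_C_mul]
  choose χ hχ using h2
  have hqM : q ∣ M := by
    have h3 := hMI 1
    rw [map_one] at h3
    exact h3
  refine ⟨M, χ, hM0, ?_, hχ, hqM, ?_, ?_⟩
  · obtain ⟨n, hn⟩ := CNJ_ne w M hM0
    have h3 : M ∣ weightedHomogeneousComponent w n M :=
      h1 _ (fun g => CNJ_comp w _ M k n (hact g k q hk) (hMI g))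
    exact hHOF V w _ M n hn 
      ((mem_weightedHomogeneousSubmodule ℂ w n _).1 (weightedHomogeneousComponent_mem w M n)) h3
  · rintro ⟨r, hr⟩
    have hr' : M = q * (q * r) := by rw [hr]; ring
    have hqr0 : q * r ≠ 0 := by
      intro h0
      rw [h0, mul_zero] at hr'
      exact hM0 hr'
    have h3 : ∀ g, ρ g q ∣ q * r := by
      intro g
      have hp : Prime (ρ g q) := (MulEquiv.prime_iff (ρ g)).2 hq
      have h4 := hMI g
      rw [hr'] at h4
      rcases hp.dvd_or_dvd h4 with h5 | h5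
      · exact h5.mul_right r
      · exact h5
    have h4 := hmin _ hqr0 h3
    have h5 : M.totalDegree = q.totalDegree + (q * r).totalDegree := by
      conv_lhs => rw [hr']
      exact totalDegree_mul_of_isDomain hq.ne_zero hqr0
    obtain ⟨c, hc, hcd⟩ := CNJ_const q hq.ne_zero (by omega)
    apply hq.not_isUnit
    rw [hcd]
    exact (IsUnit.mk0 c hc).map C
  · intro p hp hqp
    apply h1
    intro g
    obtain ⟨z, hz, hzp⟩ := hp g
    have h3 := hdvd g _ _ hqp
    rw [hzp, MvPolynomial.smul_eq_C_mul] at h3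
    have hu : IsUnit (C z : SS V) := (IsUnit.mk0 z hz).map C
    exact hu.dvd_mul_left.1 h3

end

end Pool.GQ
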