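import Pool.Agent.Work.MP_dcf6a6_gq.Interface

/-!
# Block COP: common prime factors on the curve

`σ : (SS V)[u] → (SS V)[u]` is the endomorphism `X_v ↦ x_v + X_v u + y_v u ^ (e v)`, `u ↦ u`.  It is
injective (evaluate `u` at nonzero constants) and every `p` becomes an image after multiplication by
a power of `u`.
-/

namespace Pool.GQ

noncomputable section

open Polynomial

/-- the endomorphism of `(SS V)[u]` which extends `sub` -/
def COP_s {V : Type} (x y : V → ℂ) (e : V → ℕ) : Polynomial (SS V) →+* Polynomial (SS V) :=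
  Polynomial.eval₂RingHom (sub x y e : SS V →+* Polynomial (SS V)) Polynomial.X

theorem COP_s_C {V : Type} (x y : V → ℂ) (e : V → ℕ) (F : SS V) :
    COP_s x y e (C F) = sub x y e F := by
  simp [COP_s]

theorem COP_s_X {V : Type} (x y : V → ℂ) (e : V → ℕ) : COP_s x y e X = X := by
  simp [COP_s]

theorem COP_sub_C {V : Type} (x y : V → ℂ) (e : V → ℕ) (z : ℂ) :
    sub x y e (MvPolynomial.C z) = C (MvPolynomial.C z) := by
  rw [sub, MvPolynomial.aeval_C, Polynomial.algebraMap_apply, MvPolynomial.algebraMap_eq]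

theorem COP_sub_X {V : Type} (x y : V → ℂ) (e : V → ℕ) (v : V) :
    sub x y e (MvPolynomial.X v) = C (MvPolynomial.C (x v)) + C (MvPolynomial.X v) * X +
      C (MvPolynomial.C (y v)) * X ^ e v := by
  rw [sub, MvPolynomial.aeval_X]

/-- denominators -/
def COP_Clr {V : Type} (x y : V → ℂ) (e : V → ℕ) (p : Polynomial (SS V)) : Prop :=
  ∃ (N : ℕ) (p' : Polynomial (SS V)), COP_s x y e p' = X ^ N * p

theorem COP_add {V : Type} {x y : V → ℂ} {e : V → ℕ} {p q : Polynomial (SS V)}
    (hp : COP_Clr x y e p) (hq : COP_Clr x y e q) : COP_Clr x y e (p + q) := by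
  obtain ⟨N, p', hp'⟩ := hp
  obtain ⟨M, q', hq'⟩ := hq
  refine ⟨N + M, X ^ M * p' + X ^ N * q', ?_⟩
  rw [map_add, map_mul, map_mul, map_pow, map_pow, COP_s_X, hp', hq']
  ring

theorem COP_mul {V : Type} {x y : V → ℂ} {e : V → ℕ} {p q : Polynomial (SS V)}
    (hp : COP_Clr x y e p) (hq : COP_Clr x y e q) : COP_Clr x y e (p * q) := by
  obtain ⟨N, p', hp'⟩ := hp
  obtain ⟨M, q', hq'⟩ := hq
  refine ⟨N + M, p' * q', ?_⟩
  rw [map_mul, hp', hq']
  ring

theorem COP_cX {V : Type} (x y : V → ℂ) (e : V → ℕ) (n : ℕ) : COP_Clr x y e (X ^ n) :=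
  ⟨0, X ^ n, by rw [map_pow, COP_s_X, pow_zero, one_mul]⟩

theorem COP_cC {V : Type} (x y : V → ℂ) (e : V → ℕ) (F : SS V) : COP_Clr x y e (C F) := by
  induction F using MvPolynomial.induction_on with
  | C z => exact ⟨0, C (MvPolynomial.C z), by rw [COP_s_C, COP_sub_C, pow_zero, one_mul]⟩
  | add p q hp hq =>
    rw [C_add]
    exact COP_add hp hq
  | mul_X p v hp =>
    rw [C_mul]
    refine COP_mul hp ⟨1, C (MvPolynomial.X v) - C (MvPolynomial.C (x v)) -
      C (MvPolynomial.C (y v)) * X ^ e v, ?_⟩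
    rw [map_sub, map_sub, map_mul, map_pow, COP_s_X, COP_s_C, COP_s_C, COP_s_C, COP_sub_X,
      COP_sub_C, COP_sub_C]
    ring

theorem COP_clear {V : Type} (x y : V → ℂ) (e : V → ℕ) (p : Polynomial (SS V)) :
    COP_Clr x y e p := by
  induction p using Polynomial.induction_on' with
  | add p q hp hq => exact COP_add hp hq
  | monomial n a =>
    rw [← Polynomial.C_mul_X_pow_eq_monomial]
    exact COP_mul (COP_cC x y e a) (COP_cX x y e n)

theorem COP_inj {V : Type} (x y : V → ℂ) (e : V → ℕ) (h : Polynomial (SS V))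
    (hh : COP_s x y e h = 0) : h = 0 := by
  have key : ∀ z : ℂ, z ≠ 0 → h.eval (MvPolynomial.C z) = 0 := by
    intro z hz
    let β : SS V →ₐ[ℂ] SS V := MvPolynomial.aeval fun v => MvPolynomial.C z⁻¹ *
      (MvPolynomial.X v - MvPolynomial.C (x v) - MvPolynomial.C (y v) * MvPolynomial.C z ^ e v)
    have hz1 : (MvPolynomial.C z : SS V) * MvPolynomial.C z⁻¹ = 1 := by
      rw [← MvPolynomial.C_mul, mul_inv_cancel₀ hz, MvPolynomial.C_1]
    have hβC : ∀ w : ℂ, β (MvPolynomial.C w) = MvPolynomial.C w := fun w => by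
      simp only [β, MvPolynomial.aeval_C, MvPolynomial.algebraMap_eq]
    have hβX : ∀ v, β (MvPolynomial.X v) = MvPolynomial.C z⁻¹ *
        (MvPolynomial.X v - MvPolynomial.C (x v) - MvPolynomial.C (y v) *
          MvPolynomial.C z ^ e v) := fun v => by
      simp only [β, MvPolynomial.aeval_X]
    have hcomp : ((β : SS V →+* SS V).comp
        ((Polynomial.evalRingHom (MvPolynomial.C z)).comp (COP_s x y e))) =
        Polynomial.evalRingHom (MvPolynomial.C z) := by
      refine Polynomial.ringHom_ext' ?_ ?_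
      · refine MvPolynomial.ringHom_ext (fun w => ?_) (fun v => ?_)
        · simp only [RingHom.comp_apply, COP_s_C, COP_sub_C, Polynomial.coe_evalRingHom,
            Polynomial.eval_C, RingHom.coe_coe, hβC]
        · simp only [RingHom.comp_apply, COP_s_C, COP_sub_X, Polynomial.coe_evalRingHom,
            Polynomial.eval_C, RingHom.coe_coe, Polynomial.eval_add, Polynomial.eval_mul,
            Polynomial.eval_X, Polynomial.eval_pow, map_add, map_mul, map_pow, hβC, hβX]
          linear_combination (MvPolynomial.X v - MvPolynomial.C (x v) - MvPolynomial.C (y v) *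
            MvPolynomial.C z ^ e v) * hz1
      · simp only [RingHom.comp_apply, COP_s_X, Polynomial.coe_evalRingHom,
            Polynomial.eval_X, RingHom.coe_coe, hβC]
    have h1 := congrArg (fun φ : Polynomial (SS V) →+* SS V => φ h) hcomp
    simp only [RingHom.comp_apply, hh, map_zero, Polynomial.coe_evalRingHom] at h1
    exact h1.symm
  refine Polynomial.eq_zero_of_infinite_isRoot h ?_
  have h2 : ((fun z : ℂ => (MvPolynomial.C z : SS V)) '' {z | z ≠ 0}).Infinite := by
    refine Set.Infinite.image (fun a _ b _ hab => MvPolynomial.C_injective V ℂ hab) ?_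
    exact Set.Finite.infinite_compl (Set.finite_singleton (0 : ℂ))
  refine h2.mono ?_
  rintro _ ⟨z, hz, rfl⟩
  exact key z hz

theorem p_COP : Stmt_COP := by
  intro V f g x y e hf hfg p hp hpf hpg
  obtain ⟨s, hs⟩ := hpf
  obtain ⟨t, ht⟩ := hpg
  obtain ⟨a, p', hp'⟩ := COP_clear x y e p
  obtain ⟨b, s', hs'⟩ := COP_clear x y e s
  obtain ⟨c, t', ht'⟩ := COP_clear x y e t
  have hXp : Prime (X : Polynomial (SS V)) := Polynomial.prime_X
  have inj : ∀ h k : Polynomial (SS V), COP_s x y e h = COP_s x y e k → h = k := by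
    intro h k hk
    have := COP_inj x y e (h - k) (by rw [map_sub, hk, sub_self])
    exact sub_eq_zero.1 this
  have e1 : p' * s' = X ^ (a + b) * C f := by
    apply inj
    rw [map_mul, map_mul, map_pow, COP_s_X, COP_s_C, hp', hs', hs]
    ring
  have e2 : p' * t' = X ^ (a + c) * C g := by
    apply inj
    rw [map_mul, map_mul, map_pow, COP_s_X, COP_s_C, hp', ht', ht]
    ring
  have hp0 : p' ≠ 0 := by
    rintro rfl
    rw [map_zero] at hp'
    rcases mul_eq_zero.1 hp'.symm with h | h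
    · exact pow_ne_zero _ hXp.ne_zero h
    · exact hp.ne_zero h
  obtain ⟨i, p'', hnd, hi⟩ : ∃ (i : ℕ) (p'' : Polynomial (SS V)), ¬ X ∣ p'' ∧ p' = X ^ i * p'' := by
    have hfin : FiniteMultiplicity (X : Polynomial (SS V)) p' :=
      FiniteMultiplicity.of_prime_left hXp hp0
    obtain ⟨c, hc, hc'⟩ := hfin.exists_eq_pow_mul_and_not_dvd
    exact ⟨_, c, hc', hc⟩
  have hdiv : ∀ (n : ℕ) (F : SS V) (r : Polynomial (SS V)), p' * r = X ^ n * C F → p'' ∣ C F := by
    intro n F r hr
    have h1 : p'' ∣ X ^ n * C F := ⟨X ^ i * r, by rw [← hr, hi]; ring⟩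
    obtain ⟨w, hw⟩ := h1
    have h2 : X ^ n ∣ p'' * w := ⟨C F, hw.symm⟩
    have h3 : X ^ n ∣ w := hXp.pow_dvd_of_dvd_mul_left n hnd h2
    obtain ⟨w', rfl⟩ := h3
    refine ⟨w', ?_⟩
    have h4 : (X : Polynomial (SS V)) ^ n * C F = X ^ n * (p'' * w') := by rw [hw]; ring
    exact mul_left_cancel₀ (pow_ne_zero _ hXp.ne_zero) h4
  have hd1 := hdiv _ _ _ e1
  have hd2 := hdiv _ _ _ e2
  have hCf : (C f : Polynomial (SS V)) ≠ 0 := by
    rw [Ne, Polynomial.C_eq_zero]
    exact hf
  have hdeg : p''.natDegree = 0 := by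
    have := Polynomial.natDegree_le_of_dvd hd1 hCf
    rw [Polynomial.natDegree_C] at this
    omega
  obtain ⟨r, hr⟩ : ∃ r : SS V, p'' = C r := ⟨_, Polynomial.eq_C_of_natDegree_eq_zero hdeg⟩
  rw [hr] at hd1 hd2
  have hrf : r ∣ f := (Polynomial.C_dvd_iff_dvd_coeff _ _).1 hd1 0 |>.trans (by simp)
  have hrg : r ∣ g := (Polynomial.C_dvd_iff_dvd_coeff _ _).1 hd2 0 |>.trans (by simp)
  have hr0 : r ≠ 0 := by
    rintro rfl
    exact hf (zero_dvd_iff.1 hrf)
  have hunit : IsUnit r := by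
    by_contra hu
    obtain ⟨q, hq, hqr⟩ := WfDvdMonoid.exists_irreducible_factor hu hr0
    exact hfg q hq.prime ⟨hqr.trans hrf, hqr.trans hrg⟩
  have h5 : X ^ a * p = X ^ i * sub x y e r := by
    rw [← hp', hi, hr, map_mul, map_pow, COP_s_X, COP_s_C]
  have h6 : p ∣ X ^ i * sub x y e r := ⟨X ^ a, by rw [← h5]; ring⟩
  have h7 : IsUnit (sub x y e r) := hunit.map (sub x y e)
  have h8 : p ∣ X ^ i := (IsUnit.dvd_mul_right h7).1 h6
  exact hp.dvd_of_dvd_pow h8

end

end Pool.GQ
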