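import Pool.Agent.Work.MP_dcf6a6_gq.Interface

/-!
# Block CRV (helper87): the curve as a homomorphism
-/

open CategoryTheory AlgebraicGeometry Pool.TVar

namespace Pool.GQ

noncomputable section

/-- the images of the variables -/
def CRV_g {V : Type} (w : V → ℕ) (x y c : V → ℂ) (v : V) : MvPolynomial (Fin 2) ℂ :=
  MvPolynomial.C (x v) * MvPolynomial.X 1 ^ (2 * w v) +
    MvPolynomial.C (c v) * (MvPolynomial.X 0 * MvPolynomial.X 1 ^ (2 * w v - 1)) +
    MvPolynomial.C (y v) * MvPolynomial.X 0 ^ (2 * w v)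

theorem CRV_hom {V : Type} (w : V → ℕ) (hw : ∀ v, 0 < w v) (x y c : V → ℂ) (v : V) :
    (CRV_g w x y c v).IsHomogeneous (2 * w v) := by
  have hX : ∀ (i : Fin 2) (n : ℕ), (MvPolynomial.X i ^ n : MvPolynomial (Fin 2) ℂ).IsHomogeneous n :=
    fun i n => MvPolynomial.isHomogeneous_X_pow _ _
  have hC : ∀ (a : ℂ) (P : MvPolynomial (Fin 2) ℂ) (n : ℕ), P.IsHomogeneous n →
      (MvPolynomial.C a * P).IsHomogeneous n := by
    intro a P n hP
    have := (MvPolynomial.isHomogeneous_C (Fin 2) a).mul hP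
    simpa using this
  refine ((hC _ _ _ (hX 1 _)).add (hC _ _ _ ?_)).add (hC _ _ _ (hX 0 _))
  have h1 := (MvPolynomial.isHomogeneous_X ℂ (0 : Fin 2)).mul (hX 1 (2 * w v - 1))
  have h2 : 1 + (2 * w v - 1) = 2 * w v := by
    have := hw v
    omega
  rw [h2] at h1
  exact h1

theorem CRV_deg {V : Type} (w : V → ℕ) (hw : ∀ v, 0 < w v) (x y c : V → ℂ) (P : SS V) (n : ℕ)
    (hP : P.IsWeightedHomogeneous w n) :
    (MvPolynomial.aeval (CRV_g w x y c) P : MvPolynomial (Fin 2) ℂ).IsHomogeneous (2 * n) := by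
  rw [MvPolynomial.aeval_def, MvPolynomial.eval₂_eq]
  apply MvPolynomial.IsHomogeneous.sum
  intro d hd
  have hdw : Finsupp.weight w d = n := hP (MvPolynomial.mem_support_iff.mp hd)
  have h1 : (∏ i ∈ d.support, CRV_g w x y c i ^ d i).IsHomogeneous
      (∑ i ∈ d.support, (2 * w i) * d i) := by
    apply MvPolynomial.IsHomogeneous.prod
    intro i _
    exact (CRV_hom w hw x y c i).pow (d i)
  have h2 : ∑ i ∈ d.support, (2 * w i) * d i = 2 * n := by
    rw [← hdw, Finsupp.weight_apply, Finsupp.sum, Finset.mul_sum]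
    refine Finset.sum_congr rfl fun i _ => ?_
    rw [smul_eq_mul]
    ring
  rw [h2] at h1
  have h3 := (MvPolynomial.isHomogeneous_C (Fin 2) (MvPolynomial.coeff d P)).mul h1
  rw [zero_add] at h3
  exact h3

theorem CRV_eval {V : Type} (w : V → ℕ) (x y c : V → ℂ) (P : SS V) (s : Fin 2 → ℂ) :
    MvPolynomial.eval s (MvPolynomial.aeval (CRV_g w x y c) P) =
      MvPolynomial.eval (fun v => MvPolynomial.eval s (CRV_g w x y c v)) P := by
  induction P using MvPolynomial.induction_on with
  | C a => simp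
  | add p q hp hq => simp only [map_add, hp, hq]
  | mul_X p n hp => simp only [map_mul, hp, MvPolynomial.aeval_X, MvPolynomial.eval_X]

/-- scaling -/
theorem CRV_scale (F : MvPolynomial (Fin 2) ℂ) (m : ℕ) (hF : F.IsHomogeneous m) (r : ℂ)
    (s : Fin 2 → ℂ) :
    MvPolynomial.eval (fun i => r * s i) F = r ^ m * MvPolynomial.eval s F := by
  rw [MvPolynomial.eval_eq, MvPolynomial.eval_eq, Finset.mul_sum]
  refine Finset.sum_congr rfl fun d hd => ?_
  have h1 : d.degree = m := by
    by_contra h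
    exact (MvPolynomial.mem_support_iff.1 hd) (hF.coeff_eq_zero h)
  have h2 : ∏ i ∈ d.support, (r * s i) ^ d i = r ^ m * ∏ i ∈ d.support, s i ^ d i := by
    simp_rw [mul_pow]
    rw [Finset.prod_mul_distrib, Finset.prod_pow_eq_pow_sum, ← h1]
    rfl
  rw [h2]; ring

theorem p_CRV (hBEZ : Stmt_BEZ) (hPTQ : Stmt_PTQ) : Stmt_CRV := by
  intro V w f g x y D hw hf hg hfx hfy hfg
  have hf0 : f ≠ 0 := by
    rintro rfl
    exact hfx (map_zero _)
  obtain ⟨c, hc⟩ := hBEZ V f g x y (fun v => 2 * w v) hf0 hfg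
  have h01 : ∀ v, MvPolynomial.eval ![0, 1] (CRV_g w x y c v) = x v := by
    intro v
    have h1 : 2 * w v ≠ 0 := by have := hw v; omega
    simp only [CRV_g, map_add, map_mul, map_pow, MvPolynomial.eval_C, MvPolynomial.eval_X,
      Matrix.cons_val_zero, Matrix.cons_val_one]
    rw [zero_pow h1]
    ring
  have h10 : ∀ v, MvPolynomial.eval ![1, 0] (CRV_g w x y c v) = y v := by
    intro v
    have h1 : 2 * w v ≠ 0 := by have := hw v; omega
    have h2 : 2 * w v - 1 ≠ 0 := by have := hw v; omega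
    simp only [CRV_g, map_add, map_mul, map_pow, MvPolynomial.eval_C, MvPolynomial.eval_X,
      Matrix.cons_val_zero, Matrix.cons_val_one]
    rw [zero_pow h1, zero_pow h2]
    ring
  have hu1 : ∀ (u : ℂ) (v : V), MvPolynomial.eval ![u, 1] (CRV_g w x y c v) =
      x v + c v * u + y v * u ^ (2 * w v) := by
    intro u v
    simp [CRV_g]
  have e01 : ∀ P, MvPolynomial.eval ![0, 1] (MvPolynomial.aeval (CRV_g w x y c) P) =
      MvPolynomial.eval x P := by
    intro P
    rw [CRV_eval]
    congr 2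
    exact funext h01
  have e10 : ∀ P, MvPolynomial.eval ![1, 0] (MvPolynomial.aeval (CRV_g w x y c) P) =
      MvPolynomial.eval y P := by
    intro P
    rw [CRV_eval]
    congr 2
    exact funext h10
  refine ⟨MvPolynomial.aeval (CRV_g w x y c), fun P n hP => CRV_deg w hw x y c P n hP, e01, e10, ?_⟩
  intro q
  by_contra hno
  push Not at hno
  obtain ⟨hq1, hq2⟩ := hno
  have hF := CRV_deg w hw x y c f D hf
  have hG := CRV_deg w hw x y c g D hg
  have hF0 : (MvPolynomial.aeval (CRV_g w x y c) f : MvPolynomial (Fin 2) ℂ) ≠ 0 := by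
    intro h
    apply hfx
    rw [← e01, h, map_zero]
  obtain ⟨z, hz, hz1, hz2⟩ := hPTQ q (2 * D) (2 * D) _ _ hF hG hF0 hq1 hq2
  by_cases ht : z 1 = 0
  · have hs : z 0 ≠ 0 := by
      intro hs
      apply hz
      funext i
      fin_cases i
      · exact hs
      · exact ht
    have h1 : z = fun i => z 0 * (![1, 0] : Fin 2 → ℂ) i := by
      funext i
      fin_cases i
      · simp
      · simp [ht]
    rw [h1, CRV_scale _ _ hF, e10] at hz1
    exact mul_ne_zero (pow_ne_zero _ hs) hfy hz1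
  · by_cases hs : z 0 = 0
    · have h1 : z = fun i => z 1 * (![0, 1] : Fin 2 → ℂ) i := by
        funext i
        fin_cases i
        · simp [hs]
        · simp
      rw [h1, CRV_scale _ _ hF, e01] at hz1
      exact mul_ne_zero (pow_ne_zero _ ht) hfx hz1
    · have h1 : z = fun i => z 1 * (![z 0 / z 1, 1] : Fin 2 → ℂ) i := by
        funext i
        fin_cases i
        · simp
          field_simp
        · simp
      rw [h1, CRV_scale _ _ hF, CRV_eval] at hz1
      rw [h1, CRV_scale _ _ hG, CRV_eval] at hz2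
      have h2 : (fun v => MvPolynomial.eval ![z 0 / z 1, 1] (CRV_g w x y c v)) =
          fun v => x v + c v * (z 0 / z 1) + y v * (z 0 / z 1) ^ (2 * w v) :=
        funext fun v => hu1 _ v
      rw [h2] at hz1 hz2
      refine hc (z 0 / z 1) (div_ne_zero hs ht) ⟨?_, ?_⟩
      · rcases mul_eq_zero.mp hz1 with h | h
        · exact absurd h (pow_ne_zero _ ht)
        · exact h
      · rcases mul_eq_zero.mp hz2 with h | h
        · exact absurd h (pow_ne_zero _ ht)
        · exact h

end

end Pool.GQ
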