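import Pool.Agent.Work.MP_dcf6a6_gq.Interface

/-!
# Block DG0: the elements of degree zero are the constants
-/

open CategoryTheory AlgebraicGeometry Pool.TVar

namespace Pool.GQ

noncomputable section

theorem DG0_const {V : Type} (w : V → ℕ) (hw : ∀ v, 0 < w v) (P : SS V)
    (hP : P.IsWeightedHomogeneous w 0) : ∃ z : ℂ, P = MvPolynomial.C z := by
  classical
  refine ⟨MvPolynomial.coeff 0 P, ?_⟩
  apply MvPolynomial.ext
  intro d
  rw [MvPolynomial.coeff_C]
  split_ifs with h
  · rw [h]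
  · by_contra hd
    have h1 := hP hd
    apply h
    rw [Finsupp.weight_apply, Finsupp.sum] at h1
    have h2 := Finset.sum_eq_zero_iff.1 h1
    symm
    apply Finsupp.ext
    intro v
    by_contra hv
    have h3 := h2 v (Finsupp.mem_support_iff.2 hv)
    rw [smul_eq_mul, Nat.mul_eq_zero] at h3
    rcases h3 with h3 | h3
    · exact hv h3
    · exact absurd h3 (hw v).ne'

theorem p_DG0 : Stmt_DG0 := by
  intro V w A _ _ 𝒜 _ E a ha
  have h1 := E.graded 0 a ha
  rw [Nat.mul_zero] at h1
  obtain ⟨z, hz⟩ := DG0_const w E.w_pos (E.φ a) h1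
  refine ⟨z, E.inj ?_⟩
  rw [hz, AlgHom.commutes]
  rfl

end

end Pool.GQ
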