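import Pool.Agent.Work.MP_dcf6a6_gq.Interface

/-!
# Block DM1: if the irrelevant ideal had height one
-/

open CategoryTheory AlgebraicGeometry Pool.TVar

namespace Pool.GQ

noncomputable section

theorem DM1_le {A : Type} [CommRing A] [IsDomain A] [Algebra ℂ A]
    (𝒜 : ℕ → Submodule ℂ A) [GradedAlgebra 𝒜] (h0 : ∀ a ∈ 𝒜 0, ∃ z : ℂ, a = algebraMap ℂ A z)
    (P : Ideal A) (hp : ∀ n, 0 < n → ∀ a ∈ 𝒜 n, a ∈ P) (J : Ideal A) (hJ : J.IsHomogeneous 𝒜)
    (hJt : J ≠ ⊤) : J ≤ P := by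
  classical
  intro a ha
  rw [← DirectSum.sum_support_decompose 𝒜 a]
  apply Ideal.sum_mem
  intro i _
  have hi : (DirectSum.decompose 𝒜 a i : A) ∈ J := hJ i ha
  have hi' : (DirectSum.decompose 𝒜 a i : A) ∈ 𝒜 i := (DirectSum.decompose 𝒜 a i).2
  rcases Nat.eq_zero_or_pos i with h | h
  · subst h
    obtain ⟨z, hz⟩ := h0 _ hi'
    rw [hz] at hi ⊢
    by_cases hz0 : z = 0
    · rw [hz0, map_zero]; exact P.zero_mem
    · exfalso
      apply hJt
      apply Ideal.eq_top_of_isUnit_mem J hi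
      exact (isUnit_iff_ne_zero.2 hz0).map (algebraMap ℂ A)
  · exact hp i h _ hi'

theorem p_DM1 : Stmt_DM1 := by
  intro A _ _ _ 𝒜 _ h0 P hP hHT hpos n c hc hc0 b hb
  have hI : (Ideal.span {c}).IsHomogeneous 𝒜 := by
    apply Ideal.homogeneous_span
    intro x hx
    rw [Set.mem_singleton_iff] at hx
    rw [hx]
    exact ⟨n, hc⟩
  have hb' : b ∈ (Ideal.span {c}).radical := by
    rw [hI.radical_eq, Ideal.mem_sInf]
    intro J hJ
    obtain ⟨h1, h2, h3⟩ := hJ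
    have hcJ : c ∈ J := h2 (Ideal.mem_span_singleton_self c)
    have hJb : J ≠ ⊥ := by
      intro h
      rw [h] at hcJ
      exact hc0 hcJ
    have hle := DM1_le 𝒜 h0 P hpos J h1 h3.ne_top
    have := hHT J h3 hJb hle
    rw [this]
    exact hb
  obtain ⟨k, hk⟩ := hb'
  exact ⟨k, Ideal.mem_span_singleton.1 hk⟩

end

end Pool.GQ
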