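import Pool.Agent.Work.MP_dcf6a6_gq.Interface

/-! Block DM2 (helper78). -/

set_option autoImplicit false

open CategoryTheory AlgebraicGeometry Pool.TVar

namespace Pool.GQ

theorem DM2_unit {V : Type} {f : SS V} (h : IsUnit f) : ∃ c : ℂ, f = MvPolynomial.C c := by
  obtain ⟨r, _, hr⟩ := MvPolynomial.isUnit_iff_eq_C_of_isReduced.1 h
  exact ⟨r, hr⟩

theorem p_DM2 : Stmt_DM2 := by
  classical
  intro V α β hk hli
  rw [LinearIndependent.pair_iff] at hli
  have hβ : β ≠ 0 := by
    rintro rfl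
    have := hli 0 1 (by simp)
    exact one_ne_zero this.2
  have hα : α ≠ 0 := by
    rintro rfl
    have := hli 1 0 (by simp)
    exact one_ne_zero this.1
  have hne : ∀ z : ℂ, α + z • β ≠ 0 := by
    intro z h
    have := hli 1 z (by rw [one_smul]; exact h)
    exact one_ne_zero this.1
  obtain ⟨a, b, d, hrel, ha, hb⟩ := UniqueFactorizationMonoid.exists_reduced_factors α hα β
  have hd : d ≠ 0 := by
    rintro rfl
    exact hα (by rw [← ha, zero_mul])
  have hab : ∀ z : ℂ, α + z • β = d * (a + z • b) := by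
    intro z
    rw [← ha, ← hb, mul_add, mul_smul_comm]
  have hsm : ∀ (z : ℂ) (f : SS V), z • f = MvPolynomial.C z * f := by
    intro z f
    exact MvPolynomial.smul_eq_C_mul f z
  -- the exceptional values
  set S : Set ℂ := {z | ¬ IsUnit (a + z • b)} with hS
  have hpr : ∀ z ∈ S, ∃ q ∈ (UniqueFactorizationMonoid.factors d).toFinset,
      Prime q ∧ q ∣ a + z • b ∧ ¬ q ∣ b := by
    intro z hz
    have h0 : a + z • b ≠ 0 := by
      intro h
      exact hne z (by rw [hab, h, mul_zero])
    obtain ⟨p, hp, hpd⟩ := WfDvdMonoid.exists_irreducible_factor hz h0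
    have hpp : Prime p := UniqueFactorizationMonoid.irreducible_iff_prime.1 hp
    have hnb : ¬ p ∣ b := by
      intro hpb
      have hpa : p ∣ a := by
        have h1 : p ∣ z • b := by
          rw [hsm]
          exact Dvd.dvd.mul_left hpb _
        exact (dvd_add_left h1).1 hpd
      exact hpp.not_unit (hrel hpa hpb)
    have hdd : p ∣ d := by
      obtain ⟨k, hk'⟩ := hk z
      have h1 : p ∣ β ^ k := by
        refine dvd_trans ?_ hk'
        rw [hab]
        exact Dvd.dvd.mul_left hpd _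
      have h2 : p ∣ β := hpp.dvd_of_dvd_pow h1
      rw [← hb] at h2
      exact (hpp.dvd_or_dvd h2).resolve_right hnb
    obtain ⟨q, hq, hpq⟩ := UniqueFactorizationMonoid.exists_mem_factors_of_dvd hd hp hdd
    exact ⟨q, Multiset.mem_toFinset.2 hq, hpq.prime_iff.1 hpp, hpq.dvd_iff_dvd_left.1 hpd,
      fun h => hnb (hpq.dvd_iff_dvd_left.2 h)⟩
  choose! F hF1 hF2 hF3 hF4 using hpr
  have hfin : S.Finite := by
    refine Set.Finite.of_finite_image
      (Set.Finite.subset (UniqueFactorizationMonoid.factors d).toFinset.finite_toSet ?_)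
      (f := F) ?_
    · rintro _ ⟨z, hz, rfl⟩
      exact hF1 z hz
    · intro z hz z' hz' h
      by_contra hzz
      have h1 : F z ∣ (a + z • b) - (a + z' • b) := by
        refine dvd_sub (hF3 z hz) ?_
        have := hF3 z' hz'
        rw [← h] at this
        exact this
      have h2 : (a + z • b) - (a + z' • b) = MvPolynomial.C (z - z') * b := by
        rw [hsm, hsm, MvPolynomial.C_sub]
        ring
      rw [h2] at h1
      have hu : IsUnit (MvPolynomial.C (z - z') : SS V) :=
        (isUnit_iff_ne_zero.2 (sub_ne_zero.2 hzz)).map MvPolynomial.C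
      exact hF4 z hz ((hu.dvd_mul_left).1 h1)
  have hinf : (Sᶜ : Set ℂ).Infinite := hfin.infinite_compl
  obtain ⟨z1, hz1⟩ := hinf.nonempty
  obtain ⟨z2, hz2, hne12⟩ := hinf.exists_notMem_finite (Set.finite_singleton z1)
  rw [Set.mem_singleton_iff] at hne12
  have u1 : IsUnit (a + z1 • b) := not_not.1 hz1
  have u2 : IsUnit (a + z2 • b) := not_not.1 hz2
  obtain ⟨c1, hc1⟩ := DM2_unit u1
  obtain ⟨c2, hc2⟩ := DM2_unit u2
  have hz12 : z1 - z2 ≠ 0 := sub_ne_zero.2 (fun h => hne12 h.symm)
  have hbC : b = MvPolynomial.C ((c1 - c2) / (z1 - z2)) := by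
    have h1 : MvPolynomial.C (z1 - z2) * b = MvPolynomial.C (c1 - c2) := by
      rw [hsm] at hc1 hc2
      rw [MvPolynomial.C_sub, MvPolynomial.C_sub]
      linear_combination hc1 - hc2
    have h2 : b = MvPolynomial.C ((z1 - z2)⁻¹) * (MvPolynomial.C (z1 - z2) * b) := by
      rw [← mul_assoc, ← MvPolynomial.C_mul, inv_mul_cancel₀ hz12, MvPolynomial.C_1, one_mul]
    rw [h2, h1, ← MvPolynomial.C_mul]
    congr 1
    field_simp
  have haC : a = MvPolynomial.C (c1 - z1 * ((c1 - c2) / (z1 - z2))) := by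
    rw [hsm] at hc1
    rw [MvPolynomial.C_sub, MvPolynomial.C_mul, ← hbC]
    linear_combination hc1
  set cb : ℂ := (c1 - c2) / (z1 - z2) with hcb
  set ca : ℂ := c1 - z1 * cb with hca
  have hrel2 : cb • α + (-ca) • β = 0 := by
    rw [hsm, hsm, ← ha, ← hb, haC, hbC, MvPolynomial.C_neg]
    ring
  have h3 := hli cb (-ca) hrel2
  apply hβ
  rw [← hb, hbC, h3.1, MvPolynomial.C_0, mul_zero]

end Pool.GQ
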