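import Pool.Agent.Work.MP_dcf6a6_gq.Interface
import Pool.Agent.Work.MP_dcf6a6_tv_helper73.PTS

/-!
# Block EXT (MP_dcf6a6_ag): extension of points
-/

set_option autoImplicit false

open CategoryTheory AlgebraicGeometry Pool.TVar

namespace Pool.GQ

noncomputable section

/-- a constructible set which contains the generic point contains a basic open set -/
theorem EXT_open {B : Type} [CommRing B] [IsDomain B] (s : Set (PrimeSpectrum B))
    (hs : Topology.IsConstructible s) (h0 : (⟨⊥, Ideal.isPrime_bot⟩ : PrimeSpectrum B) ∈ s) :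
    ∃ b : B, b ≠ 0 ∧ ∀ p : PrimeSpectrum B, b ∉ p.asIdeal → p ∈ s := by
  obtain ⟨T, rfl⟩ := PrimeSpectrum.exists_constructibleSetData_iff.mpr hs
  rw [PrimeSpectrum.ConstructibleSetData.toSet, Set.mem_iUnion₂] at h0
  obtain ⟨C, hC, h1, h2⟩ := h0
  rw [PrimeSpectrum.mem_zeroLocus] at h1 h2
  have hg : ∀ i, C.g i = 0 := by
    intro i
    have h3 : C.g i ∈ ((⊥ : Ideal B) : Set B) := h1 ⟨i, rfl⟩
    exact (Submodule.mem_bot B).1 h3
  refine ⟨C.f, ?_, ?_⟩
  · intro hf
    apply h2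
    intro z hz
    rw [Set.mem_singleton_iff] at hz
    rw [hz, hf]
    exact (Submodule.mem_bot B).2 rfl
  · intro p hp
    rw [PrimeSpectrum.ConstructibleSetData.toSet, Set.mem_iUnion₂]
    refine ⟨C, hC, ?_, ?_⟩
    · rw [PrimeSpectrum.mem_zeroLocus]
      rintro _ ⟨i, rfl⟩
      rw [hg i]
      exact p.asIdeal.zero_mem
    · rw [PrimeSpectrum.mem_zeroLocus]
      intro h
      exact hp (h rfl)

theorem p_EXT : Stmt_EXT := by
  intro B S _ _ _ _ _ _ hB hS θ hθ
  have hN : IsNoetherianRing B := Algebra.FiniteType.isNoetherianRing ℂ B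
  have hft : (θ : B →+* S).FiniteType := by
    apply RingHom.FiniteType.of_comp_finiteType (f := algebraMap ℂ B)
    rw [θ.comp_algebraMap]
    exact RingHom.finiteType_algebraMap.2 hS
  have hfp : (θ : B →+* S).FinitePresentation := RingHom.FinitePresentation.of_finiteType.1 hft
  have hc := PrimeSpectrum.isConstructible_range_comap hfp
  have h0 : (⟨⊥, Ideal.isPrime_bot⟩ : PrimeSpectrum B) ∈
      Set.range (PrimeSpectrum.comap (θ : B →+* S)) := by
    refine ⟨⟨⊥, Ideal.isPrime_bot⟩, ?_⟩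
    ext z
    change (θ : B →+* S) z ∈ (⊥ : Ideal S) ↔ z ∈ (⊥ : Ideal B)
    rw [Submodule.mem_bot, Submodule.mem_bot]
    exact ⟨fun h => hθ (h.trans (map_zero θ).symm), fun h => by rw [h]; exact map_zero θ⟩
  obtain ⟨b, hb, hD⟩ := EXT_open _ hc h0
  refine ⟨b, hb, ?_⟩
  intro χ hχ
  have hsurj : Function.Surjective (χ : B →+* ℂ) := fun c => ⟨algebraMap ℂ B c, χ.commutes c⟩
  have hmax : (RingHom.ker (χ : B →+* ℂ)).IsMaximal := RingHom.ker_isMaximal_of_surjective _ hsurj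
  obtain ⟨Q, hQ⟩ := hD ⟨RingHom.ker (χ : B →+* ℂ), hmax.isPrime⟩ (fun h => hχ h)
  obtain ⟨N, hNmax, hQN⟩ := Q.asIdeal.exists_le_maximal Q.isPrime.ne_top
  have hQ' : ∀ z : B, z ∈ RingHom.ker (χ : B →+* ℂ) → θ z ∈ N := by
    intro z hz
    apply hQN
    have h1 : z ∈ (PrimeSpectrum.comap (θ : B →+* S) Q).asIdeal := by
      rw [hQ]
      exact hz
    exact h1
  obtain ⟨χ', hχ'⟩ := Pool.TVar.helper73.exists_char N hNmax
  refine ⟨χ', fun z => ?_⟩
  have h1 : z - algebraMap ℂ B (χ z) ∈ RingHom.ker (χ : B →+* ℂ) := by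
    rw [RingHom.mem_ker]
    change χ (z - algebraMap ℂ B (χ z)) = 0
    rw [map_sub, χ.commutes]
    exact sub_self _
  have h2 := (hχ' _).2 (hQ' _ h1)
  rw [map_sub, map_sub, θ.commutes, χ'.commutes] at h2
  exact sub_eq_zero.1 h2

end

end Pool.GQ
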