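import Pool.Agent.Work.MP_dcf6a6_gq.Interface

/-!
# Block FIX: finitely many good elements without common factor
-/

open CategoryTheory AlgebraicGeometry Pool.TVar

namespace Pool.GQ

noncomputable section

theorem p_FIX (hHGT : Stmt_HGT) (hHOF : Stmt_HOF) (hDG0 : Stmt_DG0) (hNIR : Stmt_NIR)
    (hSMH : Stmt_SMH) : Stmt_FIX := by
  intro V _ w A _ _ _ _ 𝒜 _ E hft hNC hlin
  classical
  have hdg := hDG0 V w A 𝒜 E
  -- the good elements
  let W : Set A := {h | h ≠ 0 ∧ (∃ n, 0 < n ∧ h ∈ 𝒜 n) ∧ Good 𝒜 h}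
  have key : ∀ P : Ideal A, P.IsPrime → HT P → ∃ h ∈ W, h ∉ P := by
    intro P hP hHT
    obtain ⟨m, hm, h, hh, hhP⟩ := hNIR V w A 𝒜 E hlin P hP hHT
    obtain ⟨n, hn, h', hh', hhP', hg⟩ := hSMH A 𝒜 hft hdg P hP hHT m h hh hm hhP
    exact ⟨h', ⟨fun h0 => hhP' (by rw [h0]; exact P.zero_mem), ⟨n, hn, hh'⟩, hg⟩, hhP'⟩
  obtain ⟨h₀, hh₀, -⟩ := key ⊥ Ideal.isPrime_bot
    (fun Q _ hne hle => absurd (le_bot_iff.1 hle) hne)
  -- finitely many generators
  have hfg : (Submodule.span (SS V) (E.φ '' W)).FG := IsNoetherian.noetherian _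
  obtain ⟨s', hs', hspan⟩ := (Submodule.fg_span_iff_fg_span_finset_subset (E.φ '' W)).1 hfg
  obtain ⟨T, hTW, hT⟩ := Finset.subset_set_image_iff.1 hs'
  have hTW' : ∀ h ∈ insert h₀ T, h ∈ W := by
    intro h hh
    rcases Finset.mem_insert.1 hh with rfl | hh
    · exact hh₀
    · exact hTW hh
  have hprime : ∀ q : SS V, Prime q → ∃ h ∈ insert h₀ T, ¬ q ∣ E.φ h := by
    intro q hq
    by_contra hno
    push Not at hno
    have h1 : ∀ h ∈ W, q ∣ E.φ h := by
      intro h hh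
      have h2 : E.φ h ∈ Submodule.span (SS V) (E.φ '' W) :=
        Submodule.subset_span (Set.mem_image_of_mem _ hh)
      have h3 : Submodule.span (SS V) (s' : Set (SS V)) ≤ Ideal.span {q} := by
        rw [Submodule.span_le]
        intro P hP
        rw [← hT, Finset.coe_image] at hP
        obtain ⟨h', hh', rfl⟩ := hP
        exact Ideal.mem_span_singleton.2 (hno h' (Finset.mem_insert_of_mem hh'))
      rw [hspan] at h2
      exact Ideal.mem_span_singleton.1 (h3 h2)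
    have hφ0 : E.φ h₀ ≠ 0 := by
      intro h0
      exact hh₀.1 (E.inj (by rw [h0, map_zero]))
    obtain ⟨n, -, hn⟩ := hh₀.2.1
    obtain ⟨m, hm⟩ := hHOF V w (E.φ h₀) q (E.c * n) hφ0 (E.graded n h₀ hn) (h1 h₀ hh₀)
    have hP : ((Ideal.span {q}).comap E.φ).IsPrime := by
      have h2 : (Ideal.span {q}).IsPrime := (Ideal.span_singleton_prime hq.ne_zero).2 hq
      exact h2.comap E.φ
    have hht : HT ((Ideal.span {q}).comap E.φ) := (hHGT A _ hP).1 (hNC q hq ⟨m, hm⟩)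
    obtain ⟨h, hh, hhP⟩ := key _ hP hht
    exact hhP (Ideal.mem_span_singleton.2 (h1 h hh))
  -- equal degrees
  have hdeg : ∀ h ∈ insert h₀ T, ∃ n, 0 < n ∧ h ∈ 𝒜 n := fun h hh => (hTW' h hh).2.1
  choose! d hd using hdeg
  set N := ∏ h ∈ insert h₀ T, d h with hN
  have hNpos : 0 < N := Finset.prod_pos fun h hh => (hd h hh).1
  have hdvd : ∀ h ∈ insert h₀ T, d h ∣ N := fun h hh => Finset.dvd_prod_of_mem d hh
  have hquot : ∀ h ∈ insert h₀ T, 0 < N / d h := fun h hh =>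
    Nat.div_pos (Nat.le_of_dvd hNpos (hdvd h hh)) (hd h hh).1
  have hcard : 0 < (insert h₀ T).card := Finset.card_pos.2 ⟨h₀, Finset.mem_insert_self _ _⟩
  obtain ⟨k, hk⟩ : ∃ k, (insert h₀ T).card = k + 1 := ⟨(insert h₀ T).card - 1, by omega⟩
  let e := (insert h₀ T).equivFinOfCardEq hk
  refine ⟨N, k, fun i => (e.symm i : A) ^ (N / d (e.symm i : A)), hNpos, ?_, ?_⟩
  · intro i
    have hi := (e.symm i).2
    refine ⟨?_, pow_ne_zero _ (hTW' _ hi).1, ?_⟩
    · have h1 := SetLike.pow_mem_graded (N / d (e.symm i : A)) (hd _ hi).2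
      rwa [smul_eq_mul, Nat.div_mul_cancel (hdvd _ hi)] at h1
    · intro x hx
      rw [Proj.basicOpen_pow _ _ _ (hquot _ hi)] at hx
      exact (hTW' _ hi).2.2 x hx
  · intro q hq
    obtain ⟨h, hh, hqh⟩ := hprime q hq
    refine ⟨e ⟨h, hh⟩, ?_⟩
    intro hdiv
    apply hqh
    simp only [Equiv.symm_apply_apply, map_pow] at hdiv
    exact hq.dvd_of_dvd_pow hdiv

end

end Pool.GQ
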