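import Pool.Agent.Work.MP_dcf6a6_gq.Interface

open CategoryTheory AlgebraicGeometry Pool.TVar

namespace Pool.GQ

/-- the combination as a linear map -/
noncomputable def GEN_L {V : Type} {k : ℕ} (F : Fin k → SS V) : (Fin k → ℂ) →ₗ[ℂ] SS V where
  toFun := fun β => ∑ i, β i • F i
  map_add' := fun a b => by
    simp only [Pi.add_apply, add_smul, Finset.sum_add_distrib]
  map_smul' := fun c a => by
    simp only [Pi.smul_apply, smul_eq_mul, mul_smul, Finset.smul_sum, RingHom.id_apply]

theorem GEN_single {V : Type} {k : ℕ} (F : Fin k → SS V) (i : Fin k) :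
    GEN_L F (Pi.single i 1) = F i := by
  show ∑ j, (Pi.single i (1 : ℂ) : Fin k → ℂ) j • F j = F i
  rw [Finset.sum_eq_single i]
  · rw [Pi.single_eq_same, one_smul]
  · intro j _ hj
    rw [Pi.single_eq_of_ne hj, zero_smul]
  · intro h
    exact absurd (Finset.mem_univ i) h

/-- a finite family of proper subspaces does not cover -/
theorem GEN_cover {E : Type} [AddCommGroup E] [Module ℂ E] (s : Finset (Subspace ℂ E))
    (hs : ∀ p ∈ s, p ≠ ⊤) : ∃ z : E, ∀ p ∈ s, z ∉ p := by
  by_contra h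
  push Not at h
  refine Subspace.biUnion_ne_univ_of_top_notMem (s := s) (fun ht => hs ⊤ ht rfl) ?_
  refine Set.eq_univ_of_forall fun z => ?_
  obtain ⟨p, hp, hz⟩ := h z
  exact Set.mem_biUnion hp hz

/-- the subspace of the coefficients of the combinations divisible by `p` -/
noncomputable def GEN_W {V : Type} {k : ℕ} (F : Fin k → SS V) (p : SS V) :
    Submodule ℂ (Fin k → ℂ) :=
  Submodule.comap (GEN_L F) ((Ideal.span {p}).restrictScalars ℂ)

theorem GEN_mem {V : Type} {k : ℕ} {F : Fin k → SS V} {p : SS V} {β : Fin k → ℂ} :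
    β ∈ GEN_W F p ↔ p ∣ GEN_L F β := by
  show GEN_L F β ∈ Ideal.span {p} ↔ _
  exact Ideal.mem_span_singleton

theorem p_GEN : Stmt_GEN := by
  classical
  intro V k F x y hF hx hy
  -- the first combination
  have hev : ∀ z : V → ℂ, (∃ i, MvPolynomial.eval z (F i) ≠ 0) →
      LinearMap.ker ((MvPolynomial.aeval z : SS V →ₐ[ℂ] ℂ).toLinearMap ∘ₗ GEN_L F) ≠ ⊤ := by
    rintro z ⟨i, hi⟩ htop
    have h1 : (Pi.single i 1 : Fin k → ℂ) ∈
        LinearMap.ker ((MvPolynomial.aeval z : SS V →ₐ[ℂ] ℂ).toLinearMap ∘ₗ GEN_L F) := by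
      rw [htop]
      exact Submodule.mem_top
    rw [LinearMap.mem_ker, LinearMap.comp_apply, GEN_single] at h1
    apply hi
    rw [← MvPolynomial.coe_aeval_eq_eval]
    exact h1
  obtain ⟨α, hα⟩ := GEN_cover
    ({LinearMap.ker ((MvPolynomial.aeval x : SS V →ₐ[ℂ] ℂ).toLinearMap ∘ₗ GEN_L F),
      LinearMap.ker ((MvPolynomial.aeval y : SS V →ₐ[ℂ] ℂ).toLinearMap ∘ₗ GEN_L F)} :
      Finset (Subspace ℂ (Fin k → ℂ))) (by
      intro p hp
      rw [Finset.mem_insert, Finset.mem_singleton] at hp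
      rcases hp with rfl | rfl
      · exact hev x hx
      · exact hev y hy)
  have hαx : MvPolynomial.eval x (GEN_L F α) ≠ 0 := by
    intro h0
    refine hα _ (Finset.mem_insert_self _ _) ?_
    rw [LinearMap.mem_ker, LinearMap.comp_apply]
    rw [← MvPolynomial.coe_aeval_eq_eval] at h0
    exact h0
  have hαy : MvPolynomial.eval y (GEN_L F α) ≠ 0 := by
    intro h0
    refine hα _ (Finset.mem_insert_of_mem (Finset.mem_singleton_self _)) ?_
    rw [LinearMap.mem_ker, LinearMap.comp_apply]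
    rw [← MvPolynomial.coe_aeval_eq_eval] at h0
    exact h0
  have hf0 : GEN_L F α ≠ 0 := by
    intro h0
    rw [h0, map_zero] at hαx
    exact hαx rfl
  -- the second combination
  obtain ⟨β, hβ⟩ := GEN_cover
    ((UniqueFactorizationMonoid.factors (GEN_L F α)).toFinset.image (GEN_W F)) (by
      intro p hp htop
      rw [Finset.mem_image] at hp
      obtain ⟨q, hq, rfl⟩ := hp
      rw [Multiset.mem_toFinset] at hq
      have hqp := UniqueFactorizationMonoid.prime_of_factor q hq
      obtain ⟨i, hi⟩ := hF q hqp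
      have h1 : (Pi.single i 1 : Fin k → ℂ) ∈ GEN_W F q := by
        rw [htop]
        exact Submodule.mem_top
      rw [GEN_mem, GEN_single] at h1
      exact hi h1)
  refine ⟨α, β, hαx, hαy, ?_⟩
  rintro q hq ⟨h1, h2⟩
  obtain ⟨p, hp, hqp⟩ := UniqueFactorizationMonoid.exists_mem_factors_of_dvd hf0 hq.irreducible h1
  refine hβ (GEN_W F p) (Finset.mem_image_of_mem _ (Multiset.mem_toFinset.2 hp)) ?_
  rw [GEN_mem]
  exact hqp.dvd_iff_dvd_left.1 h2

end Pool.GQ
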