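import Pool.Agent.Work.MP_dcf6a6_gq.Interface

/-! Block HGT (helper24): height at most one, elementary form. -/

open CategoryTheory AlgebraicGeometry Pool.TVar

namespace Pool.GQ

noncomputable section

theorem p_HGT : Stmt_HGT := by
  intro A _ _ P hP
  have h0 : P.height ≤ 1 ↔ ∀ Q : Ideal A, Q.IsPrime → Q < P → Q.height < ((1 : ℕ) : ℕ∞) := by
    have h := Ideal.height_le_iff (p := P) (n := 1)
    rw [Nat.cast_one] at h ⊢
    exact h
  rw [h0]
  constructor
  · intro h Q hQ hne hle
    by_contra hc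
    have h1 := h Q hQ (lt_of_le_of_ne hle hc)
    rw [Nat.cast_one, Order.lt_one_iff] at h1
    exact hne (Ideal.height_eq_zero_iff_eq_bot.1 h1)
  · intro h Q hQ hlt
    rw [Nat.cast_one, Order.lt_one_iff, Ideal.height_eq_zero_iff_eq_bot]
    by_contra hne
    exact hlt.ne (h Q hQ hne hlt.le)

end

end Pool.GQ
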