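import Pool.Agent.Work.MP_dcf6a6_gq.Interface

set_option autoImplicit false

/-! # Block HOF: factors of weighted homogeneous polynomials -/

namespace Pool.GQ

noncomputable section

/-- `T_v ↦ T_v t ^ (w v)` -/
def HOF_phi {V : Type} (w : V → ℕ) : SS V →ₐ[ℂ] Polynomial (SS V) :=
  MvPolynomial.aeval fun v => Polynomial.C (MvPolynomial.X v) * Polynomial.X ^ w v

theorem HOF_monomial {V : Type} (w : V → ℕ) (d : V →₀ ℕ) (c : ℂ) :
    HOF_phi w (MvPolynomial.monomial d c) =
      Polynomial.C (MvPolynomial.monomial d c) * Polynomial.X ^ Finsupp.weight w d := by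
  unfold HOF_phi
  rw [MvPolynomial.aeval_monomial, MvPolynomial.monomial_eq, Finsupp.weight_apply]
  simp only [Finsupp.prod, Finsupp.sum, mul_pow, Finset.prod_mul_distrib, map_mul, map_prod, map_pow,
    smul_eq_mul]
  rw [← mul_assoc]
  congr 1
  rw [← Finset.prod_pow_eq_pow_sum]
  apply Finset.prod_congr rfl
  intro v _
  rw [← pow_mul, mul_comm]

theorem HOF_coeff {V : Type} (w : V → ℕ) (p : SS V) (k : ℕ) (d : V →₀ ℕ) :
    MvPolynomial.coeff d ((HOF_phi w p).coeff k) =
      if Finsupp.weight w d = k then MvPolynomial.coeff d p else 0 := by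
  classical
  induction p using MvPolynomial.induction_on' with
  | monomial e c =>
    rw [HOF_monomial, Polynomial.coeff_C_mul_X_pow]
    by_cases h1 : k = Finsupp.weight w e
    · rw [if_pos h1]
      by_cases h2 : e = d
      · subst h2
        rw [if_pos h1.symm]
      · rw [MvPolynomial.coeff_monomial, if_neg h2]
        simp
    · rw [if_neg h1, MvPolynomial.coeff_zero]
      by_cases h2 : e = d
      · subst h2
        rw [if_neg (fun h => h1 h.symm)]
      · rw [MvPolynomial.coeff_monomial, if_neg h2]
        simp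
  | add p q hp hq =>
    rw [map_add, Polynomial.coeff_add, MvPolynomial.coeff_add, hp, hq, MvPolynomial.coeff_add]
    split_ifs <;> simp

theorem p_HOF : Stmt_HOF := by
  classical
  intro V w P q n hP hh hq
  obtain ⟨r, hr⟩ := hq
  have h1 : HOF_phi w P = Polynomial.C P * Polynomial.X ^ n := by
    ext k d
    rw [HOF_coeff, Polynomial.coeff_C_mul_X_pow]
    by_cases h2 : MvPolynomial.coeff d P = 0
    · by_cases h3 : k = n
      · rw [if_pos h3, h2]
        simp
      · rw [if_neg h3, h2]
        simp
    · have h3 : Finsupp.weight w d = n := hh h2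
      by_cases h4 : k = n
      · rw [if_pos h4, if_pos (by rw [h3, h4])]
      · rw [if_neg h4, if_neg (fun h => h4 (by rw [← h, h3]))]
        simp
  have h2 : HOF_phi w q * HOF_phi w r = Polynomial.C P * Polynomial.X ^ n := by
    rw [← h1, ← map_mul, ← hr]
  have h0 : Polynomial.C P * Polynomial.X ^ n ≠ 0 :=
    mul_ne_zero (Polynomial.C_ne_zero.2 hP) (pow_ne_zero _ Polynomial.X_ne_zero)
  have hf : HOF_phi w q ≠ 0 := by
    intro h
    rw [h, zero_mul] at h2
    exact h0 h2.symm
  have hg : HOF_phi w r ≠ 0 := by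
    intro h
    rw [h, mul_zero] at h2
    exact h0 h2.symm
  have h3 := Polynomial.natDegree_mul hf hg
  have h4 := Polynomial.natTrailingDegree_mul hf hg
  rw [h2] at h3 h4
  have h5 : (Polynomial.C P * Polynomial.X ^ n).natDegree = n :=
    Polynomial.natDegree_C_mul_X_pow n P hP
  have h6 : (Polynomial.C P * Polynomial.X ^ n).natTrailingDegree = n := by
    rw [Polynomial.C_mul_X_pow_eq_monomial]
    exact Polynomial.natTrailingDegree_monomial hP
  rw [h5] at h3
  rw [h6] at h4
  have h7 := Polynomial.natTrailingDegree_le_natDegree (HOF_phi w q)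
  have h8 := Polynomial.natTrailingDegree_le_natDegree (HOF_phi w r)
  refine ⟨(HOF_phi w q).natDegree, ?_⟩
  intro d hd
  by_contra h9
  have h10 := HOF_coeff w q (Finsupp.weight w d) d
  rw [if_pos rfl] at h10
  have h11 : (HOF_phi w q).coeff (Finsupp.weight w d) = 0 := by
    rcases lt_or_gt_of_ne h9 with h | h
    · exact Polynomial.coeff_eq_zero_of_lt_natTrailingDegree (by omega)
    · exact Polynomial.coeff_eq_zero_of_natDegree_lt h
  rw [h11, MvPolynomial.coeff_zero] at h10
  exact hd h10.symm

end

end Pool.GQ
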