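import Pool.Agent.Work.MP_dcf6a6_gq.Interface

/-! # Block HTG (helper70): no divisor is contracted by the quotient map -/

set_option autoImplicit false

open CategoryTheory AlgebraicGeometry Pool.TVar

namespace Pool.GQ

noncomputable section

/-- all elements of the ring of invariants are invariant -/
theorem HTG_inv {V : Type} {w : V → ℕ} {G : Type} [Group G]
    {ρ : G →* (SS V ≃ₐ[ℂ] SS V)} {A : Type} [CommRing A] [Algebra ℂ A]
    (𝒜 : ℕ → Submodule ℂ A) [GradedAlgebra 𝒜] (I : InvariantRing w ρ 𝒜) (a : A) (g : G) :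
    ρ g (I.φ a) = I.φ a := by
  classical
  have h1 : a = ∑ i ∈ (DirectSum.decompose 𝒜 a).support, ((DirectSum.decompose 𝒜 a i : 𝒜 i) : A) :=
    (DirectSum.sum_support_decompose 𝒜 a).symm
  rw [h1, map_sum, map_sum]
  refine Finset.sum_congr rfl fun i _ => ?_
  exact ((I.range i _).1 ⟨_, (DirectSum.decompose 𝒜 a i).2, rfl⟩).2 g

/-- the quotient of two semi-invariants -/
theorem HTG_quot {V : Type} (σ : SS V ≃ₐ[ℂ] SS V) (M s : SS V) (x z : ℂ) (hM : M ≠ 0)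
    (hσ : σ M = x • M) (hs : σ (M * s) = z • (M * s)) : x • σ s = z • s := by
  apply mul_left_cancel₀ hM
  calc M * (x • σ s) = (x • M) * σ s := by rw [mul_smul_comm, smul_mul_assoc]
    _ = σ (M * s) := by rw [map_mul, hσ]
    _ = z • (M * s) := hs
    _ = M * (z • s) := by rw [mul_smul_comm]

/-- divide by `M` as long as possible -/
theorem HTG_div {V : Type} {G : Type} [Group G] (ρ : G →* (SS V ≃ₐ[ℂ] SS V)) (q M : SS V)
    (χ : G → ℂ) (hM : M ≠ 0) (hχ : ∀ g, χ g ≠ 0 ∧ ρ g M = χ g • M) (hq : q ∣ M)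
    (hdv : ∀ p : SS V, (∀ g, ∃ z : ℂ, z ≠ 0 ∧ ρ g p = z • p) → q ∣ p → M ∣ p) (n : ℕ) :
    ∀ s : SS V, (∀ g, ∃ z : ℂ, z ≠ 0 ∧ ρ g s = z • s) → ¬ q ^ (n + 1) ∣ s →
      ∃ (v : ℕ) (a' : SS V), s = M ^ v * a' ∧ ¬ q ∣ a' := by
  induction n with
  | zero =>
    intro s _ hs
    rw [zero_add, pow_one] at hs
    exact ⟨0, s, by rw [pow_zero, one_mul], hs⟩
  | succ n ih =>
    intro s hsem hs
    by_cases hqs : q ∣ s
    · obtain ⟨s', rfl⟩ := hdv s hsem hqs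
      have hsem' : ∀ g, ∃ z : ℂ, z ≠ 0 ∧ ρ g s' = z • s' := by
        intro g
        obtain ⟨z, hz, hz'⟩ := hsem g
        have h1 := HTG_quot (ρ g) M s' (χ g) z hM (hχ g).2 hz'
        refine ⟨(χ g)⁻¹ * z, mul_ne_zero (inv_ne_zero (hχ g).1) hz, ?_⟩
        rw [mul_smul, ← h1, smul_smul, inv_mul_cancel₀ (hχ g).1, one_smul]
      have hs' : ¬ q ^ (n + 1) ∣ s' := by
        intro h
        apply hs
        rw [pow_succ']
        exact mul_dvd_mul hq h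
      obtain ⟨v, a', h2, h3⟩ := ih s' hsem' hs'
      refine ⟨v + 1, a', ?_, h3⟩
      rw [h2, pow_succ']
      ring
    · exact ⟨0, s, by rw [pow_zero, one_mul], hqs⟩

theorem p_HTG (hCNJ : Stmt_CNJ) : Stmt_HTG := by
  intro V w G _ ρ hbal A _ _ _ 𝒜 _ I hinv q hq hqh Q hQ hQ0 hQP
  have hφ0 : ∀ a : A, a ≠ 0 → I.φ a ≠ 0 := fun a ha h =>
    ha (I.inj (by rw [h, map_zero]))
  have hmemP : ∀ p : A, p ∈ (Ideal.span {q}).comap I.φ ↔ q ∣ I.φ p := by
    intro p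
    rw [Ideal.mem_comap, Ideal.mem_span_singleton]
  obtain ⟨a, haQ, ha0⟩ := Submodule.exists_mem_ne_zero_of_ne_bot hQ0
  have hqa : q ∣ I.φ a := (hmemP a).1 (hQP haQ)
  obtain ⟨M, χ, hM0, hMh, hχ, hqM, -, hdv⟩ :=
    hCNJ V w G ρ I.act q (I.φ a) hq hqh (hφ0 a ha0) (fun g => HTG_inv 𝒜 I a g) hqa
  obtain ⟨l, hl, c, e, hc, he, hqc, hqe⟩ :=
    hbal M χ hM0 hMh (fun g => (hχ g).2) q hq hqM
  -- division of `φ a` by `M`
  obtain ⟨n, hn⟩ : ∃ n : ℕ, ¬ q ^ (n + 1) ∣ I.φ a :=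
    FiniteMultiplicity.of_not_isUnit hq.not_isUnit (hφ0 a ha0)
  obtain ⟨v, a', hva, hqa'⟩ := HTG_div ρ q M χ hM0 hχ hqM hdv n (I.φ a)
    (fun g => ⟨1, one_ne_zero, by rw [HTG_inv 𝒜 I a g, one_smul]⟩) hn
  have ha' : ∀ g, χ g ^ v • ρ g a' = a' := by
    intro g
    have h1 := HTG_quot (ρ g) (M ^ v) a' (χ g ^ v) 1 (pow_ne_zero v hM0)
      (by rw [map_pow, (hχ g).2, smul_pow]) (by rw [← hva, HTG_inv 𝒜 I a g, one_smul])
    rwa [one_smul] at h1
  -- the invariants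
  have hX : ∀ g, ρ g (a' ^ l * e ^ v) = a' ^ l * e ^ v := by
    intro g
    have h2 : (ρ g a') ^ l * (χ g ^ l • e) ^ v = (χ g ^ v • ρ g a') ^ l * e ^ v := by
      rw [smul_pow, smul_pow, mul_smul_comm, smul_mul_assoc, ← pow_mul, ← pow_mul, mul_comm l v]
    rw [map_mul, map_pow, map_pow, he, h2, ha']
  have hm : ∀ g, ρ g (M ^ l * c) = M ^ l * c := by
    intro g
    rw [map_mul, map_pow, (hχ g).2, smul_pow, smul_mul_assoc, ← mul_smul_comm, hc]
  have hce : ∀ g, ρ g (c * e) = c * e := by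
    intro g
    rw [map_mul, he, mul_smul_comm, ← smul_mul_assoc, hc]
  obtain ⟨x, hx⟩ := hinv _ hX
  obtain ⟨m, hm'⟩ := hinv _ hm
  obtain ⟨ce, hce'⟩ := hinv _ hce
  have heq : a ^ l * ce ^ v = m ^ v * x := by
    apply I.inj
    rw [map_mul, map_mul, map_pow, map_pow, map_pow, hx, hm', hce']
    rw [hva]
    ring
  have hceQ : ce ∉ Q := by
    intro h
    have h1 := (hmemP ce).1 (hQP h)
    rw [hce'] at h1
    rcases hq.dvd_or_dvd h1 with h2 | h2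
    · exact hqc h2
    · exact hqe h2
  have hxQ : x ∉ Q := by
    intro h
    have h1 := (hmemP x).1 (hQP h)
    rw [hx] at h1
    rcases hq.dvd_or_dvd h1 with h2 | h2
    · exact hqa' (hq.dvd_of_dvd_pow h2)
    · exact hqe (hq.dvd_of_dvd_pow h2)
  have hmQ : m ∈ Q := by
    have h1 : m ^ v * x ∈ Q := by
      rw [← heq]
      exact Q.mul_mem_right _ (Q.pow_mem_of_mem haQ l hl)
    rcases hQ.mem_or_mem h1 with h2 | h2
    · exact hQ.mem_of_pow_mem v h2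
    · exact absurd h2 hxQ
  -- the other inclusion
  apply le_antisymm hQP
  intro p hp
  have hqp : q ∣ I.φ p := (hmemP p).1 hp
  obtain ⟨p', hp'⟩ := hdv (I.φ p) (fun g => ⟨1, one_ne_zero, by
    rw [HTG_inv 𝒜 I p g, one_smul]⟩) hqp
  have hp'' : ∀ g, χ g • ρ g p' = p' := by
    intro g
    have h1 := HTG_quot (ρ g) M p' (χ g) 1 hM0 (hχ g).2
      (by rw [← hp', HTG_inv 𝒜 I p g, one_smul])
    rwa [one_smul] at h1
  have hY : ∀ g, ρ g (p' ^ l * e) = p' ^ l * e := by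
    intro g
    have h2 : (ρ g p') ^ l * (χ g ^ l • e) = (χ g • ρ g p') ^ l * e := by
      rw [smul_pow, mul_smul_comm, smul_mul_assoc]
    rw [map_mul, map_pow, he, h2, hp'']
  obtain ⟨y, hy⟩ := hinv _ hY
  have heq2 : p ^ l * ce = m * y := by
    apply I.inj
    rw [map_mul, map_mul, map_pow, hy, hm', hce', hp']
    ring
  have h3 : p ^ l * ce ∈ Q := by
    rw [heq2]
    exact Q.mul_mem_right _ hmQ
  rcases hQ.mem_or_mem h3 with h4 | h4
  · exact hQ.mem_of_pow_mem l h4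
  · exact absurd h4 hceQ

end

end Pool.GQ
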