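import Pool.Agent.Work.MP_dcf6a6_gq.Interface
import Pool.Agent.Work.MP_dcf6a6_tv_helper73.FIN

/-!
# Block MN1: the theorem for embeddings
-/

open CategoryTheory AlgebraicGeometry Pool.TVar

namespace Pool.GQ

noncomputable section

/-- a second point of affine space -/
theorem MN1_point {V : Type} {A : Type} [CommRing A] [Algebra ℂ A] {𝒜 : ℕ → Submodule ℂ A}
    (φ : A →ₐ[ℂ] SS V) (hφ : Function.Injective φ)
    (hlin : ∃ n, ∃ a ∈ 𝒜 n, ∃ b ∈ 𝒜 n, LinearIndependent ℂ ![a, b]) (h : A) (hh : h ≠ 0)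
    (zx : V → ℂ) : ∃ z : V → ℂ, MvPolynomial.eval z (φ h) ≠ 0 ∧
      ∃ n, ∃ b ∈ 𝒜 n, MvPolynomial.eval zx (φ b) = 0 ∧ MvPolynomial.eval z (φ b) ≠ 0 := by
  obtain ⟨n, a', ha', b', hb', hli⟩ := hlin
  rw [LinearIndependent.pair_iff] at hli
  have hb : ∃ b ∈ 𝒜 n, b ≠ 0 ∧ MvPolynomial.eval zx (φ b) = 0 := by
    by_cases h0 : MvPolynomial.eval zx (φ a') = 0
    · refine ⟨a', ha', ?_, h0⟩
      intro h1
      have h2 := hli 1 0 (by rw [h1]; simp)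
      exact one_ne_zero h2.1
    · refine ⟨MvPolynomial.eval zx (φ b') • a' + (-MvPolynomial.eval zx (φ a')) • b', ?_, ?_, ?_⟩
      · exact (𝒜 n).add_mem ((𝒜 n).smul_mem _ ha') ((𝒜 n).smul_mem _ hb')
      · intro h1
        exact h0 (neg_eq_zero.1 (hli _ _ h1).2)
      · rw [map_add, map_smul, map_smul, map_add, MvPolynomial.smul_eval, MvPolynomial.smul_eval]
        ring
  obtain ⟨b, hbn, hb0, hbz⟩ := hb
  have hne : φ b * φ h ≠ 0 := by
    apply mul_ne_zero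
    · intro h0
      exact hb0 (hφ (by rw [h0, map_zero]))
    · intro h0
      exact hh (hφ (by rw [h0, map_zero]))
  obtain ⟨z, hz⟩ : ∃ z : V → ℂ, MvPolynomial.eval z (φ b * φ h) ≠ 0 := by
    by_contra hno
    push Not at hno
    exact hne (MvPolynomial.funext fun z => by rw [hno z, map_zero])
  rw [map_mul] at hz
  exact ⟨z, right_ne_zero_of_mul hz, n, b, hbn, hbz, left_ne_zero_of_mul hz⟩

theorem MN1_sum {S : Type} [CommRing S] [Algebra ℂ S] (I : Ideal S) {k : ℕ} (F : Fin k → S)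
    (c : Fin k → ℂ) (h : ∀ i, F i ∈ I) : ∑ i, c i • F i ∈ I := by
  refine I.sum_mem fun i _ => ?_
  rw [Algebra.smul_def]
  exact I.mul_mem_left _ (h i)

theorem p_MN1 (hFIX : Stmt_FIX) (hGEN : Stmt_GEN) (hCRV : Stmt_CRV) (hPNT : Stmt_PNT)
    (hPMAP : Pool.TVar.Stmt_PMAP) (hP1 : Pool.TVar.Stmt_P1) (hDENS : Pool.TVar.Stmt_DENS) :
    Stmt_MN1 := by
  intro V _ w A _ _ _ _ 𝒜 _ E hft hNC hlin
  classical
  obtain ⟨n, k, h, hn, hh, hprime⟩ := hFIX V w A 𝒜 E hft hNC hlin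
  obtain ⟨m, hm, a, ha, ha0, hpnt⟩ := hPNT V w A 𝒜 E hft n (h 0) (hh 0).1 hn (hh 0).2.1
  refine ⟨Proj.basicOpen 𝒜 (a * h 0), hDENS 𝒜 (a * h 0) (m + n)
    (SetLike.mul_mem_graded ha (hh 0).1) (mul_ne_zero ha0 (hh 0).2.1), ?_, ?_⟩
  · intro x hx
    rw [Proj.basicOpen_mul] at hx
    exact (hh 0).2.2 x hx.2
  · intro x y hx hy hxc hyc
    rw [Proj.basicOpen_mul] at hx hy
    obtain ⟨zx, hzx⟩ := hpnt x hx.1 hxc
    obtain ⟨zy, hzy⟩ := hpnt y hy.1 hyc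
    have hx0 : MvPolynomial.eval zx (E.φ (h 0)) ≠ 0 := fun h0 =>
      hx.2 ((hzx n (h 0) (hh 0).1).2 h0)
    have hy0 : MvPolynomial.eval zy (E.φ (h 0)) ≠ 0 := fun h0 =>
      hy.2 ((hzy n (h 0) (hh 0).1).2 h0)
    -- the second point of affine space
    have hz : ∃ z : V → ℂ, MvPolynomial.eval z (E.φ (h 0)) ≠ 0 ∧
        ((x ≠ y ∧ z = zy) ∨ (x = y ∧ ∃ n, ∃ b ∈ 𝒜 n, MvPolynomial.eval zx (E.φ b) = 0 ∧
          MvPolynomial.eval z (E.φ b) ≠ 0)) := by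
      by_cases hxy : x = y
      · obtain ⟨z, hz, hb⟩ := MN1_point E.φ E.inj hlin (h 0) (hh 0).2.1 zx
        exact ⟨z, hz, Or.inr ⟨hxy, hb⟩⟩
      · exact ⟨zy, hy0, Or.inl ⟨hxy, rfl⟩⟩
    obtain ⟨z, hz0, hz⟩ := hz
    obtain ⟨α, β, hf1, hf2, hcop⟩ := hGEN V (k + 1) (fun i => E.φ (h i)) zx z hprime
      ⟨0, hx0⟩ ⟨0, hz0⟩
    have hwh : ∀ c : Fin (k + 1) → ℂ,
        (∑ i, c i • E.φ (h i)).IsWeightedHomogeneous w (E.c * n) := by
      intro c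
      rw [← MvPolynomial.mem_weightedHomogeneousSubmodule]
      refine Submodule.sum_mem _ fun i _ => Submodule.smul_mem _ _ ?_
      rw [MvPolynomial.mem_weightedHomogeneousSubmodule]
      exact E.graded n (h i) (hh i).1
    obtain ⟨Θ, hΘgr, hΘ0, hΘ1, hΘq⟩ := hCRV V w _ _ zx z (E.c * n) E.w_pos (hwh α) (hwh β)
      hf1 hf2 hcop
    let ψ : A →ₐ[ℂ] MvPolynomial (Fin 2) ℂ := Θ.comp E.φ
    have hψgr : ∀ n, ∀ a ∈ 𝒜 n, ψ a ∈ lineGr (2 * E.c * n) := by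
      intro n a ha
      have h1 := hΘgr (E.φ a) _ (E.graded n a ha)
      rw [mul_assoc]
      exact h1
    have hq : ∀ q : Proj lineGr, ∃ i, ψ (h i) ∉ q.asHomogeneousIdeal := by
      intro q
      by_contra hno
      push Not at hno
      have h1 : ∀ c : Fin (k + 1) → ℂ, Θ (∑ i, c i • E.φ (h i)) ∈ q.asHomogeneousIdeal := by
        intro c
        rw [map_sum]
        have h2 := MN1_sum q.asHomogeneousIdeal.toIdeal (fun i => ψ (h i)) c hno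
        have h3 : ∑ i, Θ (c i • E.φ (h i)) = ∑ i, c i • ψ (h i) :=
          Finset.sum_congr rfl fun i _ => map_smul _ _ _
        rw [h3]
        exact h2
      rcases hΘq q with h2 | h2
      · exact h2 (h1 α)
      · exact h2 (h1 β)
    have hdeg : 0 < 2 * E.c := by have := E.c_pos; omega
    obtain ⟨F, hFs, hF⟩ := hPMAP 𝒜 lineGr ψ (2 * E.c) hdeg hψgr (by
      intro q
      obtain ⟨i, hi⟩ := hq q
      exact ⟨n, hn, h i, (hh i).1, hi⟩)
    obtain ⟨q0, hq0⟩ := hP1.1 ![0, 1] (by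
      intro h; have := congrFun h 1; simp at this)
    obtain ⟨q1, hq1⟩ := hP1.1 ![1, 0] (by
      intro h; have := congrFun h 0; simp at this)
    have hF0 : ∀ n, ∀ b ∈ 𝒜 n, b ∈ (F q0).asHomogeneousIdeal ↔
        MvPolynomial.eval zx (E.φ b) = 0 := by
      intro n b hb
      rw [hF q0 n b hb, hq0 _ _ (hψgr n b hb), ← hΘ0]
      rfl
    have hF1 : ∀ n, ∀ b ∈ 𝒜 n, b ∈ (F q1).asHomogeneousIdeal ↔
        MvPolynomial.eval z (E.φ b) = 0 := by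
      intro n b hb
      rw [hF q1 n b hb, hq1 _ _ (hψgr n b hb), ← hΘ1]
      rfl
    have hfx : F q0 = x := by
      apply Pool.TVar.helper73.point_ext
      intro n b hb
      rw [hF0 n b hb, hzx n b hb]
    have hsm : ∀ q, IsSmoothPt (structMap 𝒜) (F q) := by
      intro q
      obtain ⟨i, hi⟩ := hq q
      refine (hh i).2.2 (F q) fun hmem => hi ?_
      exact (hF q _ _ (hh i).1).mp hmem
    rcases hz with ⟨hxy, rfl⟩ | ⟨rfl, n', b, hb, hb1, hb2⟩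
    · have hfy : F q1 = y := by
        apply Pool.TVar.helper73.point_ext
        intro n b hb
        rw [hF1 n b hb, hzy n b hb]
      exact ⟨F, hFs, hsm, ⟨q0, q1, by rw [hfx, hfy]; exact hxy⟩, ⟨q0, hfx⟩, ⟨q1, hfy⟩⟩
    · refine ⟨F, hFs, hsm, ⟨q0, q1, ?_⟩, ⟨q0, hfx⟩, ⟨q0, hfx⟩⟩
      intro heq
      apply hb2
      rw [← hF1 n' b hb, ← heq, hF0 n' b hb]
      exact hb1

end

end Pool.GQ
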