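import Pool.Agent.Work.MP_dcf6a6_gq.Interface

/-!
# Block MN2: the theorem for rings of invariants
-/

open CategoryTheory AlgebraicGeometry Pool.TVar

namespace Pool.GQ

noncomputable section

theorem p_MN2 (hHGT : Stmt_HGT) (hNRM : Stmt_NRM) (hHTG : Stmt_HTG) (hMN1 : Stmt_MN1) :
    Stmt_MN2 := by
  intro V _ w G _ ρ hB A _ _ _ 𝒜 _ I hft hab
  obtain ⟨hinv, hic⟩ := hNRM V w G ρ A 𝒜 I
  have : IsIntegrallyClosed A := hic
  let E : GradedEmbedding w 𝒜 :=
    { φ := I.φ
      inj := I.inj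
      w_pos := I.w_pos
      c := 1
      c_pos := one_pos
      graded := fun n a ha => by
        rw [one_mul]
        exact ((I.range n _).1 ⟨a, ha, rfl⟩).1 }
  refine hMN1 V w A 𝒜 E hft ?_ hab
  intro q hq hqh
  have : (Ideal.span {q}).IsPrime := (Ideal.span_singleton_prime hq.ne_zero).2 hq
  exact (hHGT A ((Ideal.span {q}).comap I.φ) (Ideal.IsPrime.comap _)).2
    (hHTG V w G ρ hB A 𝒜 I hinv q hq hqh)

end

end Pool.GQ
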