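import Pool.Agent.Work.MP_dcf6a6_gq.Interface

set_option autoImplicit false

open CategoryTheory AlgebraicGeometry Pool.TVar

namespace Pool.GQ

/-- **NIR** -/
theorem p_NIR (hDM1 : Stmt_DM1) (hDM2 : Stmt_DM2) (hDG0 : Stmt_DG0) : Stmt_NIR := by
  intro V w A _ _ _ 𝒜 _ E hex P hP hHT
  obtain ⟨n, a, ha, b, hb, hab⟩ := hex
  by_contra hcon
  push Not at hcon
  have hpair := LinearIndependent.pair_iff.1 hab
  have h0 := hDG0 V w A 𝒜 E
  have hn : 0 < n := by
    rcases Nat.eq_zero_or_pos n with rfl | h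
    · exfalso
      obtain ⟨z1, hz1⟩ := h0 a ha
      obtain ⟨z2, hz2⟩ := h0 b hb
      have h1 : z2 • a + (-z1) • b = 0 := by
        rw [hz1, hz2, Algebra.smul_def, Algebra.smul_def, ← map_mul, ← map_mul, ← map_add]
        have : z2 * z1 + -z1 * z2 = 0 := by ring
        rw [this, map_zero]
      obtain ⟨h2, h3⟩ := hpair _ _ h1
      have h4 : (1 : ℂ) • a + (0 : ℂ) • b = 0 := by
        rw [neg_eq_zero] at h3
        rw [zero_smul, one_smul, add_zero, hz1, h3, map_zero]
      exact one_ne_zero (hpair _ _ h4).1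
    · exact h
  have hbP : b ∈ P := hcon n hn b hb
  refine hDM2 V (E.φ a) (E.φ b) ?_ ?_
  · intro z
    have hc : a + z • b ∈ 𝒜 n := (𝒜 n).add_mem ha ((𝒜 n).smul_mem z hb)
    have hc0 : a + z • b ≠ 0 := by
      intro h
      have h1 : (1 : ℂ) • a + z • b = 0 := by rw [one_smul]; exact h
      exact one_ne_zero (hpair _ _ h1).1
    obtain ⟨k, hk⟩ := hDM1 A 𝒜 h0 P hP hHT (fun m hm x hx => hcon m hm x hx) n _ hc hc0 b hbP
    refine ⟨k, ?_⟩
    have h1 := map_dvd E.φ hk
    rwa [map_add, map_smul, map_pow] at h1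
  · rw [LinearIndependent.pair_iff]
    intro s t hst
    refine hpair s t ?_
    apply E.inj
    rw [map_add, map_smul, map_smul, map_zero]
    exact hst

end Pool.GQ
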