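import Pool.Agent.Work.MP_dcf6a6_gq.Interface

set_option autoImplicit false

open CategoryTheory AlgebraicGeometry Pool.TVar

namespace Pool.GQ

open MvPolynomial in
theorem NRM_comp {V : Type} (w : V → ℕ) (σ : SS V →ₐ[ℂ] SS V)
    (hσ : ∀ n P, P.IsWeightedHomogeneous w n → (σ P).IsWeightedHomogeneous w n) (P : SS V) (n : ℕ) :
    weightedHomogeneousComponent w n (σ P) = σ (weightedHomogeneousComponent w n P) := by
  classical
  have hfin := weightedHomogeneousComponent_finsupp (w := w) P
  have hsum : P = ∑ m ∈ hfin.toFinset, weightedHomogeneousComponent w m P := by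
    rw [← finsum_eq_sum _ hfin]
    exact (sum_weightedHomogeneousComponent w P).symm
  have h1 : weightedHomogeneousComponent w n (σ P) =
      ∑ m ∈ hfin.toFinset,
        weightedHomogeneousComponent w n (σ (weightedHomogeneousComponent w m P)) := by
    conv_lhs => rw [hsum]
    rw [map_sum, map_sum]
  rw [h1]
  by_cases hn : n ∈ hfin.toFinset
  · rw [Finset.sum_eq_single n]
    · exact (hσ n _ (weightedHomogeneousComponent_isWeightedHomogeneous n
        P)).weightedHomogeneousComponent_same
    · intro m _ hmn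
      exact (hσ m _ (weightedHomogeneousComponent_isWeightedHomogeneous m
        P)).weightedHomogeneousComponent_ne n hmn.symm
    · intro h; exact absurd hn h
  · have h2 : weightedHomogeneousComponent w n P = 0 := by
      by_contra h
      exact hn (hfin.mem_toFinset.2 h)
    rw [h2, map_zero]
    refine Finset.sum_eq_zero ?_
    intro m hm
    have hmn : n ≠ m := fun h => hn (h ▸ hm)
    exact (hσ m _ (weightedHomogeneousComponent_isWeightedHomogeneous m
        P)).weightedHomogeneousComponent_ne n hmn

/-- **NRM** -/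
theorem p_NRM : Stmt_NRM := by
  intro V w G _ ρ A _ _ _ 𝒜 _ I
  have hinv : ∀ P, (∀ g, ρ g P = P) → ∃ a, I.φ a = P := by
    intro P hP
    classical
    have hfin := MvPolynomial.weightedHomogeneousComponent_finsupp (w := w) P
    have hsum : P = ∑ m ∈ hfin.toFinset, MvPolynomial.weightedHomogeneousComponent w m P := by
      rw [← finsum_eq_sum _ hfin]
      exact (MvPolynomial.sum_weightedHomogeneousComponent w P).symm
    have hm : ∀ m, ∃ a ∈ 𝒜 m, I.φ a = MvPolynomial.weightedHomogeneousComponent w m P := by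
      intro m
      refine (I.range m _).2
        ⟨MvPolynomial.weightedHomogeneousComponent_isWeightedHomogeneous m P, ?_⟩
      intro g
      have h1 := NRM_comp w ((ρ g : SS V ≃ₐ[ℂ] SS V) : SS V →ₐ[ℂ] SS V)
        (fun n P h => I.act g n P h) P m
      have h2 : ((ρ g : SS V ≃ₐ[ℂ] SS V) : SS V →ₐ[ℂ] SS V) P = P := hP g
      rw [h2] at h1
      exact h1.symm
    choose a _ ha using hm
    refine ⟨∑ m ∈ hfin.toFinset, a m, ?_⟩
    rw [map_sum]
    conv_rhs => rw [hsum]
    exact Finset.sum_congr rfl fun m _ => ha m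
  have hfix : ∀ a g, ρ g (I.φ a) = I.φ a := by
    intro a g
    classical
    have hsum := DirectSum.sum_support_decompose 𝒜 a
    have h1 : ∀ m, ρ g (I.φ (DirectSum.decompose 𝒜 a m : A)) =
        I.φ (DirectSum.decompose 𝒜 a m : A) := by
      intro m
      exact ((I.range m _).1 ⟨_, (DirectSum.decompose 𝒜 a m).2, rfl⟩).2 g
    conv_lhs => rw [← hsum]
    conv_rhs => rw [← hsum]
    rw [map_sum, map_sum]
    exact Finset.sum_congr rfl fun m _ => h1 m
  refine ⟨hinv, ?_⟩
  rw [isIntegrallyClosed_iff (FractionRing A)]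
  intro x hx
  have hinj : Function.Injective
      ((algebraMap (SS V) (FractionRing (SS V))).comp (I.φ : A →+* SS V)) :=
    (IsFractionRing.injective (SS V) (FractionRing (SS V))).comp I.inj
  let ψ : FractionRing A →+* FractionRing (SS V) := IsFractionRing.lift hinj
  have hψ : ∀ a : A, ψ (algebraMap A (FractionRing A) a) =
      algebraMap (SS V) (FractionRing (SS V)) (I.φ a) := fun a =>
    IsFractionRing.lift_algebraMap hinj a
  have hint : IsIntegral (SS V) (ψ x) := by
    obtain ⟨p, hp, hpx⟩ := hx
    refine ⟨p.map (I.φ : A →+* SS V), hp.map _, ?_⟩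
    rw [Polynomial.eval₂_map]
    have h1 := congrArg ψ hpx
    rw [Polynomial.hom_eval₂, map_zero] at h1
    have h2 : ψ.comp (algebraMap A (FractionRing A)) =
        (algebraMap (SS V) (FractionRing (SS V))).comp (I.φ : A →+* SS V) := by
      ext a
      exact hψ a
    rwa [h2] at h1
  obtain ⟨s, hs⟩ := (IsIntegrallyClosed.isIntegral_iff (R := SS V)).1 hint
  obtain ⟨a, b, hb, hab⟩ := IsFractionRing.div_surjective (A := A) x
  have hb0 : b ≠ 0 := nonZeroDivisors.ne_zero hb
  have hb1 : I.φ b ≠ 0 := by
    intro h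
    exact hb0 (I.inj (by rw [h, map_zero]))
  have hsb : s * I.φ b = I.φ a := by
    apply IsFractionRing.injective (SS V) (FractionRing (SS V))
    rw [map_mul, hs, ← hψ, ← hψ, ← map_mul, ← hab]
    congr 1
    have hb2 : algebraMap A (FractionRing A) b ≠ 0 := by
      intro h
      exact hb0 (IsFractionRing.injective A (FractionRing A) (by rw [h, map_zero]))
    rw [div_mul_cancel₀ _ hb2]
  have hsinv : ∀ g, ρ g s = s := by
    intro g
    have h1 := congrArg (ρ g) hsb
    rw [map_mul, hfix, hfix, ← hsb] at h1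
    exact mul_right_cancel₀ hb1 h1
  obtain ⟨c, hc⟩ := hinv s hsinv
  refine ⟨c, ?_⟩
  apply ψ.injective
  rw [hψ, hc, hs]

end Pool.GQ
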