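import Pool.Agent.Work.MP_dcf6a6_gq.Interface
import Pool.Agent.Work.MP_dcf6a6_tv_helper73.PTS

/-!
# Block PNT: closed points lift to affine space
-/

open CategoryTheory AlgebraicGeometry Pool.TVar

namespace Pool.GQ

noncomputable section

/-- the homomorphism of localizations -/
abbrev PNT_map {A S : Type} [CommRing A] [CommRing S] (φ : A →+* S) (h : A) :
    Localization.Away h →+* Localization.Away (φ h) :=
  IsLocalization.Away.map (Localization.Away h) (Localization.Away (φ h)) φ h

theorem PNT_map_alg {A S : Type} [CommRing A] [CommRing S] (φ : A →+* S) (h a : A) :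
    PNT_map φ h (algebraMap A (Localization.Away h) a) =
      algebraMap S (Localization.Away (φ h)) (φ a) := by
  unfold PNT_map IsLocalization.Away.map
  rw [IsLocalization.map_eq]

theorem PNT_inj {A S : Type} [CommRing A] [CommRing S] [IsDomain S] (φ : A →+* S)
    (hφ : Function.Injective φ) (h : A) (hh : φ h ≠ 0) : Function.Injective (PNT_map φ h) := by
  rw [injective_iff_map_eq_zero]
  intro z hz
  obtain ⟨n, a, ha⟩ := IsLocalization.Away.surj h z
  have h1 := congrArg (PNT_map φ h) ha
  rw [map_mul, hz, zero_mul, PNT_map_alg] at h1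
  have h2 : φ a = 0 := by
    apply IsLocalization.injective (Localization.Away (φ h))
      (powers_le_nonZeroDivisors_of_noZeroDivisors hh)
    rw [← h1, map_zero]
  have h3 : a = 0 := hφ (by rw [h2, map_zero])
  rw [h3, map_zero] at ha
  have h4 : IsUnit (algebraMap A (Localization.Away h) h ^ n) :=
    (IsLocalization.Away.algebraMap_isUnit h).pow n
  exact (h4.mul_left_eq_zero).1 ha

theorem PNT_val {A : Type} [CommRing A] [Algebra ℂ A] (𝒜 : ℕ → Submodule ℂ A) [GradedAlgebra 𝒜]
    (g : A) (c : ℂ) : (strAway 𝒜 g c).val =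
      algebraMap A (Localization.Away g) (algebraMap ℂ A c) := by
  change (HomogeneousLocalization.mk _).val = _
  rw [HomogeneousLocalization.val_mk]
  exact Localization.mk_one_eq_algebraMap _

theorem p_PNT (hEXT : Stmt_EXT) (hAFT : Stmt_AFT) (hDG0 : Stmt_DG0) : Stmt_PNT := by
  intro V _ w A _ _ _ 𝒜 _ E hft m h hm hmpos hh0
  classical
  set φ : A →+* SS V := (E.φ : A →+* SS V) with hφ
  have hinj : Function.Injective φ := E.inj
  have hφh : φ h ≠ 0 := by
    intro h0
    exact hh0 (hinj (by rw [h0, map_zero]))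
  let _ : Algebra ℂ (HomogeneousLocalization.Away 𝒜 h) := (strAway 𝒜 h).toAlgebra
  have hd1 : IsDomain (Localization.Away h) :=
    IsLocalization.isDomain_localization (powers_le_nonZeroDivisors_of_noZeroDivisors hh0)
  have hd2 : IsDomain (Localization.Away (φ h)) :=
    IsLocalization.isDomain_localization (powers_le_nonZeroDivisors_of_noZeroDivisors hφh)
  have hinjB : Function.Injective
      (algebraMap (HomogeneousLocalization.Away 𝒜 h) (Localization.Away h)) :=
    fun x y hxy => HomogeneousLocalization.val_injective _ hxy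
  have hdB : IsDomain (HomogeneousLocalization.Away 𝒜 h) :=
    hinjB.isDomain (algebraMap (HomogeneousLocalization.Away 𝒜 h) (Localization.Away h))
  have hfB : Algebra.FiniteType ℂ (HomogeneousLocalization.Away 𝒜 h) :=
    hAFT A 𝒜 hft (hDG0 V w A 𝒜 E) m h hm hmpos
  have hfS : Algebra.FiniteType ℂ (Localization.Away (φ h)) :=
    Algebra.FiniteType.trans (inferInstance : Algebra.FiniteType ℂ (SS V))
      (IsLocalization.finiteType_of_monoid_fg (Submonoid.powers (φ h)) _)
  -- the embedding
  let θ : HomogeneousLocalization.Away 𝒜 h →ₐ[ℂ] Localization.Away (φ h) :=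
    { (PNT_map φ h).comp
        (algebraMap (HomogeneousLocalization.Away 𝒜 h) (Localization.Away h)) with
      commutes' := fun c => by
        change PNT_map φ h (strAway 𝒜 h c).val = algebraMap ℂ (Localization.Away (φ h)) c
        rw [PNT_val, PNT_map_alg,
          IsScalarTower.algebraMap_apply ℂ (SS V) (Localization.Away (φ h))]
        congr 1
        exact E.φ.commutes c }
  have hθ : ∀ z, θ z = PNT_map φ h z.val := fun z => rfl
  have hθinj : Function.Injective θ := (PNT_inj φ hinj h hφh).comp hinjB
  obtain ⟨b, hb0, hb⟩ := hEXT _ _ hfB hfS θ hθinj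
  obtain ⟨k, c, hc, rfl⟩ := HomogeneousLocalization.Away.mk_surjective 𝒜 hm b
  have hc0 : c ≠ 0 := by
    rintro rfl
    apply hb0
    apply HomogeneousLocalization.val_injective
    rw [HomogeneousLocalization.Away.val_mk, HomogeneousLocalization.val_zero,
      Localization.mk_zero]
  have hch : c * h ∈ 𝒜 ((k + 1) * m) := by
    have h1 := SetLike.mul_mem_graded hc hm
    have h2 : k • m + m = (k + 1) * m := by rw [smul_eq_mul]; ring
    rwa [h2] at h1
  have hpos : 0 < (k + 1) * m := Nat.mul_pos (Nat.succ_pos k) hmpos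
  refine ⟨(k + 1) * m, hpos, c * h, hch, mul_ne_zero hc0 hh0, ?_⟩
  intro x hx hxc
  have hxh : h ∉ x.asHomogeneousIdeal := fun hmem =>
    hx (x.asHomogeneousIdeal.toIdeal.mul_mem_left c hmem)
  -- the point of the spectrum
  have hrange : x ∈ (Proj.awayι 𝒜 h hm hmpos).opensRange := by
    rw [Proj.opensRange_awayι]; exact hxh
  obtain ⟨p, hp⟩ := hrange
  have hpc : IsClosed ({p} : Set (PrimeSpectrum (HomogeneousLocalization.Away 𝒜 h))) := by
    have h1 : IsClosed ((Proj.awayι 𝒜 h hm hmpos) ⁻¹' {x}) :=
      hxc.preimage (Proj.awayι 𝒜 h hm hmpos).continuous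
    have h2 : (Proj.awayι 𝒜 h hm hmpos) ⁻¹' {x} = {p} := by
      ext q
      simp only [Set.mem_preimage, Set.mem_singleton_iff]
      constructor
      · intro h
        exact (Proj.awayι 𝒜 _ hm hmpos).isOpenEmbedding.injective (h.trans hp.symm)
      · rintro rfl; exact hp
    rw [h2] at h1
    exact h1
  have hmax : p.asIdeal.IsMaximal := (PrimeSpectrum.isClosed_singleton_iff_isMaximal p).mp hpc
  obtain ⟨χ, hχ⟩ := Pool.TVar.helper73.exists_char p.asIdeal hmax
  have h1' : ∀ n, 0 < n → ∀ a (ha : a ∈ 𝒜 n), a ∈ x.asHomogeneousIdeal ↔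
      χ (HomogeneousLocalization.Away.isLocalizationElem hm ha) = 0 := by
    intro n hn a ha
    have h1 : x ∈ Proj.basicOpen 𝒜 a ↔
        p ∈ PrimeSpectrum.basicOpen (HomogeneousLocalization.Away.isLocalizationElem hm ha) := by
      rw [← Proj.awayι_preimage_basicOpen 𝒜 hm hmpos ha hn, ← hp]
      rfl
    rw [Proj.mem_basicOpen] at h1
    have h2 : p ∈ PrimeSpectrum.basicOpen (HomogeneousLocalization.Away.isLocalizationElem hm ha) ↔
        HomogeneousLocalization.Away.isLocalizationElem hm ha ∉ p.asIdeal := Iff.rfl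
    rw [h2, not_iff_not, ← hχ] at h1
    exact h1
  -- `χ b` is not zero
  have hχb : χ (HomogeneousLocalization.Away.mk 𝒜 hm k c hc) ≠ 0 := by
    intro h0
    apply hx
    rw [h1' _ hpos _ hch]
    have h2 : HomogeneousLocalization.Away.isLocalizationElem hm hch =
        (HomogeneousLocalization.Away.mk 𝒜 hm k c hc) ^ m := by
      apply HomogeneousLocalization.val_injective
      rw [HomogeneousLocalization.val_pow, HomogeneousLocalization.Away.val_mk,
        HomogeneousLocalization.Away.val_mk, Localization.mk_pow, Localization.mk_eq_mk_iff,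
        Localization.r_iff_exists]
      refine ⟨1, ?_⟩
      simp only [OneMemClass.coe_one, one_mul, SubmonoidClass.mk_pow]
      ring
    rw [h2, map_pow, h0, zero_pow hmpos.ne']
  obtain ⟨χ', hχ'⟩ := hb χ hχb
  -- the point of affine space
  let e : SS V →ₐ[ℂ] ℂ := χ'.comp (IsScalarTower.toAlgHom ℂ (SS V) (Localization.Away (φ h)))
  have he : ∀ P, e P = χ' (algebraMap (SS V) (Localization.Away (φ h)) P) := fun P => rfl
  have heval : ∀ P, MvPolynomial.eval (fun v => e (MvPolynomial.X v)) P = e P := by
    intro P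
    have h2 : MvPolynomial.aeval (fun v => e (MvPolynomial.X v)) = e := by
      apply MvPolynomial.algHom_ext
      intro v
      rw [MvPolynomial.aeval_X]
    exact (RingHom.congr_fun (MvPolynomial.coe_aeval_eq_eval
      (fun v => e (MvPolynomial.X v))) P).symm.trans (DFunLike.congr_fun h2 P)
  have heg : e (φ h) ≠ 0 := by
    rw [he]
    exact ((IsLocalization.Away.algebraMap_isUnit (φ h)).map χ').ne_zero
  have key : ∀ n, 0 < n → ∀ a ∈ 𝒜 n, a ∈ x.asHomogeneousIdeal ↔ e (φ a) = 0 := by
    intro n hn a ha
    rw [h1' n hn a ha]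
    have h3 : (HomogeneousLocalization.Away.isLocalizationElem hm ha).val *
        algebraMap A (Localization.Away h) (h ^ n) =
          algebraMap A (Localization.Away h) (a ^ m) := by
      rw [HomogeneousLocalization.Away.val_mk, Localization.mk_eq_mk']
      exact IsLocalization.mk'_spec _ _ _
    have h4 := congrArg (PNT_map φ h) h3
    rw [map_mul, ← hθ, PNT_map_alg, PNT_map_alg] at h4
    have h5 := congrArg χ' h4
    rw [map_mul, hχ', ← he, ← he, map_pow, map_pow, map_pow, map_pow] at h5
    have h6 : e (φ h) ^ n ≠ 0 := pow_ne_zero _ heg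
    constructor
    · intro h7
      rw [h7, zero_mul] at h5
      exact (pow_eq_zero_iff hmpos.ne').mp h5.symm
    · intro h7
      rw [h7, zero_pow hmpos.ne'] at h5
      exact (mul_eq_zero.mp h5).resolve_right h6
  refine ⟨fun v => e (MvPolynomial.X v), ?_⟩
  intro n a ha
  rw [heval]
  change a ∈ x.asHomogeneousIdeal ↔ e (φ a) = 0
  rcases Nat.eq_zero_or_pos n with rfl | hn
  · have h1 : a * h ∈ 𝒜 m := by
      have := SetLike.mul_mem_graded ha hm
      simpa using this
    have h2 := key m hmpos (a * h) h1
    rw [map_mul, map_mul] at h2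
    constructor
    · intro h3
      have h4 := h2.mp (x.asHomogeneousIdeal.toIdeal.mul_mem_right h h3)
      exact (mul_eq_zero.mp h4).resolve_right heg
    · intro h3
      rw [h3, zero_mul] at h2
      have h4 := h2.mpr rfl
      exact (x.isPrime.mem_or_mem h4).resolve_right hxh
  · exact key n hn a ha

end

end Pool.GQ
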