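import Pool.Agent.Work.MP_dcf6a6_gq.Interface

/-!
# Block PTQ (helper87): points of the projective line
-/

open CategoryTheory AlgebraicGeometry Pool.TVar

namespace Pool.GQ

noncomputable section

open MvPolynomial in
theorem PTQ_hl (t : ℂ) : (Polynomial.X - Polynomial.C t).homogenize 1 = X 0 - C t * X 1 := by
  rw [Polynomial.homogenize_sub, Polynomial.homogenize_C, Polynomial.homogenize_X one_ne_zero]
  simp

open MvPolynomial in
theorem PTQ_lin (q : Ideal (MvPolynomial (Fin 2) ℂ)) (hq : q.IsPrime) (h1 : X 1 ∉ q) :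
    ∀ (m : ℕ) (f : Polynomial ℂ), f.natDegree ≤ m → f ≠ 0 → f.homogenize m ∈ q →
      ∃ t : ℂ, X 0 - C t * X 1 ∈ q := by
  have hconst : ∀ (m : ℕ) (a : ℂ), a ≠ 0 → C a * X 1 ^ m ∈ q → False := by
    intro m a ha hm
    rcases hq.mem_or_mem hm with h | h
    · apply hq.ne_top
      rw [Ideal.eq_top_iff_one]
      have h2 := q.mul_mem_left (C a⁻¹) h
      rw [← C_mul, inv_mul_cancel₀ ha, C_1] at h2
      exact h2
    · exact h1 (hq.mem_of_pow_mem m h)
  intro m
  induction m with
  | zero =>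
    intro f hf hf0 hfq
    rw [Polynomial.eq_C_of_natDegree_le_zero hf, Polynomial.homogenize_C] at hfq
    refine (hconst 0 _ ?_ hfq).elim
    intro h
    apply hf0
    rw [Polynomial.eq_C_of_natDegree_le_zero hf, h, Polynomial.C_0]
  | succ m ih =>
    intro f hf hf0 hfq
    by_cases hd : f.natDegree = 0
    · rw [Polynomial.eq_C_of_natDegree_eq_zero hd, Polynomial.homogenize_C] at hfq
      refine (hconst (m + 1) _ ?_ hfq).elim
      intro h
      apply hf0
      rw [Polynomial.eq_C_of_natDegree_eq_zero hd, h, Polynomial.C_0]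
    · obtain ⟨t, ht⟩ := IsAlgClosed.exists_root f (by
        intro h
        rw [Polynomial.degree_eq_natDegree hf0] at h
        exact hd (by exact_mod_cast h))
      obtain ⟨g, hg⟩ := Polynomial.dvd_iff_isRoot.mpr ht
      have hg0 : g ≠ 0 := by
        rintro rfl
        rw [mul_zero] at hg
        exact hf0 hg
      have hgd : g.natDegree ≤ m := by
        have h2 := congrArg Polynomial.natDegree hg
        rw [Polynomial.natDegree_mul (Polynomial.X_sub_C_ne_zero t) hg0,
          Polynomial.natDegree_X_sub_C] at h2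
        omega
      rw [hg, add_comm m 1, Polynomial.homogenize_mul _ _ (by rw [Polynomial.natDegree_X_sub_C]) hgd,
        PTQ_hl] at hfq
      rcases hq.mem_or_mem hfq with h | h
      · exact ⟨t, h⟩
      · exact ih g hgd hg0 h

open MvPolynomial in
theorem PTQ_deg (G : MvPolynomial (Fin 2) ℂ) (n : ℕ) (hG : G.IsHomogeneous n) :
    (aeval ![(Polynomial.X : Polynomial ℂ), 1] G).natDegree ≤ n := by
  have h := MvPolynomial.aeval_natDegree_le (m := n) (n := 1) G (hG.totalDegree_le)
    ![(Polynomial.X : Polynomial ℂ), 1] (by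
      intro i
      fin_cases i
      · simp
      · simp)
  simpa using h

open MvPolynomial in
theorem PTQ_val (q : Ideal (MvPolynomial (Fin 2) ℂ)) (hq : q.IsPrime) (h1 : X 1 ∉ q) (t : ℂ)
    (ht : X 0 - C t * X 1 ∈ q) (n : ℕ) (G : MvPolynomial (Fin 2) ℂ) (hG : G.IsHomogeneous n)
    (hGq : G ∈ q) : eval ![t, 1] G = 0 := by
  obtain ⟨g, hg⟩ : ∃ g, g = aeval ![(Polynomial.X : Polynomial ℂ), 1] G := ⟨_, rfl⟩
  have hgd : g.natDegree ≤ n := by rw [hg]; exact PTQ_deg G n hG
  have hGg : g.homogenize n = G := Polynomial.homogenize_eq_of_isHomogeneous hG hg.symm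
  have hev : eval ![t, 1] G = g.eval t := by
    rw [← hGg]
    exact Polynomial.eval₂_homogenize_of_eq_one hgd (RingHom.id ℂ) ![t, 1] (by simp)
  rw [hev]
  by_contra hne
  have hconst : ∀ (m : ℕ) (a : ℂ), a ≠ 0 → C a * X 1 ^ m ∈ q → False := by
    intro m a ha hm
    rcases hq.mem_or_mem hm with h | h
    · apply hq.ne_top
      rw [Ideal.eq_top_iff_one]
      have h2 := q.mul_mem_left (C a⁻¹) h
      rw [← C_mul, inv_mul_cancel₀ ha, C_1] at h2
      exact h2
    · exact h1 (hq.mem_of_pow_mem m h)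
  apply hconst n (g.eval t) hne
  obtain ⟨h, hh⟩ := Polynomial.X_sub_C_dvd_sub_C_eval (a := t) (p := g)
  rcases Nat.eq_zero_or_pos n with hn | hn
  · have h2 : g = Polynomial.C (g.coeff 0) := Polynomial.eq_C_of_natDegree_le_zero (by omega)
    have h3 : g.eval t = g.coeff 0 := by
      conv_lhs => rw [h2]
      rw [Polynomial.eval_C]
    rw [← hGg, h2, Polynomial.homogenize_C] at hGq
    rw [h3]
    exact hGq
  · obtain ⟨k, rfl⟩ : ∃ k, n = 1 + k := ⟨n - 1, by omega⟩
    have hgg : g = (Polynomial.X - Polynomial.C t) * h + Polynomial.C (g.eval t) := by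
      linear_combination hh
    have hhd : h.natDegree ≤ k := by
      by_cases h0 : h = 0
      · rw [h0]; simp
      · have h2 : (g - Polynomial.C (g.eval t)).natDegree ≤ 1 + k := by
          refine (Polynomial.natDegree_sub_le _ _).trans ?_
          rw [Polynomial.natDegree_C]
          exact max_le hgd (Nat.zero_le _)
        rw [hh, Polynomial.natDegree_mul (Polynomial.X_sub_C_ne_zero t) h0,
          Polynomial.natDegree_X_sub_C] at h2
        omega
    have h4 : G = (X 0 - C t * X 1) * h.homogenize k + C (g.eval t) * X 1 ^ (1 + k) := by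
      rw [← hGg]
      conv_lhs => rw [hgg]
      rw [Polynomial.homogenize_add, Polynomial.homogenize_C,
        Polynomial.homogenize_mul _ _ (by rw [Polynomial.natDegree_X_sub_C]) hhd, PTQ_hl]
    have h5 : C (g.eval t) * X 1 ^ (1 + k) = G - (X 0 - C t * X 1) * h.homogenize k := by
      linear_combination - h4
    rw [h5]
    exact q.sub_mem hGq (q.mul_mem_right _ ht)

open MvPolynomial in
theorem PTQ_main (q : Ideal (MvPolynomial (Fin 2) ℂ)) (hq : q.IsPrime) (h1 : X 1 ∉ q) (m n : ℕ)
    (F G : MvPolynomial (Fin 2) ℂ) (hF : F.IsHomogeneous m) (hG : G.IsHomogeneous n) (hF0 : F ≠ 0)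
    (hFq : F ∈ q) (hGq : G ∈ q) : ∃ t : ℂ, eval ![t, 1] F = 0 ∧ eval ![t, 1] G = 0 := by
  obtain ⟨f, hf⟩ : ∃ g, g = aeval ![(Polynomial.X : Polynomial ℂ), 1] F := ⟨_, rfl⟩
  have hFf : f.homogenize m = F := Polynomial.homogenize_eq_of_isHomogeneous hF hf.symm
  obtain ⟨t, ht⟩ := PTQ_lin q hq h1 m f (by rw [hf]; exact PTQ_deg F m hF) (by
    rintro rfl
    rw [Polynomial.homogenize_zero] at hFf
    exact hF0 hFf.symm) (by rw [hFf]; exact hFq)
  exact ⟨t, PTQ_val q hq h1 t ht m F hF hFq, PTQ_val q hq h1 t ht n G hG hGq⟩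

lemma PTQ_proj_zero (F : MvPolynomial (Fin 2) ℂ) :
    GradedRing.proj lineGr 0 F = MvPolynomial.C (MvPolynomial.coeff 0 F) := by
  rw [GradedRing.proj_apply]
  exact (MvPolynomial.decomposition.decompose'_apply F 0).trans
    (MvPolynomial.homogeneousComponent_zero F)

lemma PTQ_var (q : Proj lineGr) : MvPolynomial.X 0 ∉ q.asHomogeneousIdeal ∨
    MvPolynomial.X 1 ∉ q.asHomogeneousIdeal := by
  by_contra hcon
  push Not at hcon
  apply q.not_irrelevant_le
  intro F hF
  have h0 : MvPolynomial.coeff 0 F = 0 := by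
    have h1 : GradedRing.proj lineGr 0 F = 0 := (HomogeneousIdeal.mem_irrelevant_iff lineGr F).mp hF
    rw [PTQ_proj_zero] at h1
    exact MvPolynomial.C_injective (Fin 2) ℂ (by rw [h1, map_zero])
  have h1 : F ∈ Ideal.span (MvPolynomial.X '' (Set.univ : Set (Fin 2)) :
      Set (MvPolynomial (Fin 2) ℂ)) := by
    rw [MvPolynomial.mem_ideal_span_X_image]
    intro m hm
    by_contra h
    push Not at h
    have hm0 : m = 0 := by
      ext i
      simpa using h i (Set.mem_univ i)
    rw [hm0, MvPolynomial.mem_support_iff] at hm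
    exact hm h0
  have h2 : Ideal.span (MvPolynomial.X '' (Set.univ : Set (Fin 2)) :
      Set (MvPolynomial (Fin 2) ℂ)) ≤ q.asHomogeneousIdeal.toIdeal := by
    rw [Ideal.span_le]
    rintro _ ⟨i, -, rfl⟩
    fin_cases i
    · exact hcon.1
    · exact hcon.2
  exact h2 h1

theorem p_PTQ : Stmt_PTQ := by
  intro q m n F G hF hG hF0 hFq hGq
  have hq : q.asHomogeneousIdeal.toIdeal.IsPrime := q.isPrime
  have hF' : F.IsHomogeneous m := hF
  have hG' : G.IsHomogeneous n := hG
  rcases PTQ_var q with h0 | h1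
  · let σ : MvPolynomial (Fin 2) ℂ ≃ₐ[ℂ] MvPolynomial (Fin 2) ℂ :=
      MvPolynomial.renameEquiv ℂ (Equiv.swap (0 : Fin 2) 1)
    have hσ : ∀ P, σ P = MvPolynomial.rename (Equiv.swap (0 : Fin 2) 1) P := fun P => rfl
    have hσσ : ∀ P, σ (σ P) = P := by
      intro P
      rw [hσ, hσ, MvPolynomial.rename_rename]
      have : ((Equiv.swap (0 : Fin 2) 1) : Fin 2 → Fin 2) ∘ (Equiv.swap (0 : Fin 2) 1) = id := by
        funext i
        simp
      rw [this, MvPolynomial.rename_id_apply]
    have hhom : ∀ (P : MvPolynomial (Fin 2) ℂ) (k : ℕ), P.IsHomogeneous k → (σ P).IsHomogeneous k := by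
      intro P k hP
      rw [hσ]
      exact hP.rename_isHomogeneous
    have hq' : (Ideal.comap σ.toRingEquiv.toRingHom q.asHomogeneousIdeal.toIdeal).IsPrime :=
      Ideal.IsPrime.comap _
    have hmem : ∀ P, P ∈ Ideal.comap σ.toRingEquiv.toRingHom q.asHomogeneousIdeal.toIdeal ↔
        σ P ∈ q.asHomogeneousIdeal.toIdeal := fun P => Iff.rfl
    obtain ⟨t, h1, h2⟩ := PTQ_main _ hq' (by
      rw [hmem, hσ, MvPolynomial.rename_X, Equiv.swap_apply_right]
      exact h0) m n (σ F) (σ G) (hhom F m hF') (hhom G n hG') (by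
        intro h
        exact hF0 (σ.injective (by rw [h, map_zero]))) (by rw [hmem, hσσ]; exact hFq)
        (by rw [hmem, hσσ]; exact hGq)
    have hev : ∀ P, MvPolynomial.eval ![t, 1] (σ P) = MvPolynomial.eval ![1, t] P := by
      intro P
      rw [hσ, MvPolynomial.eval_rename]
      congr 1
      congr 1
      funext i
      fin_cases i
      · simp
      · simp
    refine ⟨![1, t], ?_, ?_, ?_⟩
    · intro h
      have := congrFun h 0
      simp at this
    · rw [← hev]; exact h1
    · rw [← hev]; exact h2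
  · obtain ⟨t, h2, h3⟩ := PTQ_main _ hq h1 m n F G hF' hG' hF0 hFq hGq
    refine ⟨![t, 1], ?_, h2, h3⟩
    intro h
    have := congrFun h 1
    simp at this

end

end Pool.GQ
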