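import Pool.Agent.Work.MP_dcf6a6_gq.Interface

set_option autoImplicit false

namespace Pool.GQ

open CategoryTheory AlgebraicGeometry Pool.TVar

theorem p_PZM : Stmt_PZM := by
  intro A _ _ _ 𝒜 _ P hP m h hh hhP
  have hdisj : Disjoint ((Submonoid.powers h : Submonoid A) : Set A) (P : Set A) := by
    rw [Set.disjoint_left]
    rintro x ⟨k, rfl⟩ hx
    exact hhP (hP.mem_of_pow_mem k hx)
  constructor
  · have h1 : (P.map (algebraMap A (Localization.Away h))).IsPrime :=
      IsLocalization.isPrime_of_isPrime_disjoint (Submonoid.powers h) (Localization.Away h) P hP hdisj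
    exact Ideal.comap_isPrime _ _
  · intro k c hc
    have h2 : HomogeneousLocalization.Away.mk 𝒜 hh k c hc ∈ pz 𝒜 P h ↔
        (IsLocalization.mk' (Localization.Away h) c
          (⟨h ^ k, ⟨k, rfl⟩⟩ : Submonoid.powers h)) ∈ P.map (algebraMap A (Localization.Away h)) := by
      unfold pz
      rw [Ideal.mem_comap, HomogeneousLocalization.algebraMap_apply,
        HomogeneousLocalization.Away.val_mk, Localization.mk_eq_mk']
    rw [h2, IsLocalization.mk'_mem_map_algebraMap_iff (Submonoid.powers h)]
    constructor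
    · rintro ⟨s, ⟨j, rfl⟩, hs⟩
      rcases hP.mem_or_mem hs with h3 | h3
      · exact absurd (hP.mem_of_pow_mem j h3) hhP
      · exact h3
    · intro hcP
      exact ⟨1, Submonoid.one_mem _, by rwa [one_mul]⟩

end Pool.GQ
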