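import Pool.Agent.Work.MP_dcf6a6_gq.Interface

set_option autoImplicit false

/-! # Block SM0: generic smoothness -/

open CategoryTheory AlgebraicGeometry Pool.TVar

namespace Pool.GQ

theorem p_SM0 : Stmt_SM0 := by
  intro R _ _ _ hR
  have hM : (⊥ : Ideal R).primeCompl = nonZeroDivisors R := by
    ext x
    rw [mem_nonZeroDivisors_iff_ne_zero]
    exact Iff.rfl
  haveI : IsLocalization (nonZeroDivisors R) (Localization.AtPrime (⊥ : Ideal R)) := by
    rw [← hM]
    infer_instance
  let e : FractionRing R ≃ₐ[R] Localization.AtPrime (⊥ : Ideal R) :=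
    IsLocalization.algEquiv (nonZeroDivisors R) _ _
  haveI : Algebra.EssFiniteType R (FractionRing R) :=
    Algebra.EssFiniteType.of_isLocalization (FractionRing R) (nonZeroDivisors R)
  haveI : Algebra.EssFiniteType ℂ (FractionRing R) := Algebra.EssFiniteType.comp ℂ R (FractionRing R)
  haveI : Algebra.FormallySmooth ℂ (FractionRing R) := inferInstance
  haveI : Algebra.FormallySmooth ℂ (Localization.AtPrime (⊥ : Ideal R)) :=
    Algebra.FormallySmooth.of_equiv (e.restrictScalars ℂ)
  haveI : Algebra.FinitePresentation ℂ R := Algebra.FinitePresentation.of_finiteType.1 hR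
  obtain ⟨h, hh, hs⟩ := Algebra.IsSmoothAt.exists_notMem_smooth ℂ (⊥ : Ideal R)
  exact ⟨h, fun h0 => hh (by rw [h0]; exact Ideal.zero_mem _), hs⟩

end Pool.GQ
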