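import Pool.Agent.Work.MP_dcf6a6_gq.Interface

/-!
# Block SM1: smoothness at a principal prime ideal
-/

open CategoryTheory AlgebraicGeometry Pool.TVar

namespace Pool.GQ

noncomputable section

open Polynomial TensorProduct

/-- generic smoothness -/
theorem SM1_zero (R : Type) [CommRing R] [IsDomain R] [Algebra ℂ R]
    (hR : Algebra.FiniteType ℂ R) :
    ∃ h : R, h ≠ 0 ∧ Algebra.Smooth ℂ (Localization.Away h) := by
  have := hR
  have : Algebra.FinitePresentation ℂ R := Algebra.FinitePresentation.of_finiteType.mp hR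
  have : Algebra.IsSmoothAt ℂ (⊥ : Ideal R) := by
    have : Algebra.EssFiniteType ℂ (FractionRing R) :=
      Algebra.EssFiniteType.comp ℂ R (FractionRing R)
    have : Algebra.FormallySmooth ℂ (FractionRing R) := inferInstance
    have : IsLocalization.AtPrime (FractionRing R) (⊥ : Ideal R) := by
      unfold IsLocalization.AtPrime
      rw [Ideal.primeCompl_bot]
      infer_instance
    let e : FractionRing R ≃ₐ[R] Localization.AtPrime (⊥ : Ideal R) :=
      IsLocalization.algEquiv (⊥ : Ideal R).primeCompl _ _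
    exact Algebra.FormallySmooth.of_equiv (e.restrictScalars ℂ)
  obtain ⟨f, hf, h⟩ := Algebra.IsSmoothAt.exists_notMem_smooth ℂ (⊥ : Ideal R)
  exact ⟨f, by simpa using hf, h⟩

/-- a prime element is transcendental -/
theorem SM1_transc (S : Type) [CommRing S] [IsDomain S] [Algebra ℂ S] (b : S) (hb : Prime b) :
    Function.Injective (aeval b : ℂ[X] →ₐ[ℂ] S) := by
  by_contra hinj
  have halg : IsAlgebraic ℂ b := by
    by_contra h
    exact hinj (transcendental_iff_injective.mp h)
  have hint : IsIntegral ℂ b := halg.isIntegral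
  have h1 := IsAlgClosed.degree_eq_one_of_irreducible ℂ (minpoly.irreducible hint)
  obtain ⟨c, hc⟩ := minpoly.mem_range_of_degree_eq_one ℂ b h1
  rcases eq_or_ne c 0 with h0 | h0
  · subst h0
    exact hb.ne_zero (by rw [← hc, map_zero])
  · exact hb.not_isUnit (by
      rw [← hc]
      exact (IsUnit.mk0 c h0).map _)

/-- the key lemma -/
theorem SM1_key (S : Type) [CommRing S] [IsDomain S] [Algebra ℂ S]
    (hS : Algebra.FiniteType ℂ S) (b : S) (hb : Prime b)
    [hq : (Ideal.span {b}).IsPrime]
    (hsm : Algebra.FormallySmooth ℂ (S ⧸ (Ideal.span {b} : Ideal S))) :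
    Algebra.IsSmoothAt ℂ (Ideal.span {b} : Ideal S) := by
  have := hS
  let : Algebra ℂ[X] S := (aeval b : ℂ[X] →ₐ[ℂ] S).toRingHom.toAlgebra
  have hmap : ∀ x : ℂ[X], algebraMap ℂ[X] S x = aeval b x := fun _ => rfl
  have : IsScalarTower ℂ ℂ[X] S := by
    refine IsScalarTower.of_algebraMap_eq fun x => ?_
    rw [hmap]
    simp
  have hinj : Function.Injective (algebraMap ℂ[X] S) := SM1_transc S b hb
  have : Module.IsTorsionFree ℂ[X] S := by
    have : FaithfulSMul ℂ[X] S := (faithfulSMul_iff_algebraMap_injective ℂ[X] S).mpr hinj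
    infer_instance
  have : Module.Flat ℂ[X] S := inferInstance
  have : Algebra.FiniteType ℂ[X] S := Algebra.FiniteType.of_restrictScalars_finiteType ℂ ℂ[X] S
  have : Algebra.FinitePresentation ℂ[X] S :=
    Algebra.FinitePresentation.of_finiteType.mp inferInstance
  -- the maximal ideal
  let p : Ideal ℂ[X] := Ideal.span {X}
  have hpm : p.IsMaximal :=
    PrincipalIdealRing.isMaximal_of_irreducible Polynomial.irreducible_X
  have hpp : p.IsPrime := hpm.isPrime
  have hmapp : p.map (algebraMap ℂ[X] S) = Ideal.span {b} := by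
    simp only [p, Ideal.map_span, Set.image_singleton, hmap, aeval_X]
  have hlies : (Ideal.span {b} : Ideal S).LiesOver p := by
    refine ⟨hpm.eq_of_le (Ideal.IsPrime.ne_top inferInstance) ?_⟩
    rw [← Ideal.map_le_iff_le_comap, hmapp]
  -- the residue field is ℂ
  have hsurj : Function.Surjective (algebraMap ℂ p.ResidueField) := by
    intro y
    obtain ⟨y, rfl⟩ := p.bijective_algebraMap_quotient_residueField.surjective y
    obtain ⟨f, rfl⟩ := Ideal.Quotient.mk_surjective y
    refine ⟨f.coeff 0, ?_⟩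
    have h1 : (Ideal.Quotient.mk p) f = (Ideal.Quotient.mk p) (C (f.coeff 0)) :=
      Ideal.Quotient.eq.mpr (Ideal.mem_span_singleton.mpr (Polynomial.X_dvd_sub_C))
    rw [h1]
    rfl
  have hunr : Algebra.FormallyUnramified ℂ p.ResidueField :=
    Algebra.FormallyUnramified.of_surjective (Algebra.ofId ℂ p.ResidueField) hsurj
  -- the fibre is S / b
  have htow : IsScalarTower ℂ (ℂ[X] ⧸ p) (S ⧸ Ideal.map (algebraMap ℂ[X] S) p) := by
    refine IsScalarTower.of_algebraMap_eq (R := ℂ) (S := ℂ[X] ⧸ p)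
      (A := S ⧸ Ideal.map (algebraMap ℂ[X] S) p) fun x => ?_
    have h1 : algebraMap ℂ S x = algebraMap ℂ[X] S (algebraMap ℂ ℂ[X] x) :=
      IsScalarTower.algebraMap_apply ℂ ℂ[X] S x
    exact congrArg (Ideal.Quotient.mk (Ideal.map (algebraMap ℂ[X] S) p)) h1
  let e₁ : (S ⧸ (Ideal.span {b} : Ideal S)) ≃ₐ[ℂ] (ℂ[X] ⧸ p) ⊗[ℂ[X]] S :=
    (Ideal.quotientEquivAlgOfEq ℂ hmapp.symm).trans
      ((Algebra.TensorProduct.quotIdealMapEquivQuotTensor S p).restrictScalars ℂ)
  let e₂ : (ℂ[X] ⧸ p) ⊗[ℂ[X]] S ≃ₐ[ℂ[X]] p.ResidueField ⊗[ℂ[X]] S :=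
    Algebra.TensorProduct.congr
      (AlgEquiv.ofBijective (IsScalarTower.toAlgHom ℂ[X] (ℂ[X] ⧸ p) p.ResidueField)
        p.bijective_algebraMap_quotient_residueField) AlgEquiv.refl
  have hf1 : Algebra.FormallySmooth ℂ (p.ResidueField ⊗[ℂ[X]] S) :=
    Algebra.FormallySmooth.of_equiv (e₁.trans (e₂.restrictScalars ℂ))
  have hf2 : Algebra.FormallySmooth p.ResidueField (p.Fiber S) :=
    Algebra.FormallySmooth.of_restrictScalars ℂ p.ResidueField (p.Fiber S)
  have hf3 : Algebra.IsSmoothAt ℂ[X] (Ideal.span {b} : Ideal S) :=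
    Algebra.IsSmoothAt.of_formallySmooth_fiber p (Ideal.span {b})
  have hf4 : Algebra.FormallySmooth ℂ[X] (Localization.AtPrime (Ideal.span {b} : Ideal S)) := hf3
  exact Algebra.FormallySmooth.comp ℂ ℂ[X] (Localization.AtPrime (Ideal.span {b} : Ideal S))

theorem p_SM1 : Stmt_SM1 := by
  intro R _ _ _ hR b hb
  have := hR
  have hfp : Algebra.FinitePresentation ℂ R := Algebra.FinitePresentation.of_finiteType.mp hR
  have hbp : (Ideal.span {b} : Ideal R).IsPrime :=
    (Ideal.span_singleton_prime hb.ne_zero).mpr hb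
  -- generic smoothness of the quotient
  have hQ : Algebra.FiniteType ℂ (R ⧸ (Ideal.span {b} : Ideal R)) := inferInstance
  obtain ⟨r', hr0, hrs⟩ := SM1_zero (R ⧸ (Ideal.span {b} : Ideal R)) hQ
  obtain ⟨r, rfl⟩ := Ideal.Quotient.mk_surjective r'
  have hrb : r ∉ (Ideal.span {b} : Ideal R) := fun h =>
    hr0 (Ideal.Quotient.eq_zero_iff_mem.mpr h)
  have hr : r ≠ 0 := fun h => hrb (by rw [h]; exact Ideal.zero_mem _)
  -- the localization
  let S := Localization.Away r
  have hdom : IsDomain S :=
    IsLocalization.isDomain_localization (powers_le_nonZeroDivisors_of_noZeroDivisors hr)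
  have hS1 : Algebra.FinitePresentation R S := IsLocalization.Away.finitePresentation r
  have hS2 : Algebra.FinitePresentation ℂ S := Algebra.FinitePresentation.trans ℂ R S
  have hS : Algebra.FiniteType ℂ S := inferInstance
  have hdisj : Disjoint ((Submonoid.powers r : Submonoid R) : Set R)
      ((Ideal.span {b} : Ideal R) : Set R) :=
    (Ideal.disjoint_powers_iff_notMem_of_isPrime r).mpr hrb
  have hmap : Ideal.map (algebraMap R S) (Ideal.span {b}) = Ideal.span {algebraMap R S b} := by
    rw [Ideal.map_span, Set.image_singleton]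
  have hq : (Ideal.span {algebraMap R S b} : Ideal S).IsPrime := by
    rw [← hmap]
    exact IsLocalization.isPrime_of_isPrime_disjoint (Submonoid.powers r) S _ hbp hdisj
  have hcomap : Ideal.comap (algebraMap R S) (Ideal.span {algebraMap R S b}) =
      Ideal.span {b} := by
    rw [← hmap]
    exact IsLocalization.under_map_of_isPrime_disjoint (Submonoid.powers r) S hbp hdisj
  have hinj : Function.Injective (algebraMap R S) :=
    IsLocalization.injective S (powers_le_nonZeroDivisors_of_noZeroDivisors hr)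
  have hb0 : algebraMap R S b ≠ 0 := fun h => hb.ne_zero (hinj (by rw [h, map_zero]))
  have hb1 : Prime (algebraMap R S b) := (Ideal.span_singleton_prime hb0).mp hq
  have hsm : Algebra.FormallySmooth ℂ (S ⧸ (Ideal.span {algebraMap R S b} : Ideal S)) := by
    have hl : IsLocalization.Away (Ideal.Quotient.mk (Ideal.span {b}) r)
        (S ⧸ Ideal.map (algebraMap R S) (Ideal.span {b})) := by
      have h := (inferInstance : IsLocalization
        (Algebra.algebraMapSubmonoid (R ⧸ (Ideal.span {b} : Ideal R)) (Submonoid.powers r))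
        (S ⧸ Ideal.map (algebraMap R S) (Ideal.span {b})))
      have hm : Algebra.algebraMapSubmonoid (R ⧸ (Ideal.span {b} : Ideal R))
          (Submonoid.powers r) = Submonoid.powers (Ideal.Quotient.mk (Ideal.span {b}) r) :=
        Submonoid.map_powers _ _
      rw [hm] at h
      exact h
    have htow : IsScalarTower ℂ (R ⧸ (Ideal.span {b} : Ideal R))
        (S ⧸ Ideal.map (algebraMap R S) (Ideal.span {b})) := by
      refine IsScalarTower.of_algebraMap_eq fun x => ?_
      change Ideal.Quotient.mk _ (algebraMap ℂ S x) =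
        Ideal.Quotient.mk _ (algebraMap R S (algebraMap ℂ R x))
      rw [IsScalarTower.algebraMap_apply ℂ R S x]
    let e := IsLocalization.algEquiv
      (Submonoid.powers (Ideal.Quotient.mk (Ideal.span {b}) r))
      (Localization.Away (Ideal.Quotient.mk (Ideal.span {b}) r))
      (S ⧸ Ideal.map (algebraMap R S) (Ideal.span {b}))
    have hfs := hrs.1
    exact Algebra.FormallySmooth.of_equiv
      ((e.restrictScalars ℂ).trans (Ideal.quotientEquivAlgOfEq ℂ hmap))
  have hkey := SM1_key S hS (algebraMap R S b) hb1 hsm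
  have hloc : (⟨Ideal.span {algebraMap R S b}, hq⟩ : PrimeSpectrum S) ∈
      Algebra.smoothLocus ℂ S := hkey
  rw [← Algebra.smoothLocus_comap_of_isLocalization (R := ℂ) (A := R) r] at hloc
  have hloc2 : (⟨Ideal.span {b}, hbp⟩ : PrimeSpectrum R) ∈ Algebra.smoothLocus ℂ R := by
    have heq : PrimeSpectrum.comap (algebraMap R S)
        ⟨Ideal.span {algebraMap R S b}, hq⟩ = ⟨Ideal.span {b}, hbp⟩ :=
      PrimeSpectrum.ext hcomap
    rw [← heq]
    exact hloc
  have hfin : Algebra.IsSmoothAt ℂ (Ideal.span {b} : Ideal R) := hloc2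
  obtain ⟨h, hh, hsmooth⟩ := Algebra.IsSmoothAt.exists_notMem_smooth ℂ (Ideal.span {b} : Ideal R)
  exact ⟨h, fun hd => hh (Ideal.mem_span_singleton.mpr hd), hsmooth⟩

end

end Pool.GQ
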