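import Pool.Agent.Work.MP_dcf6a6_gq.Interface

/-! # Block SMH (helper21) -/

open CategoryTheory AlgebraicGeometry Pool.TVar

namespace Pool.GQ

open HomogeneousLocalization

theorem SMH_loc {B C : Type} [CommRing B] [CommRing C] [Algebra B C] (b : B) (m : ℕ) (hm : m ≠ 0)
    (h : IsLocalization.Away (b ^ m) C) : IsLocalization.Away b C := by
  refine IsLocalization.of_le_of_exists_dvd (Submonoid.powers (b ^ m)) (Submonoid.powers b) ?_ ?_
  · rintro _ ⟨j, rfl⟩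
    exact ⟨m * j, by simp [pow_mul]⟩
  · rintro _ ⟨j, rfl⟩
    refine ⟨(b ^ m) ^ j, ⟨j, rfl⟩, ?_⟩
    rw [← pow_mul]
    exact pow_dvd_pow _ (Nat.le_mul_of_pos_left _ (Nat.pos_of_ne_zero hm))

theorem SMH_smooth {B C : Type} [CommRing B] [CommRing C] [Algebra ℂ B] [Algebra ℂ C] [Algebra B C]
    (hT : ∀ z : ℂ, algebraMap ℂ C z = algebraMap B C (algebraMap ℂ B z)) (b : B)
    (h : IsLocalization.Away b C)
    (hs : Algebra.Smooth ℂ (Localization.Away b)) : Algebra.Smooth ℂ C := by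
  have hst : IsScalarTower ℂ B C := IsScalarTower.of_algebraMap_eq hT
  exact Algebra.Smooth.of_equiv
    ((IsLocalization.algEquiv (Submonoid.powers b) (Localization.Away b) C).restrictScalars ℂ)

theorem p_SMH (hSMP : Stmt_SMP) (hVAL : Stmt_VAL) (hPRB : Stmt_PRB) (hPZM : Stmt_PZM)
    (hDIV : Stmt_DIV) (hAFT : Stmt_AFT) (hLOC : TVar.Stmt_LOC) : Stmt_SMH := by
  intro A _ _ _ _ 𝒜 _ hft h0 P hP hHT m h hh hm hhP
  have hN : IsNoetherianRing A := Algebra.FiniteType.isNoetherianRing ℂ A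
  have hne : h ≠ 0 := fun e => hhP (e ▸ P.zero_mem)
  have hD : IsDomain (Localization.Away h) :=
    IsLocalization.isDomain_localization (powers_le_nonZeroDivisors_of_noZeroDivisors hne)
  have hDB : IsDomain (Away 𝒜 h) :=
    Function.Injective.isDomain (algebraMap (Away 𝒜 h) (Localization.Away h)) (val_injective _)
  let : Algebra ℂ (Away 𝒜 h) := (strAway 𝒜 h).toAlgebra
  have hfB : Algebra.FiniteType ℂ (Away 𝒜 h) := hAFT A 𝒜 hft h0 m h hh hm
  have hNB : IsNoetherianRing (Away 𝒜 h) := Algebra.FiniteType.isNoetherianRing ℂ _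
  obtain ⟨hpz, hpz'⟩ := hPZM A 𝒜 P hP m h hh hhP
  have hv := hDIV A 𝒜 P hP m h hh hm hhP (hVAL A P hP hHT)
  obtain ⟨b, hb, hb'⟩ := hPRB (Away 𝒜 h) (pz 𝒜 P h) hpz hv
  obtain ⟨b', hb1, hsm⟩ := hSMP (Away 𝒜 h) hfB (pz 𝒜 P h) hpz b hb hb'
  obtain ⟨k, c, hc, rfl⟩ := Away.mk_surjective 𝒜 hh b'
  have hcP : c ∉ P := fun e => hb1 ((hpz' k c hc).2 e)
  let : Algebra (Away 𝒜 h) (Away 𝒜 (h * c)) := (awayMap 𝒜 hc rfl).toAlgebra
  have hloc : IsLocalization.Away (Away.isLocalizationElem hh hc) (Away 𝒜 (h * c)) :=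
    Away.isLocalization_mul hh hc rfl hm.ne'
  have he : Away.isLocalizationElem hh hc = (Away.mk 𝒜 hh k c hc) ^ m := by
    ext
    simp only [val_pow, Away.val_mk, Localization.mk_pow, Away.isLocalizationElem]
    congr 1
    ext
    simp [pow_mul]
  rw [he] at hloc
  have hloc2 := SMH_loc _ m hm.ne' hloc
  let : Algebra ℂ (Away 𝒜 (h * c)) := (strAway 𝒜 (h * c)).toAlgebra
  have hT : ∀ z : ℂ, strAway 𝒜 (h * c) z = awayMap 𝒜 hc rfl (strAway 𝒜 h z) := by
    intro z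
    simp only [strAway, RingHom.comp_apply]
    exact (awayMap_fromZeroRingHom 𝒜 hc rfl _).symm
  have hsm2 : Algebra.Smooth ℂ (Away 𝒜 (h * c)) := SMH_smooth hT _ hloc2 hsm
  refine ⟨m + k • m, by omega, h * c, SetLike.mul_mem_graded hh hc, ?_, ?_⟩
  · intro e
    rcases hP.mem_or_mem e with e | e
    · exact hhP e
    · exact hcP e
  · intro x hx
    exact hLOC 𝒜 (h * c) (m + k • m) (SetLike.mul_mem_graded hh hc) (by omega) hsm2 x hx

end Pool.GQ

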