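import Pool.Agent.Work.MP_dcf6a6_gq.Interface

/-!
# Block SMP: smoothness at a prime ideal which is locally principal
-/

open CategoryTheory AlgebraicGeometry Pool.TVar

namespace Pool.GQ

/-- a common multiplier -/
theorem SMP_common {R : Type} [CommRing R] [IsNoetherianRing R] (P : Ideal R) (hP : P.IsPrime)
    (b : R) (hbg : ∀ g ∈ P, ∃ s, s ∉ P ∧ b ∣ s * g) :
    ∃ s, s ∉ P ∧ ∀ g ∈ P, b ∣ s * g := by
  classical
  obtain ⟨t, ht⟩ := (isNoetherianRing_iff_ideal_fg R).1 inferInstance P
  have htP : ∀ g ∈ t, g ∈ P := fun g hg => by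
    rw [← ht]; exact Ideal.subset_span hg
  choose f hf hfb using hbg
  let F : R → R := fun g => if h : g ∈ P then f g h else 1
  refine ⟨∏ g ∈ t, F g, ?_, ?_⟩
  · intro hm
    obtain ⟨g, hg, hgm⟩ := (hP.prod_mem_iff).1 hm
    have : F g = f g (htP g hg) := dif_pos (htP g hg)
    rw [this] at hgm
    exact hf g (htP g hg) hgm
  · intro g hg
    have hg' : g ∈ Ideal.span (t : Set R) := by
      rw [show Ideal.span (t : Set R) = P from ht]; exact hg
    refine Submodule.span_induction (p := fun g _ => b ∣ (∏ g ∈ t, F g) * g) ?_ ?_ ?_ ?_ hg'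
    · intro x hx
      have hx' : x ∈ t := hx
      have h1 : F x = f x (htP x hx') := dif_pos (htP x hx')
      have h2 : b ∣ F x * x := by rw [h1]; exact hfb x (htP x hx')
      have h3 : F x ∣ ∏ g ∈ t, F g := Finset.dvd_prod_of_mem F hx'
      exact h2.trans (mul_dvd_mul_right h3 x)
    · simp
    · intro x y _ _ hx hy
      rw [mul_add]; exact dvd_add hx hy
    · intro a x _ hx
      rw [smul_eq_mul, mul_left_comm]
      exact hx.mul_left a

theorem p_SMP (hSM0 : Stmt_SM0) (hSM1 : Stmt_SM1) : Stmt_SMP := by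
  intro R _ _ _ hft P hP b hbP hbg
  have hnoe : IsNoetherianRing R := Algebra.FiniteType.isNoetherianRing ℂ R
  by_cases hb0 : b = 0
  · obtain ⟨h, h0, hs⟩ := hSM0 R hft
    refine ⟨h, ?_, hs⟩
    intro hh
    obtain ⟨s, hs, hd⟩ := hbg h hh
    rw [hb0, zero_dvd_iff] at hd
    rcases mul_eq_zero.1 hd with h1 | h1
    · exact hs (h1 ▸ P.zero_mem)
    · exact h0 h1
  obtain ⟨s, hsP, hs⟩ := SMP_common P hP b hbg
  have hs0 : s ≠ 0 := fun h => hsP (h ▸ P.zero_mem)
  have hsn : ∀ n : ℕ, s ^ n ∉ P := fun n h => hsP (hP.mem_of_pow_mem n h)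
  let R₁ := Localization.Away s
  have hle : Submonoid.powers s ≤ nonZeroDivisors R :=
    powers_le_nonZeroDivisors_of_noZeroDivisors hs0
  haveI : IsDomain R₁ := IsLocalization.isDomain_localization hle
  have hinj : Function.Injective (algebraMap R R₁) := IsLocalization.injective R₁ hle
  have hunit : IsUnit (algebraMap R R₁ s) := IsLocalization.Away.algebraMap_isUnit s
  have hunitn : ∀ n : ℕ, IsUnit (algebraMap R R₁ s ^ n) := fun n => hunit.pow n
  -- divisibility by b in R₁
  have hdvd : ∀ a : R, algebraMap R R₁ b ∣ algebraMap R R₁ a → a ∈ P := by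
    rintro a ⟨c, hc⟩
    obtain ⟨n, d, hd⟩ := IsLocalization.Away.surj s c
    have h1 : algebraMap R R₁ (a * s ^ n) = algebraMap R R₁ (b * d) := by
      rw [map_mul, map_mul, map_pow, ← hd, hc]; ring
    have h2 := hinj h1
    have h3 : a * s ^ n ∈ P := by rw [h2]; exact P.mul_mem_right d hbP
    exact (hP.mem_or_mem h3).resolve_right (hsn n)
  have hdvd' : ∀ a ∈ P, algebraMap R R₁ b ∣ algebraMap R R₁ a := by
    intro a ha
    have h1 : algebraMap R R₁ b ∣ algebraMap R R₁ (s * a) := map_dvd _ (hs a ha)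
    rw [map_mul] at h1
    exact (hunit.dvd_mul_left).1 h1
  have hprime : Prime (algebraMap R R₁ b) := by
    refine ⟨?_, ?_, ?_⟩
    · intro h; exact hb0 (hinj (by rw [h, map_zero]))
    · intro hu
      have : (1 : R) ∈ P := hdvd 1 (hu.dvd)
      exact hP.ne_top ((Ideal.eq_top_iff_one P).2 this)
    · intro x y hxy
      obtain ⟨n, a, ha⟩ := IsLocalization.Away.surj s x
      obtain ⟨m, c, hc⟩ := IsLocalization.Away.surj s y
      have h1 : algebraMap R R₁ b ∣ algebraMap R R₁ (a * c) := by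
        have : algebraMap R R₁ (a * c) = x * y * (algebraMap R R₁ s ^ n * algebraMap R R₁ s ^ m) := by
          rw [map_mul, ← ha, ← hc]; ring
        rw [this]; exact hxy.mul_right _
      rcases hP.mem_or_mem (hdvd _ h1) with h2 | h2
      · left
        have h3 := hdvd' a h2
        rw [← ha] at h3
        exact ((hunitn n).dvd_mul_right).1 h3
      · right
        have h3 := hdvd' c h2
        rw [← hc] at h3
        exact ((hunitn m).dvd_mul_right).1 h3
  have hft1 : Algebra.FiniteType ℂ R₁ := inferInstance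
  obtain ⟨h₁, hh₁, hsm⟩ := hSM1 R₁ hft1 _ hprime
  obtain ⟨n, r, hr⟩ := IsLocalization.Away.surj s h₁
  have hrP : r ∉ P := by
    intro h
    have h3 := hdvd' r h
    rw [← hr] at h3
    exact hh₁ (((hunitn n).dvd_mul_right).1 h3)
  refine ⟨s * r, fun h => (hP.mem_or_mem h).elim hsP hrP, ?_⟩
  have hass : Associated (algebraMap R R₁ r) h₁ := by
    obtain ⟨u, hu⟩ := hunitn n
    refine Associated.symm ⟨u, ?_⟩
    rw [hu, hr]
  haveI : IsLocalization.Away (s * r) (Localization.Away h₁) :=
    IsLocalization.Away.mul_of_associated (S := R₁) s r h₁ hass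
  let e : Localization.Away (s * r) ≃ₐ[R] Localization.Away h₁ :=
    IsLocalization.algEquiv (Submonoid.powers (s * r)) _ _
  let e' : Localization.Away (s * r) ≃ₐ[ℂ] Localization.Away h₁ := e.restrictScalars ℂ
  haveI : Algebra.Smooth ℂ (Localization.Away h₁) := hsm
  exact Algebra.Smooth.of_equiv e'.symm

end Pool.GQ
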