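import Pool.Agent.Work.MP_dcf6a6_gq.Interface

set_option autoImplicit false

open CategoryTheory AlgebraicGeometry Pool.TVar

namespace Pool.GQ

/-- clearing denominators -/
theorem VAL_clear {A : Type} [CommRing A] [IsDomain A] (P : Ideal A) [P.IsPrime] {x y : A}
    (h : algebraMap A (Localization.AtPrime P) x ∣ algebraMap A (Localization.AtPrime P) y) :
    ∃ s r : A, s ∉ P ∧ s * y = r * x := by
  obtain ⟨c, hc⟩ := h
  obtain ⟨r, s, rfl⟩ := IsLocalization.exists_mk'_eq P.primeCompl c
  refine ⟨s, r, s.2, ?_⟩
  have hinj : Function.Injective (algebraMap A (Localization.AtPrime P)) :=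
    IsLocalization.injective _ P.primeCompl_le_nonZeroDivisors
  apply hinj
  have h1 : algebraMap A (Localization.AtPrime P) (s : A) *
      IsLocalization.mk' (Localization.AtPrime P) r s = algebraMap A _ r :=
    IsLocalization.mk'_spec' _ r s
  rw [map_mul, map_mul, hc, ← h1]
  ring

theorem p_VAL : Stmt_VAL := by
  intro A _ _ _ _ P hP hHT x y
  haveI := hP
  haveI : IsNoetherianRing (Localization.AtPrime P) :=
    IsLocalization.isNoetherianRing P.primeCompl _ inferInstance
  haveI : IsDomain (Localization.AtPrime P) :=
    IsLocalization.isDomain_localization P.primeCompl_le_nonZeroDivisors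
  have hcl : IsIntegrallyClosed (Localization.AtPrime P) :=
    isIntegrallyClosed_of_isLocalization (Localization.AtPrime P) P.primeCompl
      P.primeCompl_le_nonZeroDivisors
  have hmax : ∀ Q : Ideal (Localization.AtPrime P), Q ≠ ⊥ → Q.IsPrime →
      Q = IsLocalRing.maximalIdeal (Localization.AtPrime P) := by
    intro Q hQ0 hQ
    have hle : Q.comap (algebraMap A (Localization.AtPrime P)) ≤ P := by
      intro a ha
      by_contra hna
      have hu : IsUnit (algebraMap A (Localization.AtPrime P) a) :=
        IsLocalization.map_units (Localization.AtPrime P) (⟨a, hna⟩ : P.primeCompl)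
      exact hQ.ne_top (Ideal.eq_top_of_isUnit_mem Q ha hu)
    have hm : Ideal.map (algebraMap A (Localization.AtPrime P))
        (Q.comap (algebraMap A (Localization.AtPrime P))) = Q :=
      IsLocalization.map_under P.primeCompl (Localization.AtPrime P) Q
    have hne : Q.comap (algebraMap A (Localization.AtPrime P)) ≠ ⊥ := by
      intro h
      apply hQ0
      rw [h, Ideal.map_bot] at hm
      exact hm.symm
    have heq := hHT _ (Ideal.IsPrime.comap _) hne hle
    rw [heq, IsLocalization.AtPrime.map_eq_maximalIdeal P (Localization.AtPrime P)] at hm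
    exact hm.symm
  have h4 : IsIntegrallyClosed (Localization.AtPrime P) ∧
      ∀ Q : Ideal (Localization.AtPrime P), Q ≠ ⊥ → Q.IsPrime →
        Q = IsLocalRing.maximalIdeal (Localization.AtPrime P) := ⟨hcl, hmax⟩
  have hval : ValuationRing (Localization.AtPrime P) :=
    ((tfae_of_isNoetherianRing_of_isLocalRing_of_isDomain (Localization.AtPrime P)).out 3 1).mp
      h4
  rcases ValuationRing.dvd_total (algebraMap A (Localization.AtPrime P) x)
    (algebraMap A (Localization.AtPrime P) y) with h | h
  · obtain ⟨s, r, hs, e⟩ := VAL_clear P h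
    exact ⟨s, r, hs, Or.inr e⟩
  · obtain ⟨s, r, hs, e⟩ := VAL_clear P h
    exact ⟨s, r, hs, Or.inl e⟩

end Pool.GQ
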