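import Pool.Agent.Work.MP_dcf6a6_gq.B_AFT
import Pool.Agent.Work.MP_dcf6a6_gq.B_COP
import Pool.Agent.Work.MP_dcf6a6_gq.B_BZ1
import Pool.Agent.Work.MP_dcf6a6_gq.B_BEZ
import Pool.Agent.Work.MP_dcf6a6_gq.B_HOF
import Pool.Agent.Work.MP_dcf6a6_gq.B_CNJ
import Pool.Agent.Work.MP_dcf6a6_gq.B_PTQ
import Pool.Agent.Work.MP_dcf6a6_gq.B_CRV
import Pool.Agent.Work.MP_dcf6a6_gq.B_DG0
import Pool.Agent.Work.MP_dcf6a6_gq.B_PZM
import Pool.Agent.Work.MP_dcf6a6_gq.B_DIV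
import Pool.Agent.Work.MP_dcf6a6_gq.B_DM1
import Pool.Agent.Work.MP_dcf6a6_gq.B_DM2
import Pool.Agent.Work.MP_dcf6a6_gq.B_EXT
import Pool.Agent.Work.MP_dcf6a6_gq.B_HGT
import Pool.Agent.Work.MP_dcf6a6_gq.B_NIR
import Pool.Agent.Work.MP_dcf6a6_gq.B_SM0
import Pool.Agent.Work.MP_dcf6a6_gq.B_SM1
import Pool.Agent.Work.MP_dcf6a6_gq.B_SMP
import Pool.Agent.Work.MP_dcf6a6_gq.B_VAL
import Pool.Agent.Work.MP_dcf6a6_gq.B_PRB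
import Pool.Agent.Work.MP_dcf6a6_gq.B_SMH
import Pool.Agent.Work.MP_dcf6a6_gq.B_FIX
import Pool.Agent.Work.MP_dcf6a6_gq.B_GEN
import Pool.Agent.Work.MP_dcf6a6_gq.B_HTG
import Pool.Agent.Work.MP_dcf6a6_gq.B_PNT
import Pool.Agent.Work.MP_dcf6a6_gq.B_MN1
import Pool.Agent.Work.MP_dcf6a6_gq.B_NRM
import Pool.Agent.Work.MP_dcf6a6_gq.B_MN2
import Pool.Agent.Work.MP_dcf6a6_tv_helper73.ALL

/-! # Assembly of the blocks -/

namespace Pool.GQ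

theorem all_AFT : Stmt_AFT :=
  p_AFT

theorem all_COP : Stmt_COP :=
  p_COP

theorem all_BZ1 : Stmt_BZ1 :=
  p_BZ1 all_COP

theorem all_BEZ : Stmt_BEZ :=
  p_BEZ all_BZ1

theorem all_HOF : Stmt_HOF :=
  p_HOF

theorem all_CNJ : Stmt_CNJ :=
  p_CNJ all_HOF

theorem all_PTQ : Stmt_PTQ :=
  p_PTQ

theorem all_CRV : Stmt_CRV :=
  p_CRV all_BEZ all_PTQ

theorem all_DG0 : Stmt_DG0 :=
  p_DG0

theorem all_PZM : Stmt_PZM :=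
  p_PZM

theorem all_DIV : Stmt_DIV :=
  p_DIV all_PZM

theorem all_DM1 : Stmt_DM1 :=
  p_DM1

theorem all_DM2 : Stmt_DM2 :=
  p_DM2

theorem all_EXT : Stmt_EXT :=
  p_EXT

theorem all_HGT : Stmt_HGT :=
  p_HGT

theorem all_NIR : Stmt_NIR :=
  p_NIR all_DM1 all_DM2 all_DG0

theorem all_SM0 : Stmt_SM0 :=
  p_SM0

theorem all_SM1 : Stmt_SM1 :=
  p_SM1

theorem all_SMP : Stmt_SMP :=
  p_SMP all_SM0 all_SM1

theorem all_VAL : Stmt_VAL :=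
  p_VAL

theorem all_PRB : Stmt_PRB :=
  p_PRB

theorem all_SMH : Stmt_SMH :=
  p_SMH all_SMP all_VAL all_PRB all_PZM all_DIV all_AFT Pool.TVar.helper76.stmt_LOC

theorem all_FIX : Stmt_FIX :=
  p_FIX all_HGT all_HOF all_DG0 all_NIR all_SMH

theorem all_GEN : Stmt_GEN :=
  p_GEN

theorem all_HTG : Stmt_HTG :=
  p_HTG all_CNJ

theorem all_PNT : Stmt_PNT :=
  p_PNT all_EXT all_AFT all_DG0

theorem all_MN1 : Stmt_MN1 :=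
  p_MN1 all_FIX all_GEN all_CRV all_PNT Pool.TVar.helper87.stmt_PMAP Pool.TVar.helper22.stmt_P1 Pool.TVar.helper45.stmt_DENS

theorem all_NRM : Stmt_NRM :=
  p_NRM

theorem all_MN2 : Stmt_MN2 :=
  p_MN2 all_HGT all_NRM all_HTG all_MN1

end Pool.GQ
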