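import Pool.Agent.Work.MP_dcf6a6_gq.Interface

open CategoryTheory AlgebraicGeometry

namespace Pool.GQ

open Pool.TVar

theorem p_AFT : Stmt_AFT := by
  intro A _ _ _ 𝒜 _ hft h0 m h hh hm
  have h1 : Algebra.FiniteType (𝒜 0) A := by
    have e : (algebraMap (𝒜 0) A).comp (algebraMap ℂ (𝒜 0)) = algebraMap ℂ A := rfl
    have h5 : ((algebraMap (𝒜 0) A).comp (algebraMap ℂ (𝒜 0))).FiniteType := by
      rw [e]
      exact RingHom.finiteType_algebraMap.mpr hft
    exact RingHom.finiteType_algebraMap.mp (RingHom.FiniteType.of_comp_finiteType h5)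
  have h2 : Algebra.FiniteType (𝒜 0) (HomogeneousLocalization.Away 𝒜 h) :=
    HomogeneousLocalization.Away.finiteType h m hh
  have h3 : (HomogeneousLocalization.fromZeroRingHom 𝒜 (Submonoid.powers h)).FiniteType := by
    have : (HomogeneousLocalization.fromZeroRingHom 𝒜 (Submonoid.powers h)) =
      algebraMap (𝒜 0) (HomogeneousLocalization.Away 𝒜 h) := rfl
    rw [this]
    exact RingHom.finiteType_algebraMap.mpr h2
  have h4 : (algebraMap ℂ (𝒜 0)).FiniteType := by
    apply RingHom.FiniteType.of_surjective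
    intro a
    obtain ⟨z, hz⟩ := h0 a.1 a.2
    exact ⟨z, Subtype.ext hz.symm⟩
  exact h3.comp h4

end Pool.GQ
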