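import Pool.Agent.Work.MP_dcf6a6_gq.Interface

/-!
# Block DIV: the valuation property passes to degree zero
-/

open CategoryTheory AlgebraicGeometry Pool.TVar

namespace Pool.GQ

/-- a homogeneous multiplier -/
theorem DIV_homog {A : Type} [CommRing A] [IsDomain A] [Algebra ℂ A] (𝒜 : ℕ → Submodule ℂ A)
    [GradedAlgebra 𝒜] (P : Ideal A) (s r c d : A) (l : ℕ) (hc : c ∈ 𝒜 l)
    (hd : d ∈ 𝒜 l) (hs : s ∉ P) (h : s * c = r * d) :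
    ∃ (j : ℕ) (s' r' : A), s' ∈ 𝒜 j ∧ r' ∈ 𝒜 j ∧ s' ∉ P ∧ s' * c = r' * d := by
  classical
  have hex : ∃ j, ((DirectSum.decompose 𝒜 s j : 𝒜 j) : A) ∉ P := by
    by_contra hcon
    push Not at hcon
    apply hs
    rw [← DirectSum.sum_support_decompose 𝒜 s]
    exact P.sum_mem fun i _ => hcon i
  obtain ⟨j, hj⟩ := hex
  refine ⟨j, _, ((DirectSum.decompose 𝒜 r j : 𝒜 j) : A), SetLike.coe_mem _, SetLike.coe_mem _,
    hj, ?_⟩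
  rw [← DirectSum.coe_decompose_mul_add_of_right_mem 𝒜 hc,
    ← DirectSum.coe_decompose_mul_add_of_right_mem 𝒜 hd, h]

theorem DIV_half (hPZM : Stmt_PZM) {A : Type} [CommRing A] [IsDomain A] [Algebra ℂ A]
    (𝒜 : ℕ → Submodule ℂ A)
    [GradedAlgebra 𝒜] (P : Ideal A) (hP : P.IsPrime) (m : ℕ) (h : A) (hh : h ∈ 𝒜 m) (hm : 0 < m)
    (hhP : h ∉ P)
    (k₁ k₂ : ℕ) (c₁ c₂ : A) (hc₁ : c₁ ∈ 𝒜 (k₁ • m)) (hc₂ : c₂ ∈ 𝒜 (k₂ • m)) (s r : A)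
    (hs : s ∉ P) (hsr : s * (c₁ * h ^ k₂) = r * (c₂ * h ^ k₁)) :
    ∃ S R : HomogeneousLocalization.Away 𝒜 h, S ∉ pz 𝒜 P h ∧
      S * HomogeneousLocalization.Away.mk 𝒜 hh k₁ c₁ hc₁ =
        R * HomogeneousLocalization.Away.mk 𝒜 hh k₂ c₂ hc₂ := by
  have hd₁ : c₁ * h ^ k₂ ∈ 𝒜 ((k₁ + k₂) • m) := by
    rw [add_smul]; exact SetLike.mul_mem_graded hc₁ (SetLike.pow_mem_graded _ hh)
  have hd₂ : c₂ * h ^ k₁ ∈ 𝒜 ((k₁ + k₂) • m) := by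
    rw [add_comm k₁, add_smul]; exact SetLike.mul_mem_graded hc₂ (SetLike.pow_mem_graded _ hh)
  obtain ⟨j, s', r', hs', hr', hsP, hE⟩ := DIV_homog 𝒜 P s r _ _ _ hd₁ hd₂ hs hsr
  obtain ⟨n, rfl⟩ : ∃ n, m = n + 1 := ⟨m - 1, by omega⟩
  have hS : s' ^ (n + 1) ∈ 𝒜 (j • (n + 1)) := by
    have := SetLike.pow_mem_graded (n + 1) hs'
    rwa [smul_eq_mul, mul_comm, ← smul_eq_mul] at this
  have hR : r' * s' ^ n ∈ 𝒜 (j • (n + 1)) := by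
    have h1 := SetLike.mul_mem_graded hr' (SetLike.pow_mem_graded n hs')
    have h2 : j + n • j = j • (n + 1) := by simp only [smul_eq_mul]; ring
    rwa [h2] at h1
  refine ⟨HomogeneousLocalization.Away.mk 𝒜 hh j _ hS,
    HomogeneousLocalization.Away.mk 𝒜 hh j _ hR, ?_, ?_⟩
  · rw [(hPZM A 𝒜 P hP (n + 1) h hh hhP).2 j _ hS]
    intro hcon
    exact hsP (hP.mem_of_pow_mem _ hcon)
  · apply HomogeneousLocalization.val_injective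
    rw [HomogeneousLocalization.val_mul, HomogeneousLocalization.val_mul]
    simp only [HomogeneousLocalization.Away.val_mk, Localization.mk_mul]
    rw [Localization.mk_eq_mk_iff, Localization.r_iff_exists]
    refine ⟨1, ?_⟩
    simp only [OneMemClass.coe_one, one_mul, Submonoid.coe_mul]
    have e1 : h ^ j * h ^ k₂ * (s' ^ (n + 1) * c₁) = h ^ j * s' ^ n * (s' * (c₁ * h ^ k₂)) := by
      ring
    have e2 : h ^ j * h ^ k₁ * (r' * s' ^ n * c₂) = h ^ j * s' ^ n * (r' * (c₂ * h ^ k₁)) := by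
      ring
    rw [e1, e2, hE]

theorem p_DIV (hPZM : Stmt_PZM) : Stmt_DIV := by
  intro A _ _ _ 𝒜 _ P hP m h hh hm hhP hval x y
  obtain ⟨k₁, c₁, hc₁, rfl⟩ := HomogeneousLocalization.Away.mk_surjective 𝒜 hh x
  obtain ⟨k₂, c₂, hc₂, rfl⟩ := HomogeneousLocalization.Away.mk_surjective 𝒜 hh y
  obtain ⟨s, r, hs, h1 | h1⟩ := hval (c₁ * h ^ k₂) (c₂ * h ^ k₁)
  · obtain ⟨S, R, hS, hE⟩ := DIV_half hPZM 𝒜 P hP m h hh hm hhP k₁ k₂ c₁ c₂ hc₁ hc₂ s r hs h1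
    exact ⟨S, R, hS, Or.inl hE⟩
  · obtain ⟨S, R, hS, hE⟩ := DIV_half hPZM 𝒜 P hP m h hh hm hhP k₂ k₁ c₂ c₁ hc₂ hc₁ s r hs h1
    exact ⟨S, R, hS, Or.inr hE⟩

end Pool.GQ
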