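import Pool.Agent.Work.MP_dcf6a6_gq.Interface

/-!
# Block PRB (helper12)
-/

namespace Pool.GQ

theorem PRB_finset {B : Type} [CommRing B] (P : Ideal B) (hP : P.IsPrime)
    (hv : ∀ x y : B, ∃ s r : B, s ∉ P ∧ (s * x = r * y ∨ s * y = r * x)) (T : Finset B) :
    (∀ g ∈ T, g ∈ P) → ∃ b ∈ P, ∀ g ∈ T, ∃ s, s ∉ P ∧ b ∣ s * g := by
  classical
  induction T using Finset.induction_on with
  | empty => intro _; exact ⟨0, P.zero_mem, by simp⟩
  | insert x T hx ih =>
    intro hT
    obtain ⟨b, hb, hbT⟩ := ih (fun g hg => hT g (Finset.mem_insert_of_mem hg))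
    obtain ⟨s, r, hs, h | h⟩ := hv b x
    · refine ⟨x, hT x (Finset.mem_insert_self _ _), ?_⟩
      intro g hg
      rcases Finset.mem_insert.mp hg with rfl | hg
      · exact ⟨s, hs, Dvd.intro_left s rfl⟩
      · obtain ⟨t, ht, c, hc⟩ := hbT g hg
        refine ⟨s * t, fun h' => (hP.mem_or_mem h').elim hs ht, r * c, ?_⟩
        calc s * t * g = s * (t * g) := by ring
          _ = (s * b) * c := by rw [hc]; ring
          _ = x * (r * c) := by rw [h]; ring
    · refine ⟨b, hb, ?_⟩
      intro g hg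
      rcases Finset.mem_insert.mp hg with rfl | hg
      · exact ⟨s, hs, r, by rw [h]; ring⟩
      · exact hbT g hg

theorem p_PRB : Stmt_PRB := by
  intro B _ _ P hP hv
  classical
  obtain ⟨S, hS⟩ := (isNoetherianRing_iff_ideal_fg B).mp inferInstance P
  obtain ⟨b, hb, hbS⟩ := PRB_finset P hP hv S (fun g hg => by
    rw [← hS]; exact Ideal.subset_span hg)
  refine ⟨b, hb, ?_⟩
  intro g hg
  rw [← hS] at hg
  change g ∈ Submodule.span B (S : Set B) at hg
  induction hg using Submodule.span_induction with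
  | mem x h => exact hbS x h
  | zero => exact ⟨1, fun h => hP.ne_top ((Ideal.eq_top_iff_one P).mpr h), by simp⟩
  | add x y _ _ hx hy =>
    obtain ⟨s, hs, c, hc⟩ := hx
    obtain ⟨t, ht, d, hd⟩ := hy
    refine ⟨s * t, fun h' => (hP.mem_or_mem h').elim hs ht, t * c + s * d, ?_⟩
    calc s * t * (x + y) = t * (s * x) + s * (t * y) := by ring
      _ = b * (t * c + s * d) := by rw [hc, hd]; ring
  | smul a x _ hx =>
    obtain ⟨s, hs, c, hc⟩ := hx
    refine ⟨s, hs, a * c, ?_⟩
    calc s * (a • x) = a * (s * x) := by rw [smul_eq_mul]; ring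
      _ = b * (a * c) := by rw [hc]; ring

end Pool.GQ
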