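import Pool.Agent.Work.MP_dcf6a6_tv.Defs

/-!
# Definitions: graded embeddings in a polynomial ring, rings of invariants
-/

open CategoryTheory AlgebraicGeometry

namespace Pool.GQ

noncomputable section

open Pool.TVar

/-- An embedding of the graded algebra `A` in the polynomial ring `ℂ[T_v]` in finitely many
variables, graded by positive weights `w v`, which multiplies the degrees by `c > 0`. -/
structure GradedEmbedding {V : Type} (w : V → ℕ) {A : Type} [CommRing A] [Algebra ℂ A]
    (𝒜 : ℕ → Submodule ℂ A) where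
  /-- the embedding -/
  φ : A →ₐ[ℂ] MvPolynomial V ℂ
  inj : Function.Injective φ
  w_pos : ∀ v, 0 < w v
  /-- the factor of the degrees -/
  c : ℕ
  c_pos : 0 < c
  graded : ∀ n, ∀ a ∈ 𝒜 n, (φ a).IsWeightedHomogeneous w (c * n)

/-- No divisor is contracted: for every homogeneous prime element `q` of `ℂ[T_v]` the prime ideal
`φ⁻¹ (q)` has height at most one. -/
def GradedEmbedding.NoContraction {V : Type} {w : V → ℕ} {A : Type} [CommRing A] [Algebra ℂ A]
    {𝒜 : ℕ → Submodule ℂ A} (E : GradedEmbedding w 𝒜) : Prop :=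
  ∀ q : MvPolynomial V ℂ, Prime q → (∃ n, q.IsWeightedHomogeneous w n) →
    ((Ideal.span {q}).comap E.φ).height ≤ 1

/-- `(A, 𝒜)` is the graded ring of invariants of the group `G`, which acts on `ℂ[T_v]`, graded by
positive weights `w v`, by automorphisms `ρ g` of graded `ℂ`-algebras. -/
structure InvariantRing {V : Type} (w : V → ℕ) {G : Type} [Group G]
    (ρ : G →* (MvPolynomial V ℂ ≃ₐ[ℂ] MvPolynomial V ℂ)) {A : Type} [CommRing A] [Algebra ℂ A]
    (𝒜 : ℕ → Submodule ℂ A) where
  /-- the embedding of the ring of invariants -/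
  φ : A →ₐ[ℂ] MvPolynomial V ℂ
  inj : Function.Injective φ
  w_pos : ∀ v, 0 < w v
  act : ∀ g n P, P.IsWeightedHomogeneous w n → (ρ g P).IsWeightedHomogeneous w n
  range : ∀ n P, (∃ a ∈ 𝒜 n, φ a = P) ↔ P.IsWeightedHomogeneous w n ∧ ∀ g, ρ g P = P

/-- For every homogeneous semi-invariant `M ≠ 0`, `ρ g M = χ g • M`, and every prime factor `q` of
`M` there are `l > 0` and semi-invariants of the weights `χ ^ (-l)` and `χ ^ l` which are not divisible
by `q`.  (For `c = e = 1` this holds if the weights of all semi-invariants have finite order.) -/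
def Balanced {V : Type} (w : V → ℕ) {G : Type} [Group G]
    (ρ : G →* (MvPolynomial V ℂ ≃ₐ[ℂ] MvPolynomial V ℂ)) : Prop :=
  ∀ (M : MvPolynomial V ℂ) (χ : G → ℂ), M ≠ 0 → (∃ n, M.IsWeightedHomogeneous w n) →
    (∀ g, ρ g M = χ g • M) → ∀ q : MvPolynomial V ℂ, Prime q → q ∣ M →
      ∃ l, 0 < l ∧ ∃ c e : MvPolynomial V ℂ, (∀ g, χ g ^ l • ρ g c = c) ∧
        (∀ g, ρ g e = χ g ^ l • e) ∧ ¬ q ∣ c ∧ ¬ q ∣ e

/-- The smooth locus of `X = Proj 𝒜` is rationally connected: there is a dense open set `U` of smooth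
points of `X` such that any two closed points of `U` lie on the image of a nonconstant morphism from
the projective line to `X` whose image consists of smooth points of `X`. -/
def Concl {A : Type} [CommRing A] [Algebra ℂ A] (𝒜 : ℕ → Submodule ℂ A) [GradedAlgebra 𝒜] :
    Prop :=
  ∃ U : (Proj 𝒜).Opens, Dense (U : Set (Proj 𝒜)) ∧ (∀ x ∈ U, IsSmoothPt (structMap 𝒜) x) ∧
    ∀ x y : Proj 𝒜, x ∈ U → y ∈ U → IsClosed ({x} : Set (Proj 𝒜)) →
      IsClosed ({y} : Set (Proj 𝒜)) →
      ∃ f : Proj lineGr ⟶ Proj 𝒜, f ≫ structMap 𝒜 = structMap lineGr ∧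
        (∀ q, IsSmoothPt (structMap 𝒜) (f q)) ∧ (∃ q q', f q ≠ f q') ∧
        x ∈ Set.range f ∧ y ∈ Set.range f

end

end Pool.GQ
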