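import Pool.Agent.Work.MP_dcf6a6_gq.Defs
import Pool.Agent.Work.MP_dcf6a6_tv.Interface

/-!
# Curves in the smooth locus of `Proj A`, `A` embedded in a polynomial ring: interface

`SS V = ℂ[T_v]` is the polynomial ring, `E : GradedEmbedding w 𝒜` the embedding `φ` of the graded
domain `A`.  A homogeneous element `h` of positive degree is called good if all points of `D_+(h)` are
smooth (`Good 𝒜 h`).

Plan: (1) no divisor is contracted, so for every homogeneous prime `q` there is a good `h` with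
`q ∤ φ h` (SMH: `X = Proj A` is normal, so smooth at the points of codimension one); (2) so there are
finitely many good `h i` of one degree without common prime factor (FIX); (3) for two closed points `x`,
`y` of `X` which lift to points of affine space (PNT: all closed points of some dense `D_+(a)` do) there
are two combinations `f`, `g` of the `φ (h i)` without common prime factor which do not vanish at `x` and
`y` (GEN); (4) there is a rational curve through `x` and `y` in the weighted projective space which does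
not meet `f = g = 0` (BEZ, CRV).
-/

open CategoryTheory AlgebraicGeometry Pool.TVar

namespace Pool.GQ

noncomputable section

abbrev SS (V : Type) : Type := MvPolynomial V ℂ

/-- every nonzero prime ideal contained in `P` is `P` -/
def HT {A : Type} [CommRing A] (P : Ideal A) : Prop :=
  ∀ Q : Ideal A, Q.IsPrime → Q ≠ ⊥ → Q ≤ P → Q = P

/-- all points of `D_+(h)` are smooth -/
def Good {A : Type} [CommRing A] [Algebra ℂ A] (𝒜 : ℕ → Submodule ℂ A) [GradedAlgebra 𝒜]
    (h : A) : Prop := ∀ x ∈ Proj.basicOpen 𝒜 h, IsSmoothPt (structMap 𝒜) x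

/-! ### Commutative algebra -/

/-- HGT (40 lines): height at most one, elementary form.
PROOF. `Ideal.height_le_iff`, a prime of height 0 of a domain is minimal, so `⊥`. -/
def Stmt_HGT : Prop :=
  ∀ (A : Type) [CommRing A] [IsDomain A] (P : Ideal A), P.IsPrime → (P.height ≤ 1 ↔ HT P)

/-- SM0 (60 lines): generic smoothness.
PROOF. The fraction field `L = Localization.AtPrime ⊥` (or `FractionRing R`, transported) is
essentially of finite type over the perfect field `ℂ`, so formally smooth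
(`Algebra.FormallySmooth.of_perfectField`); so `Algebra.IsSmoothAt ℂ ⊥`, and
`Algebra.IsSmoothAt.exists_notMem_smooth` (`R` is finitely presented, `ℂ` is noetherian). -/
def Stmt_SM0 : Prop :=
  ∀ (R : Type) [CommRing R] [IsDomain R] [Algebra ℂ R], Algebra.FiniteType ℂ R →
    ∃ h : R, h ≠ 0 ∧ Algebra.Smooth ℂ (Localization.Away h)

/-- SM1 (200 lines): smoothness at a principal prime ideal.
PROOF. `R / (b)` is a domain of finite type: by SM0 there is `r`, `b ∤ r`, with `(R / (b))_r` smooth over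
`ℂ`.  Put `R₁ = Localization.Away r`, a domain of finite type; `b` is a prime element of `R₁`, and
`R₁ / (b) ≅ (R / (b))_r` is (formally) smooth over `ℂ`.  Make `R₁` a `ℂ[X]`-algebra by `X ↦ b`.  `b` is
transcendental over `ℂ` (it is not a constant: a constant is 0 or a unit; a nonzero polynomial in `b`
is a product of a constant and of the `b - λ ≠ 0`), so `R₁` is torsion-free over the PID `ℂ[X]`, so
flat; it is of finite presentation.  The fibre over `p = (X)` is
`p.ResidueField ⊗ R₁ ≅ R₁ / (b)` (`p` is maximal, `ℂ[X] / (X) ≅ ℂ`), formally smooth over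
`p.ResidueField ≅ ℂ`.  By `Algebra.IsSmoothAt.of_formallySmooth_fiber` with `q = (b) R₁` the
localization of `R₁` at `q` is formally smooth over `ℂ[X]`, and `ℂ[X]` is smooth over `ℂ`
(`Algebra.FormallySmooth.comp`).  `Algebra.IsSmoothAt.exists_notMem_smooth` gives `h₁ ∈ R₁`, `h₁ ∉ (b)`,
with `(R₁)_(h₁)` smooth; `h₁ = s / r ^ k`, and `(R₁)_(h₁) ≅ R_(r s)`
(`IsLocalization.Away.mul`-type lemmas, as in SMP).  `b ∤ r s`. -/
def Stmt_SM1 : Prop :=
  ∀ (R : Type) [CommRing R] [IsDomain R] [Algebra ℂ R], Algebra.FiniteType ℂ R →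
    ∀ b : R, Prime b → ∃ h : R, ¬ b ∣ h ∧ Algebra.Smooth ℂ (Localization.Away h)

/-- SMP (100 lines, uses SM0 SM1): smoothness at a prime ideal which is locally principal.
PROOF. If `b = 0` then `P = 0` (`s g = 0`, `s ≠ 0`): SM0.  Let `b ≠ 0`.  `R` is noetherian, `P` is
generated by finitely many `g i`; take `s i ∉ P` with `b ∣ s i * g i` and `s = ∏ s i ∉ P`.  In
`R₁ = Localization.Away s`, a domain of finite type, `P R₁ = (b)` is a prime ideal, so `b` is a prime
element of `R₁`.  SM1 gives `h₁ ∈ R₁`, `b ∤ h₁`, `(R₁)_(h₁)` smooth; `h₁ = r / s ^ k`, `r ∉ P`, and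
`(R₁)_(h₁)` is the localization of `R` away from `s r`: transport smoothness along the isomorphism
(`Algebra.Smooth.of_equiv`). -/
def Stmt_SMP : Prop :=
  ∀ (R : Type) [CommRing R] [IsDomain R] [Algebra ℂ R], Algebra.FiniteType ℂ R →
    ∀ P : Ideal R, P.IsPrime → ∀ b ∈ P, (∀ g ∈ P, ∃ s, s ∉ P ∧ b ∣ s * g) →
      ∃ h : R, h ∉ P ∧ Algebra.Smooth ℂ (Localization.Away h)

/-- VAL (100 lines): normal noetherian domains in height at most one.
PROOF. `A_P = Localization.AtPrime P` is a noetherian integrally closed local domain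
(`IsIntegrallyClosed` of localizations) and every nonzero prime ideal of it is maximal (HT, order
isomorphism of the primes).  So it is a field or a discrete valuation ring
(`IsDiscreteValuationRing.TFAE` or: it is a Dedekind domain and local, so a PID), hence a valuation
ring: `x / 1 ∣ y / 1` or `y / 1 ∣ x / 1` in `A_P`.  Write this down. -/
def Stmt_VAL : Prop :=
  ∀ (A : Type) [CommRing A] [IsDomain A] [IsNoetherianRing A] [IsIntegrallyClosed A]
    (P : Ideal A), P.IsPrime → HT P →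
    ∀ x y : A, ∃ s r : A, s ∉ P ∧ (s * x = r * y ∨ s * y = r * x)

/-- PRB (60 lines): in a noetherian ring.
PROOF. `P = (g_1, ..., g_k)`.  Induction on `k` (for finite sets of elements of `P`: there is `b ∈ P`,
in the set or 0, with `∀ i, ∃ s ∉ P, b ∣ s * g_i`): given `b` for `g_1..g_(k-1)` compare `b` and `g_k`:
`s g_k = r b`: keep `b`; `s b = r g_k`: take `g_k`, `s_i g_i = b t`, `s s_i g_i = r t g_k`.  For a general
`g = ∑ a_i g_i` take the product of the `s_i`. -/
def Stmt_PRB : Prop :=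
  ∀ (B : Type) [CommRing B] [IsNoetherianRing B] (P : Ideal B), P.IsPrime →
    (∀ x y : B, ∃ s r : B, s ∉ P ∧ (s * x = r * y ∨ s * y = r * x)) →
    ∃ b ∈ P, ∀ g ∈ P, ∃ s, s ∉ P ∧ b ∣ s * g

/-- the prime ideal of `(A_h)_0` belonging to `P` -/
def pz {A : Type} [CommRing A] [Algebra ℂ A] (𝒜 : ℕ → Submodule ℂ A) [GradedAlgebra 𝒜]
    (P : Ideal A) (h : A) : Ideal (HomogeneousLocalization.Away 𝒜 h) :=
  (P.map (algebraMap A (Localization.Away h))).comap
    (algebraMap (HomogeneousLocalization.Away 𝒜 h) (Localization.Away h))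

/-- PZM (60 lines): the prime ideal of `(A_h)_0`.
PROOF. `P A_h` is prime as `h ∉ P` (`IsLocalization.isPrime_of_isPrime_disjoint`).  Second part:
`mk (c / h ^ k)` has the value `c / h ^ k` in `A_h`, which is in `P A_h` iff `c ∈ P`
(`IsLocalization.mk'_mem_map_algebraMap_iff`). -/
def Stmt_PZM : Prop :=
  ∀ (A : Type) [CommRing A] [IsDomain A] [Algebra ℂ A] (𝒜 : ℕ → Submodule ℂ A)
    [GradedAlgebra 𝒜] (P : Ideal A), P.IsPrime → ∀ (m : ℕ) (h : A) (hh : h ∈ 𝒜 m), h ∉ P →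
    (pz 𝒜 P h).IsPrime ∧ ∀ (k : ℕ) (c : A) (hc : c ∈ 𝒜 (k • m)),
      HomogeneousLocalization.Away.mk 𝒜 hh k c hc ∈ pz 𝒜 P h ↔ c ∈ P

/-- DIV (150 lines, uses PZM): the valuation property passes to degree zero.
PROOF. Every element of `(A_h)_0` is `mk (c / h ^ k)` (`HomogeneousLocalization.Away.mk_surjective`), and
two elements can be written with the same `k`: `c_1 / h ^ k`, `c_2 / h ^ k`.  By hypothesis
`v c_1 = u c_2` (or `v c_2 = u c_1`: symmetric) with `v ∉ P`.  Some homogeneous component `v_j` of `v` is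
not in `P`.  The components of degree `k m + j`: `v_j c_1 = u_j c_2`.  Put `s = v_j ^ m / h ^ j`,
`r = u_j v_j ^ (m - 1) / h ^ j` (`v_j ^ m ∈ 𝒜 (m j)`): `s ∉ pz` by PZM (`v_j ^ m ∉ P`), and
`s (c_1 / h ^ k) = r (c_2 / h ^ k)` (compare values in the domain `A_h`; `val` is injective). -/
def Stmt_DIV : Prop :=
  ∀ (A : Type) [CommRing A] [IsDomain A] [Algebra ℂ A] (𝒜 : ℕ → Submodule ℂ A)
    [GradedAlgebra 𝒜] (P : Ideal A), P.IsPrime → ∀ (m : ℕ) (h : A), h ∈ 𝒜 m → 0 < m → h ∉ P →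
    (∀ x y : A, ∃ s r : A, s ∉ P ∧ (s * x = r * y ∨ s * y = r * x)) →
    ∀ x y : HomogeneousLocalization.Away 𝒜 h, ∃ s r, s ∉ pz 𝒜 P h ∧
      (s * x = r * y ∨ s * y = r * x)

/-- AFT (80 lines): finite type.
PROOF. `HomogeneousLocalization.Away.finiteType` over `𝒜 0`, and `𝒜 0 = ℂ` by hypothesis
(`A` is of finite type over `𝒜 0`, as it is over `ℂ`). -/
def Stmt_AFT : Prop :=
  ∀ (A : Type) [CommRing A] [IsDomain A] [Algebra ℂ A] (𝒜 : ℕ → Submodule ℂ A)
    [GradedAlgebra 𝒜], Algebra.FiniteType ℂ A →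
    (∀ a ∈ 𝒜 0, ∃ z : ℂ, a = algebraMap ℂ A z) → ∀ (m : ℕ) (h : A), h ∈ 𝒜 m → 0 < m →
    (strAway 𝒜 h).FiniteType

/-- SMH (150 lines, uses SMP VAL PRB PZM DIV AFT TVar.LOC): good elements.
PROOF. `B = (A_h)_0` with the `ℂ`-algebra structure `strAway 𝒜 h` is a domain (it embeds in `A_h`) of
finite type (AFT), `P₀ = pz 𝒜 P h` is prime (PZM) and has the valuation property (VAL, DIV).  PRB and
SMP give `b' ∈ B`, `b' ∉ P₀`, `B_(b')` smooth over `ℂ`.  `b' = c / h ^ k`, `c ∈ 𝒜 (k m)`, `c ∉ P`; replace `c` by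
`c h` (and `k` by `k + 1`) so that the degree is positive.  `(A_(h c))_0` is the localization of `B` at
`Away.isLocalizationElem = c ^ m / h ^ (km)`, that is at a power of `b'` (up to powers of `h / h`)
(`HomogeneousLocalization.Away.isLocalization_mul`), so `strAway 𝒜 (h * c)` is smooth (compatible with
the structure maps).  `LOC` for `h c`. -/
def Stmt_SMH : Prop :=
  ∀ (A : Type) [CommRing A] [IsDomain A] [IsIntegrallyClosed A] [Algebra ℂ A]
    (𝒜 : ℕ → Submodule ℂ A) [GradedAlgebra 𝒜], Algebra.FiniteType ℂ A →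
    (∀ a ∈ 𝒜 0, ∃ z : ℂ, a = algebraMap ℂ A z) →
    ∀ P : Ideal A, P.IsPrime → HT P → ∀ (m : ℕ) (h : A), h ∈ 𝒜 m → 0 < m → h ∉ P →
      ∃ n, 0 < n ∧ ∃ h' ∈ 𝒜 n, h' ∉ P ∧ Good 𝒜 h'

/-! ### Polynomial rings -/

/-- HOF (100 lines): factors of homogeneous polynomials.
PROOF. `P = q r ≠ 0`.  Let `m ≤ M` be the lowest and the highest weighted degree of a nonzero component
of `q`, `m' ≤ M'` for `r`.  The components of degree `m + m'` and `M + M'` of `q r` are the products of the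
extreme components, not 0 (`weightedHomogeneousComponent`, or grade the ring with
`MvPolynomial.weightedGradedAlgebra`); so `m + m' = M + M'`, `m = M`. -/
def Stmt_HOF : Prop :=
  ∀ (V : Type) (w : V → ℕ) (P q : SS V) (n : ℕ), P ≠ 0 → P.IsWeightedHomogeneous w n → q ∣ P →
    ∃ m, q.IsWeightedHomogeneous w m

/-- DM2 (100 lines): a pencil with constant radical.
PROOF. Suppose `α`, `β` linearly independent; then `β ≠ 0` and all `α + λ β ≠ 0`.  `d = gcd`, `α = d a`, `β = d b`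
with `a`, `b` without common prime factor (`SS V` is a UFD; `exists_reduced_factors` or a `GCDMonoid`).
If `a + λ b` is not a unit it has a prime factor `p`; `p ∣ α + λ β ∣ β ^ k`, so `p ∣ β = d b` and
`p ∣ α = d a`; `p ∤ b` (otherwise `p ∣ a` too), so `p ∣ d`.  `d` has finitely many prime factors up to
units; if infinitely many `a + λ b` were non-units, two different `λ`, `λ'` would have a common prime
factor `p`, `p ∣ (λ - λ') b`, `p ∣ b`, contradiction.  So `a + λ b` and `a + λ' b` are units, that is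
constants, for some `λ ≠ λ'`; then `a`, `b` are constants and `α`, `β` are dependent. -/
def Stmt_DM2 : Prop :=
  ∀ (V : Type) (α β : SS V), (∀ z : ℂ, ∃ k : ℕ, α + z • β ∣ β ^ k) →
    ¬ LinearIndependent ℂ ![α, β]

/-- GEN (100 lines): two combinations without common prime factor.
PROOF. Choose `α` with `f = ∑ α_i F_i` not zero at `x` and at `y` (the complement of two proper linear
subspaces of `ℂ ^ k` is not empty: or `α = α' + t α''` with all but two `t`).  `f` has finitely many prime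
factors `q_1..q_r` up to units; the conditions on `β`: `q_j ∤ ∑ β_i F_i` for all `j` (each excludes a
proper linear subspace of `ℂ ^ k`, since some `F_i` is not divisible by `q_j`).  A finite union of
proper subspaces is not everything over an infinite field (`Subspace.biUnion_ne_univ_of_top_nmem`
or so). -/
def Stmt_GEN : Prop :=
  ∀ (V : Type) (k : ℕ) (F : Fin k → SS V) (x y : V → ℂ),
    (∀ q : SS V, Prime q → ∃ i, ¬ q ∣ F i) → (∃ i, MvPolynomial.eval x (F i) ≠ 0) →
    (∃ i, MvPolynomial.eval y (F i) ≠ 0) →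
    ∃ α β : Fin k → ℂ, MvPolynomial.eval x (∑ i, α i • F i) ≠ 0 ∧
      MvPolynomial.eval y (∑ i, α i • F i) ≠ 0 ∧
      ∀ q : SS V, Prime q → ¬ (q ∣ ∑ i, α i • F i ∧ q ∣ ∑ i, β i • F i)

/-- the curve `T_v = x_v + c_v u + y_v u ^ (e v)` with indeterminate `c_v` -/
def sub {V : Type} (x y : V → ℂ) (e : V → ℕ) : SS V →ₐ[ℂ] Polynomial (SS V) :=
  MvPolynomial.aeval fun v =>
    Polynomial.C (MvPolynomial.C (x v)) + Polynomial.C (MvPolynomial.X v) * Polynomial.X +
      Polynomial.C (MvPolynomial.C (y v)) * Polynomial.X ^ e v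

/-- COP (150 lines): common prime factors on the curve.
PROOF. `Λ = LaurentPolynomial (SS V)` (or `Localization.Away Polynomial.X`).  `τ : (SS V)[u] → Λ`,
`u ↦ u`, `X_v ↦ (X_v - x_v - y_v u ^ (e v)) u⁻¹`, and `σ : Λ → Λ`, `u ↦ u`,
`X_v ↦ x_v + X_v u + y_v u ^ (e v)` satisfy `τ (sub F) = F` (constant) and `σ (τ p) = p`.  Let `p` be
prime, `p ∣ sub f`, `p ∣ sub g`.  `p s = sub f` gives `τ(p) τ(s) = f`.  Multiply by powers of `u`:
`τ(p) = u ^ (-a) p'`, `τ(s) = u ^ (-b) s'`, `p', s' ∈ (SS V)[u]`, `p' s' = u ^ (a+b) f`.  `u` is prime in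
`(SS V)[u]`: `p' = u ^ i p''`, `u ∤ p''`, so `p'' ∣ f` in `(SS V)[u]`, so `p''` has degree 0, `p'' = C r`,
`r ∣ f`; in the same way (same `p''`) `r ∣ g`.  If `r` is not a unit it has a prime factor, contradiction.
So `τ(p) = (unit) u ^ j` is a unit of `Λ`, and `p = σ (τ p)` is a unit of `Λ`; so `p ∣ u ^ k` in
`(SS V)[u]` for some `k`, `p ∣ u`. -/
def Stmt_COP : Prop :=
  ∀ (V : Type) (f g : SS V) (x y : V → ℂ) (e : V → ℕ), f ≠ 0 →
    (∀ q : SS V, Prime q → ¬ (q ∣ f ∧ q ∣ g)) →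
    ∀ p : Polynomial (SS V), Prime p → p ∣ sub x y e f → p ∣ sub x y e g → p ∣ Polynomial.X

/-- BZ1 (120 lines, uses COP): Bezout with denominators.
PROOF. `K = FractionRing (SS V)`, `J` = the ideal of `K[u]` generated by the images of `sub f`, `sub g`.
Let `Q` be a prime ideal of `K[u]` containing `J`.  `Q ≠ 0` as `sub f ≠ 0` (`sub` is injective: apply
`τ` of COP, or compare with `u = 1`: the composite with `u ↦ 1` is a translation of the variables).
`Q₀ = Q ∩ (SS V)[u]` is prime, nonzero and contains no nonzero constant (`K[u]` is the localization of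
`(SS V)[u]` at the nonzero constants: `Polynomial.isLocalization`).  `(SS V)[u]` is a UFD, so `Q₀`
contains a prime element `p`; `(p)` is disjoint from the nonzero constants, so `(p) K[u]` is prime and
nonzero, so maximal (PID), so equal to `Q`, and `(p) K[u] ∩ (SS V)[u] = (p)`.  So `p ∣ sub f`,
`p ∣ sub g`, and `p ∣ u` by COP: `u ∈ Q`.  So `u` is in the radical of `J`: `u ^ k ∈ J`; clear
denominators. -/
def Stmt_BZ1 : Prop :=
  ∀ (V : Type) (f g : SS V) (x y : V → ℂ) (e : V → ℕ), f ≠ 0 →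
    (∀ q : SS V, Prime q → ¬ (q ∣ f ∧ q ∣ g)) →
    ∃ (d : SS V) (k : ℕ) (a b : Polynomial (SS V)), d ≠ 0 ∧
      a * sub x y e f + b * sub x y e g = Polynomial.C d * Polynomial.X ^ k

/-- BEZ (60 lines, uses BZ1): a curve through two points without zero of `f = g = 0`.
PROOF. `c : V → ℂ` with `d (c) ≠ 0` (`MvPolynomial.funext`; first rename to the finitely many variables
of `d` if `V` is infinite: `MvPolynomial.funext` holds for all `V` over an infinite domain).  Evaluate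
the identity of BZ1 at `X_v = c_v`, `u`. -/
def Stmt_BEZ : Prop :=
  ∀ (V : Type) (f g : SS V) (x y : V → ℂ) (e : V → ℕ), f ≠ 0 →
    (∀ q : SS V, Prime q → ¬ (q ∣ f ∧ q ∣ g)) →
    ∃ c : V → ℂ, ∀ u : ℂ, u ≠ 0 →
      ¬ (MvPolynomial.eval (fun v => x v + c v * u + y v * u ^ e v) f = 0 ∧
        MvPolynomial.eval (fun v => x v + c v * u + y v * u ^ e v) g = 0)

/-- PTQ (100 lines): points of the projective line.
PROOF. `q` is a homogeneous prime ideal which does not contain both variables.  `F ∈ q`, `F ≠ 0`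
homogeneous of degree `m`; `m > 0` (a nonzero constant is not in `q`).  `F` is a product of linear forms
(dehomogenise and factor over `ℂ`; compare the blocks P1, HOMG of `Pool.TVar`), so `q` contains a
linear form `l = a X_0 + b X_1 ≠ 0`; take `c = (-b, a)`... (`l (c) = 0`, `c ≠ 0`).  If a homogeneous
`G ∈ q`, `G ≠ 0`, did not vanish at `c`, one of its linear factors in `q` would be independent of `l`, and `q`
would contain both variables.  (If `G = 0` there is nothing to prove; the same for `F`.) -/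
def Stmt_PTQ : Prop :=
  ∀ (q : Proj lineGr) (m n : ℕ) (F G : MvPolynomial (Fin 2) ℂ), F ∈ lineGr m → G ∈ lineGr n →
    F ≠ 0 → F ∈ q.asHomogeneousIdeal → G ∈ q.asHomogeneousIdeal →
    ∃ c : Fin 2 → ℂ, c ≠ 0 ∧ MvPolynomial.eval c F = 0 ∧ MvPolynomial.eval c G = 0

/-- CRV (150 lines, uses BEZ PTQ): the curve as a homomorphism.
PROOF. `c` from BEZ with `e v = 2 w v`.  `Θ (T_v) = x_v X_1 ^ (2 w_v) + c_v X_0 X_1 ^ (2 w_v - 1) +
y_v X_0 ^ (2 w_v)`.  Value at `(0, 1)`: `x_v`; at `(1, 0)`: `y_v` (`2 w_v - 1 > 0`).  `Θ` maps weighted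
homogeneous polynomials of degree `n` to forms of degree `2 n`.  For `(s, t)`, `s, t ≠ 0`, `u = s / t`:
`Θ (T_v) (s, t) = t ^ (2 w_v) (x_v + c_v u + y_v u ^ (2 w_v))`, so
`Θ (f) (s, t) = t ^ (2 D) f (x + c u + y u ^ e)`, and the same for `g`: not both 0.  At `(0, t)` and
`(s, 0)` use `f (x) ≠ 0`, `f (y) ≠ 0`.  So `Θ f`, `Θ g` have no common zero `≠ 0`; PTQ (`Θ f ≠ 0`). -/
def Stmt_CRV : Prop :=
  ∀ (V : Type) (w : V → ℕ) (f g : SS V) (x y : V → ℂ) (D : ℕ), (∀ v, 0 < w v) →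
    f.IsWeightedHomogeneous w D → g.IsWeightedHomogeneous w D →
    MvPolynomial.eval x f ≠ 0 → MvPolynomial.eval y f ≠ 0 →
    (∀ q : SS V, Prime q → ¬ (q ∣ f ∧ q ∣ g)) →
    ∃ Θ : SS V →ₐ[ℂ] MvPolynomial (Fin 2) ℂ,
      (∀ P n, P.IsWeightedHomogeneous w n → Θ P ∈ lineGr (2 * n)) ∧
      (∀ P, MvPolynomial.eval ![0, 1] (Θ P) = MvPolynomial.eval x P) ∧
      (∀ P, MvPolynomial.eval ![1, 0] (Θ P) = MvPolynomial.eval y P) ∧
      ∀ q : Proj lineGr, Θ f ∉ q.asHomogeneousIdeal ∨ Θ g ∉ q.asHomogeneousIdeal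

/-! ### The embedding -/

/-- DG0 (50 lines): the elements of degree zero are the constants.
PROOF. `φ a` is weighted homogeneous of degree 0 and all weights are positive, so it is a constant `z`
(`V` may be infinite, no problem); `φ (a - z) = 0`. -/
def Stmt_DG0 : Prop :=
  ∀ (V : Type) (w : V → ℕ) (A : Type) [CommRing A] [Algebra ℂ A] (𝒜 : ℕ → Submodule ℂ A)
    [GradedAlgebra 𝒜], GradedEmbedding w 𝒜 → ∀ a ∈ 𝒜 0, ∃ z : ℂ, a = algebraMap ℂ A z

/-- DM1 (80 lines): if the irrelevant ideal had height one.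
PROOF. The radical of the homogeneous ideal `(c)` is the intersection of the homogeneous primes
containing it (`Ideal.IsHomogeneous.radical_eq`).  Such a prime `J` is contained in `P`: let
`a ∈ J` be homogeneous of degree `k`; if `k > 0`, `a ∈ P`; if `k = 0`, `a` is a constant and in `J ≠ ⊤`,
so `a = 0`.  `J ≠ 0`, so `J = P ∋ b` by HT.  So `b ^ k ∈ (c)`. -/
def Stmt_DM1 : Prop :=
  ∀ (A : Type) [CommRing A] [IsDomain A] [Algebra ℂ A] (𝒜 : ℕ → Submodule ℂ A)
    [GradedAlgebra 𝒜], (∀ a ∈ 𝒜 0, ∃ z : ℂ, a = algebraMap ℂ A z) →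
    ∀ P : Ideal A, P.IsPrime → HT P → (∀ n, 0 < n → ∀ a ∈ 𝒜 n, a ∈ P) →
    ∀ (n : ℕ) (c : A), c ∈ 𝒜 n → c ≠ 0 → ∀ b ∈ P, ∃ k : ℕ, c ∣ b ^ k

/-- NIR (60 lines, uses DM1 DM2 DG0): there is a homogeneous element of positive degree outside `P`.
PROOF. Otherwise DM1 applies with `c = a + z b` (`≠ 0`; `n > 0` because `𝒜 0` is one-dimensional) and
`b`; apply `φ` and DM2 to `φ a`, `φ b` (linearly independent). -/
def Stmt_NIR : Prop :=
  ∀ (V : Type) (w : V → ℕ) (A : Type) [CommRing A] [IsDomain A] [Algebra ℂ A]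
    (𝒜 : ℕ → Submodule ℂ A) [GradedAlgebra 𝒜], GradedEmbedding w 𝒜 →
    (∃ n, ∃ a ∈ 𝒜 n, ∃ b ∈ 𝒜 n, LinearIndependent ℂ ![a, b]) →
    ∀ P : Ideal A, P.IsPrime → HT P → ∃ m, 0 < m ∧ ∃ h ∈ 𝒜 m, h ∉ P

/-- FIX (150 lines, uses HGT HOF DG0 NIR SMH): finitely many good elements without common factor.
PROOF. `Fintype V`.  `W` = set of all `(n, h)`, `n > 0`, `h ∈ 𝒜 n`, `h ≠ 0`, `Good 𝒜 h`.  It is not empty: NIR and
SMH for `P = ⊥`.  `SS V` is noetherian, so the ideal generated by all `φ h` is generated by finitely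
many `φ (h_1), ..., φ (h_k)`, `k ≥ 1`.  No prime `q` divides all of them: otherwise `q` divides all `φ h`,
`h ∈ W`; `q` is homogeneous by HOF, `P = φ⁻¹ (q)` is prime with HT (NoContraction, HGT), NIR gives an `h ∉ P` of
positive degree, SMH a good `h' ∉ P`, so `q ∤ φ h'`, contradiction (`h' ≠ 0`).  Equal degrees: replace
`h_i` by `h_i ^ (N / n_i)`, `N = ∏ n_i` (`D_+` of a power is the same; a prime which divides a power divides
the element). -/
def Stmt_FIX : Prop :=
  ∀ (V : Type) [Fintype V] (w : V → ℕ) (A : Type) [CommRing A] [IsDomain A]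
    [IsIntegrallyClosed A] [Algebra ℂ A] (𝒜 : ℕ → Submodule ℂ A) [GradedAlgebra 𝒜]
    (E : GradedEmbedding w 𝒜), Algebra.FiniteType ℂ A → E.NoContraction →
    (∃ n, ∃ a ∈ 𝒜 n, ∃ b ∈ 𝒜 n, LinearIndependent ℂ ![a, b]) →
    ∃ (n k : ℕ) (h : Fin (k + 1) → A), 0 < n ∧ (∀ i, h i ∈ 𝒜 n ∧ h i ≠ 0 ∧ Good 𝒜 (h i)) ∧
      ∀ q : SS V, Prime q → ∃ i, ¬ q ∣ E.φ (h i)

/-- EXT (100 lines): extension of points.
PROOF. Chevalley: the range of `Spec S → Spec B` is constructible
(`PrimeSpectrum.isConstructible_range_comap`) and contains the generic point (the fibre over `⊥` is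
not empty since `θ` is injective), so it contains some `D(b)`, `b ≠ 0` (a constructible set is a finite
union of sets `D(f) ∩ V(I)`; one of them contains `⊥`).  (Or by Noether normalisation over the fraction
field of `B`.)  Let `χ b ≠ 0`, `M = ker χ`, a maximal ideal, in `D(b)`; so there is a prime of `S` over
`M`, contained in a maximal ideal `N` of `S`, `θ⁻¹ (N) = M`.  `S / N = ℂ` (Nullstellensatz:
`Pool.TVar.helper73.exists_char` in `Work/MP_dcf6a6_tv_helper73/PTS.lean`): `χ' : S → ℂ` with kernel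
`N`; `χ' ∘ θ` and `χ` are `ℂ`-algebra homomorphisms to `ℂ` with the same kernel, so equal. -/
def Stmt_EXT : Prop :=
  ∀ (B S : Type) [CommRing B] [IsDomain B] [Algebra ℂ B] [CommRing S] [IsDomain S]
    [Algebra ℂ S], Algebra.FiniteType ℂ B → Algebra.FiniteType ℂ S → ∀ θ : B →ₐ[ℂ] S,
    Function.Injective θ → ∃ b : B, b ≠ 0 ∧ ∀ χ : B →ₐ[ℂ] ℂ, χ b ≠ 0 →
      ∃ χ' : S →ₐ[ℂ] ℂ, ∀ z, χ' (θ z) = χ z

/-- PNT (200 lines, uses EXT AFT DG0): closed points lift to affine space.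
PROOF. `h ∈ 𝒜 m`, `h ≠ 0`, `B = (A_h)_0` with the structure `strAway 𝒜 h` (domain, finite type: AFT),
`S' = Localization.Away (φ h)` of `SS V` (domain, finite type), `θ : B → A_h → S'` injective.  EXT: `b ∈ B`,
`b ≠ 0`; `b = c / h ^ k`, `c ∈ 𝒜 (k m)`, `c ≠ 0`; take `a = h c`.  Let `x ∈ D_+(h c)` be closed.  As in
`stmt_PTS` (file `Work/MP_dcf6a6_tv_helper73/PTS.lean`): `x` is the image of a closed point `p` of
`Spec B` under `Proj.awayι`, so `p` is a maximal ideal and the kernel of a `χ : B → ℂ`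
(`exists_char`); `χ b ≠ 0`.  EXT: `χ' : S' → ℂ` with `χ' θ = χ`; `z_v = χ' (T_v)`, so
`χ' (P) = eval z P` for `P ∈ SS V`, `eval z (φ h) ≠ 0`.  For `n > 0` and `b' ∈ 𝒜 n`:
`b' ∈ x ↔ b' ^ m / h ^ n ∈ p ↔ χ (b' ^ m / h ^ n) = 0 ↔ eval z (φ b') = 0`; for `n = 0` use `b' h` (or
`𝒜 0 = ℂ`). -/
def Stmt_PNT : Prop :=
  ∀ (V : Type) [Fintype V] (w : V → ℕ) (A : Type) [CommRing A] [IsDomain A] [Algebra ℂ A]
    (𝒜 : ℕ → Submodule ℂ A) [GradedAlgebra 𝒜] (E : GradedEmbedding w 𝒜),
    Algebra.FiniteType ℂ A → ∀ (m : ℕ) (h : A), h ∈ 𝒜 m → 0 < m → h ≠ 0 →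
    ∃ n, 0 < n ∧ ∃ a ∈ 𝒜 n, a ≠ 0 ∧ ∀ x ∈ Proj.basicOpen 𝒜 a,
      IsClosed ({x} : Set (Proj 𝒜)) → ∃ z : V → ℂ, ∀ k, ∀ b ∈ 𝒜 k,
        b ∈ x.asHomogeneousIdeal ↔ MvPolynomial.eval z (E.φ b) = 0

/-- MN1 (250 lines, uses FIX GEN CRV PNT TVar.PMAP TVar.P1 TVar.DENS): the theorem for embeddings.
PROOF. `h i` from FIX; `a` from PNT for `h 0`; `U = D_+(a h_0)`, dense (DENS) and smooth (`h_0` is good).
Let `x, y ∈ U` be closed, `z_x`, `z_y` from PNT; `φ (h_0)` does not vanish at `z_x`, `z_y` (`h_0 ∉ x`).  If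
`x ≠ y` put `z = z_y`.  If `x = y` choose `z` with `φ (h_0) (z) ≠ 0` and such that for some `n` and
`b ∈ 𝒜 n`: `φ (b) (z_x) = 0`, `φ (b) (z) ≠ 0`: with the linearly independent `a', b' ∈ 𝒜 n` take
`b = φ(b')(z_x) a' - φ(a')(z_x) b'` or, if this is 0 (both values are 0), `b = a'`; `b ≠ 0`; `z` exists as
`φ (b) φ (h_0) ≠ 0` (`MvPolynomial.funext`).  GEN for `F i = φ (h i)`, `z_x`, `z` gives `f`, `g`, CRV gives `Θ`
(`D = c n`).  `ψ = Θ ∘ φ : A → ℂ[X_0, X_1]` multiplies degrees by `2 c`; for every point `q` some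
`ψ (h i) ∉ q` (otherwise the combinations `Θ f`, `Θ g` are in `q`).  PMAP gives `F : P^1 → X`.  P1 for
`(0, 1)` and `(1, 0)`: points `q_0`, `q_1`; `F q_0 = x` because both contain the same homogeneous
elements (`Pool.TVar.helper73.point_ext` in `Work/MP_dcf6a6_tv_helper73`), and if `x ≠ y` also
`F q_1 = y`; if `x = y`, `F q_1` contains other elements than `x`, so `F q_0 ≠ F q_1`.  All `F q` are smooth
as some `h i ∉ F q`.  Compare `abs_main` in `Work/MP_dcf6a6_c1/ABS.lean`. -/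
def Stmt_MN1 : Prop :=
  ∀ (V : Type) [Fintype V] (w : V → ℕ) (A : Type) [CommRing A] [IsDomain A]
    [IsIntegrallyClosed A] [Algebra ℂ A] (𝒜 : ℕ → Submodule ℂ A) [GradedAlgebra 𝒜]
    (E : GradedEmbedding w 𝒜), Algebra.FiniteType ℂ A → E.NoContraction →
    (∃ n, ∃ a ∈ 𝒜 n, ∃ b ∈ 𝒜 n, LinearIndependent ℂ ![a, b]) → Concl 𝒜

/-! ### Rings of invariants -/

/-- NRM (100 lines): rings of invariants are normal.
PROOF. First: every invariant `P` (not necessarily homogeneous) is `φ a` for some `a` (the homogeneous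
components of `P` are invariant because `ρ g` preserves degrees).  `A` is a domain (it embeds in
`SS V`).  Let `x = a / b` in the fraction field be integral over `A`.  The image of the equation shows that
`φ a / φ b` is integral over `SS V`, which is a UFD, so integrally closed: `φ a = φ b * s`.  `s` is
invariant (`φ b ≠ 0`), so `s = φ a''` and `x = a''`. -/
def Stmt_NRM : Prop :=
  ∀ (V : Type) (w : V → ℕ) (G : Type) [Group G] (ρ : G →* (SS V ≃ₐ[ℂ] SS V)) (A : Type)
    [CommRing A] [IsDomain A] [Algebra ℂ A] (𝒜 : ℕ → Submodule ℂ A) [GradedAlgebra 𝒜]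
    (I : InvariantRing w ρ 𝒜),
    (∀ P, (∀ g, ρ g P = P) → ∃ a, I.φ a = P) ∧ IsIntegrallyClosed A

/-- CNJ (150 lines, uses HOF): the product of the conjugates of a prime.
PROOF. `I = {s | ∀ g, ρ g q ∣ s}`, an ideal, stable under `G`, `a ∈ I` (`q ∣ a = ρ g⁻¹ a`), so `I ≠ 0`.
Take `M ∈ I`, `M ≠ 0`, of least total degree.  (1) `M` divides every `s ∈ I`: `d = gcd (M, s) ∈ I` (every prime
`ρ g q` divides `M` and `s`, so `d`), `d ∣ M`, `M = d d'`, and the degree of `d` is not smaller than that of `M`,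
so `d'` is a nonzero constant.  (2) `ρ g M ∈ I` for all `g`, so `M ∣ ρ g M`, and by (1) for `g⁻¹`, `ρ g M ∣ M`;
units of `SS V` are nonzero constants.  (3) `q ^ 2 ∣ M`, `M = q r`, `q ∣ r`: then `r ∈ I` (if `ρ g q` is
associated to `q` clear; otherwise `ρ g q ∣ q r` and `ρ g q ∤ q`), of smaller degree (the degree of a
prime is positive), contradiction.  (4) If `ρ g p` is a multiple of `p` by a nonzero constant for all `g` and
`q ∣ p` then `p ∈ I`, `M ∣ p`.  (5) `q` homogeneous: the homogeneous components of elements of `I` are in `I`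
(all `ρ g q` are homogeneous), so `M` divides a nonzero component of `M`, and `M` is homogeneous by
HOF. -/
def Stmt_CNJ : Prop :=
  ∀ (V : Type) (w : V → ℕ) (G : Type) [Group G] (ρ : G →* (SS V ≃ₐ[ℂ] SS V)),
    (∀ g n P, P.IsWeightedHomogeneous w n → (ρ g P).IsWeightedHomogeneous w n) →
    ∀ q a : SS V, Prime q → (∃ n, q.IsWeightedHomogeneous w n) → a ≠ 0 → (∀ g, ρ g a = a) →
    q ∣ a → ∃ (M : SS V) (χ : G → ℂ), M ≠ 0 ∧ (∃ n, M.IsWeightedHomogeneous w n) ∧
      (∀ g, χ g ≠ 0 ∧ ρ g M = χ g • M) ∧ q ∣ M ∧ ¬ q ^ 2 ∣ M ∧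
      ∀ p : SS V, (∀ g, ∃ z : ℂ, z ≠ 0 ∧ ρ g p = z • p) → q ∣ p → M ∣ p

/-- HTG (150 lines, uses CNJ): no divisor is contracted by the quotient map.
PROOF. `P = φ⁻¹ (q)`, `Q ≤ P` prime, `a ∈ Q`, `a ≠ 0`.  `q ∣ φ a`; `M`, `χ` from CNJ for `φ a`, `l`, `c`, `e` from
Balanced.  `φ a = M ^ v a'` with `q ∤ a'`, `v ≥ 1` (divide by `M` as long as `q` divides the quotient; the
quotients are semi-invariant; `q ^ k ∤ φ a` for large `k`), `χ(g) ^ v ρ g a' = a'`.  Invariants:
`X = a' ^ l e ^ v` (`q ∤ X`), `m = M ^ l c`, `c e`.  `(φ a) ^ l (c e) ^ v = m ^ v X`.  Let these be the images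
of `A`-elements (every invariant is `φ` of something: NRM, first part, reprove or use as hypothesis).
The left side is in `Q`, `X ∉ P ⊇ Q`, so `m ∈ Q` (`v ≥ 1`).  Let `p ∈ P`, `p ≠ 0`: `M ∣ φ p`, `φ p = M p'`,
`p' ^ l e` is invariant and `(φ p) ^ l (c e) = m (p' ^ l e) ∈ Q`; `c e ∉ P ⊇ Q`, so `p ^ l ∈ Q`, `p ∈ Q`. -/
def Stmt_HTG : Prop :=
  ∀ (V : Type) (w : V → ℕ) (G : Type) [Group G] (ρ : G →* (SS V ≃ₐ[ℂ] SS V)),
    Balanced w ρ → ∀ (A : Type) [CommRing A] [IsDomain A] [Algebra ℂ A] (𝒜 : ℕ → Submodule ℂ A)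
    [GradedAlgebra 𝒜] (I : InvariantRing w ρ 𝒜), (∀ P, (∀ g, ρ g P = P) → ∃ a, I.φ a = P) →
    ∀ q : SS V, Prime q → (∃ n, q.IsWeightedHomogeneous w n) → HT ((Ideal.span {q}).comap I.φ)

/-- MN2 (60 lines, uses HGT NRM HTG MN1): the theorem for rings of invariants. -/
def Stmt_MN2 : Prop :=
  ∀ (V : Type) [Fintype V] (w : V → ℕ) (G : Type) [Group G] (ρ : G →* (SS V ≃ₐ[ℂ] SS V)),
    Balanced w ρ → ∀ (A : Type) [CommRing A] [IsDomain A] [Algebra ℂ A] (𝒜 : ℕ → Submodule ℂ A)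
    [GradedAlgebra 𝒜], InvariantRing w ρ 𝒜 → Algebra.FiniteType ℂ A →
    (∃ n, ∃ a ∈ 𝒜 n, ∃ b ∈ 𝒜 n, LinearIndependent ℂ ![a, b]) → Concl 𝒜

end

end Pool.GQ
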